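import Pool.Agent.Helper520_wt.Numbers

set_option autoImplicit false
set_option linter.unusedSectionVars false

/-!
Circular colourings of planar graphs of maximum degree three whose 5-cycles are disjoint.
-/

namespace Pool.Agent.Helper520

open SimpleGraph Pool.Agent.H239R2.Planar
open Pool.Agent.R50.OddCycle (Closed)

noncomputable section

open Classical

variable {V : Type} {G : SimpleGraph V}

theorem wtg_bound [Finite V] (H : Dis5 G) (wA wD wS wO r : ℕ) (h5 : r ≤ 5 * wA)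
    (h7 : ∀ (n : ℕ) (f : ℕ → V), Odd n → 7 ≤ n → Closed G n f →
      (∀ i < n, ∀ j < n, f i = f j → i = j) →
      r ≤ ∑ i ∈ Finset.range n, wtg G wA wD wS wO s(f i, f (i + 1)))
    (n : ℕ) (f : ℕ → V) (hn : Odd n) (hn3 : 3 ≤ n)
    (hf : Closed G n f) (hinj : ∀ i < n, ∀ j < n, f i = f j → i = j) :
    r ≤ ∑ i ∈ Finset.range n, wtg G wA wD wS wO s(f i, f (i + 1)) := by
  by_cases h3 : n = 3
  · exfalso
    subst h3
    have h1 := hf.2 0 (by norm_num)
    have h2 := hf.2 1 (by norm_num)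
    have h4 := hf.2 2 (by norm_num)
    have h5 : f (2 + 1) = f 0 := hf.1.symm
    rw [h5] at h4
    exact no_tri H.tri h1 h2 h4.symm
  by_cases h5' : n = 5
  · subst h5'
    have hc : Cyc G 5 (fun i => f i.1) := cyc_of_closed hf hinj
    have h1 : ∀ i ∈ Finset.range 5, wtg G wA wD wS wO s(f i, f (i + 1)) = wA := by
      intro i hi
      rw [Finset.mem_range] at hi
      unfold wtg
      rw [if_pos]
      refine ⟨_, hc, ⟨i, hi⟩, ?_⟩
      by_cases hi4 : i = 4
      · subst hi4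
        have : f (4 + 1) = f 0 := hf.1.symm
        rw [this]
        rfl
      · have h2 : ((⟨i, hi⟩ + 1 : Fin 5)).1 = i + 1 := by
          have : i < 4 := by omega
          interval_cases i <;> rfl
        show s(f i, f (i + 1)) = s(f i, f (⟨i, hi⟩ + 1 : Fin 5).1)
        rw [h2]
    rw [Finset.sum_congr rfl h1]
    simpa using h5
  · obtain ⟨k, hk⟩ := hn
    exact h7 n f ⟨k, hk⟩ (by omega) hf hinj

/-- **Circular chromatic number less than three.** -/
theorem dis_lt_three [Fintype V] (hpl : IsPlanar G) (H : Dis5 G)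
    (h7 : ∀ f : ℕ → V, Closed G 7 f → (∀ i < 7, ∀ j < 7, f i = f j → i = j) →
      ∀ S₁ S₂ S₃ : Set V, IsQ G S₁ → IsQ G S₂ → IsQ G S₃ → S₁ ≠ S₂ → S₁ ≠ S₃ → S₂ ≠ S₃ →
      (∃ i < 7, f i ∈ S₁) → (∃ i < 7, f i ∈ S₂) → (∃ i < 7, f i ∈ S₃) → ∀ i < 7, On5 G (f i)) :
    ∃ K D : ℕ, 0 < D ∧ 2 * D ≤ K ∧ K < 3 * D ∧
      ∃ c : V → ZMod K, ∀ u v, G.Adj u v → D ≤ (c u - c v).val ∧ (c u - c v).val ≤ K - D := by
  obtain ⟨N, φ, hN, hφ⟩ := weighted G hpl (wtg G 9 3 5 7)
    (fun e _ => wtg_odd (by decide) (by decide) (by decide) (by decide) e) 45 (by decide)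
    (by norm_num)
    (fun n f hn hn3 hf hinj => wtg_bound H 9 3 5 7 45 (by norm_num) (by
      intro n f hn hn7 hf hinj
      obtain ⟨a, b, c, d, u, v, h1, h2, h3, h4, hw, hu, ht, -⟩ := H.numbers hn7 hf hinj
      rw [hw]
      obtain ⟨k, hk⟩ := hn
      by_cases hn : n = 7
      · by_cases hv : 3 ≤ v
        · obtain ⟨S₁, S₂, S₃, q1, q2, q3, n12, n13, n23, m1, m2, m3⟩ := ht hn hv
          have hu0 : u = 0 := by
            by_contra hcon
            obtain ⟨i, hi, hi2⟩ := hu hcon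
            subst hn
            exact hi2 (h7 f hf hinj S₁ S₂ S₃ q1 q2 q3 n12 n13 n23 m1 m2 m3 i hi)
          omega
        · omega
      · omega) n f hn hn3 hf hinj)
  have hN1 : (1 : ℝ) ≤ N := by exact_mod_cast hN
  set κ : ℝ := (N : ℝ) / (((45 : ℕ) : ℝ) * N + 1) with hκ
  have hκ0 : 0 ≤ κ := by positivity
  have hκe : κ * (45 * N + 1) = N := by
    rw [hκ]; push_cast; field_simp
  have hκ1 : 45 * κ ≤ 1 := by nlinarith
  have hκ2 : 45 / 46 ≤ 45 * κ := by
    have : (45 : ℝ) * N / (45 * N + 1) = 45 * κ := by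
      rw [hκ]; push_cast; ring
    rw [← this, div_le_div_iff₀ (by norm_num) (by positivity)]
    linarith
  have hD : (1 : ℝ) / 2 - ((30 * N + 1 : ℕ) : ℝ) / ((90 * N + 2 : ℕ) : ℝ) = 45 * κ / 6 := by
    rw [hκ]
    push_cast
    field_simp
    ring
  refine ⟨90 * N + 2, 30 * N + 1, by omega, by omega, by omega, ?_⟩
  have hfin : ∃ φ' : V → ℝ, ∀ u v, G.Adj u v →
      ∃ k : ℤ, |φ' u - φ' v - 1 / 2 - k| ≤ 45 * κ / 6 := by
    refine repair H.tri H.disj (45 * κ / 5) (45 * κ / 20) (45 * κ / 6) (by linarith)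
      (by positivity) (by positivity) (by linarith) (by linarith) (by linarith) (by linarith)
      (by linarith) φ ?_ ?_ ?_ ?_
    · intro u v huv hE
      obtain ⟨k, hk⟩ := hφ u v huv
      rw [wtg_mk, if_pos hE] at hk
      refine ⟨k, hk.trans ?_⟩
      push_cast
      linarith
    · intro u v huv hE hu hv
      obtain ⟨k, hk⟩ := hφ u v huv
      rw [wtg_mk, if_neg hE, if_pos ⟨hu, hv⟩] at hk
      refine ⟨k, hk.trans ?_⟩
      push_cast
      linarith
    · intro u v huv hE hu hv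
      obtain ⟨k, hk⟩ := hφ u v huv
      rw [wtg_mk, if_neg hE, if_neg hv, if_pos hu] at hk
      refine ⟨k, hk.trans ?_⟩
      push_cast
      linarith
    · intro u v huv hu hv
      obtain ⟨k, hk⟩ := hφ u v huv
      rw [wtg_mk, if_neg (fun h => hu h.on5.1), if_neg (fun h => hu h.1),
        if_neg (fun h => h.elim hu hv)] at hk
      refine ⟨k, hk.trans ?_⟩
      push_cast
      linarith
  obtain ⟨φ', hφ'⟩ := hfin
  exact toK (90 * N + 2) (30 * N + 1) (by omega) (by omega) φ' (by rw [hD]; exact hφ')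

/-- **The bound `110/37`.** -/
theorem dis_110_37 [Fintype V] (hpl : IsPlanar G) (H : Dis5 G)
    (h7 : ∀ f : ℕ → V, Closed G 7 f → (∀ i < 7, ∀ j < 7, f i = f j → i = j) →
      ∀ S₁ S₂ S₃ : Set V, IsQ G S₁ → IsQ G S₂ → IsQ G S₃ → S₁ ≠ S₂ → S₁ ≠ S₃ → S₂ ≠ S₃ →
      (∃ i < 7, f i ∈ S₁) → (∃ i < 7, f i ∈ S₂) → (∃ i < 7, f i ∈ S₃) → False) :
    ∃ c : V → ZMod 110, ∀ u v, G.Adj u v →
      37 ≤ (c u - c v).val ∧ (c u - c v).val ≤ 73 := by
  have happ : ∀ j : ℕ, Odd j → ∃ φ : V → ℝ, ∀ u v, G.Adj u v →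
      ∃ k : ℤ, |φ u - φ v - 1 / 2 - k| ≤ 9 / 55 + 1 / (j : ℝ) := by
    intro j hj
    have hj0 : 0 < j := hj.pos
    have hj1 : (0 : ℝ) < j := by exact_mod_cast hj0
    obtain ⟨N, φ, hN, hφ⟩ := weighted G hpl (wtg G (11 * j) (3 * j) (6 * j + 1) (9 * j))
      (fun e _ => wtg_odd ((by decide : Odd 11).mul hj) ((by decide : Odd 3).mul hj)
        ⟨3 * j, by ring⟩ ((by decide : Odd 9).mul hj) e) (55 * j) ((by decide : Odd 55).mul hj)
      (by omega)
      (fun n f hn hn3 hf hinj => wtg_bound H (11 * j) (3 * j) (6 * j + 1) (9 * j) (55 * j)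
        (by omega) (by
        intro n f hn hn7 hf hinj
        obtain ⟨a, b, c, d, u, v, h1, h2, h3, h4, hw, hu, ht, -⟩ := H.numbers hn7 hf hinj
        rw [hw]
        obtain ⟨k, hk⟩ := hn
        have hkey : 55 ≤ 11 * a + 3 * c + 6 * b + 9 * d := by
          by_cases hn : n = 7
          · by_cases hv : 3 ≤ v
            · exfalso
              obtain ⟨S₁, S₂, S₃, q1, q2, q3, n12, n13, n23, m1, m2, m3⟩ := ht hn hv
              subst hn
              exact h7 f hf hinj S₁ S₂ S₃ q1 q2 q3 n12 n13 n23 m1 m2 m3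
            · omega
          · omega
        have h8 := Nat.mul_le_mul_right j hkey
        calc 55 * j ≤ (11 * a + 3 * c + 6 * b + 9 * d) * j := h8
          _ ≤ (11 * a + 3 * c + 6 * b + 9 * d) * j + b := Nat.le_add_right _ _
          _ = 11 * j * a + 3 * j * c + (6 * j + 1) * b + 9 * j * d := by ring)
        n f hn hn3 hf hinj)
    have hN1 : (0 : ℝ) < N := by exact_mod_cast hN
    set κ : ℝ := (N : ℝ) / (((55 * j : ℕ) : ℝ) * N + 1) with hκ
    have hκ0 : 0 ≤ κ := by positivity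
    have hκ1 : 55 * j * κ ≤ 1 := by
      have h1 : κ * (((55 * j : ℕ) : ℝ) * N + 1) = N := by
        rw [hκ]; field_simp
      push_cast at h1
      have h2 : (55 * j * κ - 1) * N ≤ 0 := by nlinarith
      nlinarith
    have hκj : κ ≤ 1 / j := by
      rw [le_div_iff₀ hj1]
      nlinarith
    have hj2 : (0 : ℝ) ≤ 1 / j := by positivity
    refine repair H.tri H.disj (1 / 5) (3 / 55) (9 / 55 + 1 / j) le_rfl
      (by norm_num) (by positivity) (by linarith) (by linarith) (by linarith) (by linarith)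
      (by linarith) φ ?_ ?_ ?_ ?_
    · intro u v huv hE
      obtain ⟨k, hk⟩ := hφ u v huv
      rw [wtg_mk, if_pos hE] at hk
      refine ⟨k, hk.trans ?_⟩
      push_cast
      linarith
    · intro u v huv hE hu hv
      obtain ⟨k, hk⟩ := hφ u v huv
      rw [wtg_mk, if_neg hE, if_pos ⟨hu, hv⟩] at hk
      refine ⟨k, hk.trans ?_⟩
      push_cast
      linarith
    · intro u v huv hE hu hv
      obtain ⟨k, hk⟩ := hφ u v huv
      rw [wtg_mk, if_neg hE, if_neg hv, if_pos hu] at hk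
      refine ⟨k, hk.trans ?_⟩
      push_cast
      linarith
    · intro u v huv hu hv
      obtain ⟨k, hk⟩ := hφ u v huv
      rw [wtg_mk, if_neg (fun h => hu h.on5.1), if_neg (fun h => hu h.1),
        if_neg (fun h => h.elim hu hv)] at hk
      refine ⟨k, hk.trans ?_⟩
      push_cast
      linarith
  obtain ⟨φ, hφ⟩ := limitc (9 / 55) happ
  exact toK 110 37 (by norm_num) (by norm_num) φ (by
    have : (1 : ℝ) / 2 - ((37 : ℕ) : ℝ) / ((110 : ℕ) : ℝ) = 9 / 55 := by norm_num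
    rw [this]; exact hφ)

/-- **The bound `90/31`.** -/
theorem dis_90_31 [Fintype V] (hpl : IsPlanar G) (H : Dis5 G)
    (hd : ∀ S S' : Set V, IsQ G S → IsQ G S' → S ≠ S' → ∀ s ∈ S, ∀ s' ∈ S', ∀ p : G.Walk s s',
      3 ≤ p.length) :
    ∃ c : V → ZMod 90, ∀ u v, G.Adj u v →
      31 ≤ (c u - c v).val ∧ (c u - c v).val ≤ 59 := by
  have hnoD : ∀ u v, G.Adj u v → ¬ E5 G s(u, v) → On5 G u → On5 G v → False := by
    intro u v huv hE hu hv
    obtain ⟨S, hS, hx⟩ := on5_iff.mp hu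
    obtain ⟨S', hS', hy⟩ := on5_iff.mp hv
    by_cases hSS : S = S'
    · subst hSS
      exact hE (e5_of_mem' H.tri hS hx hy huv)
    · have := hd S S' hS hS' hSS _ hx _ hy (Walk.cons huv Walk.nil)
      simp at this
  have happ : ∀ j : ℕ, Odd j → ∃ φ : V → ℝ, ∀ u v, G.Adj u v →
      ∃ k : ℤ, |φ u - φ v - 1 / 2 - k| ≤ 7 / 45 + 1 / (j : ℝ) := by
    intro j hj
    have hj0 : 0 < j := hj.pos
    have hj1 : (0 : ℝ) < j := by exact_mod_cast hj0
    obtain ⟨N, φ, hN, hφ⟩ := weighted G hpl (wtg G (9 * j) 1 (4 * j + 1) (7 * j))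
      (fun e _ => wtg_odd ((by decide : Odd 9).mul hj) odd_one
        ⟨2 * j, by ring⟩ ((by decide : Odd 7).mul hj) e) (45 * j) ((by decide : Odd 45).mul hj)
      (by omega)
      (fun n f hn hn3 hf hinj => wtg_bound H (9 * j) 1 (4 * j + 1) (7 * j) (45 * j)
        (by omega) (by
        intro n f hn hn7 hf hinj
        obtain ⟨a, b, c, d, u, v, h1, h2, h3, h4, hw, hu, -, ht⟩ := H.numbers hn7 hf hinj
        obtain ⟨ht1, ht2⟩ := ht hd
        rw [hw]
        obtain ⟨k, hk⟩ := hn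
        have hkey : 45 ≤ 9 * a + 4 * b + 7 * d := by omega
        have h8 := Nat.mul_le_mul_right j hkey
        calc 45 * j ≤ (9 * a + 4 * b + 7 * d) * j := h8
          _ ≤ (9 * a + 4 * b + 7 * d) * j + (b + c) := Nat.le_add_right _ _
          _ = 9 * j * a + 1 * c + (4 * j + 1) * b + 7 * j * d := by ring)
        n f hn hn3 hf hinj)
    have hN1 : (0 : ℝ) < N := by exact_mod_cast hN
    set κ : ℝ := (N : ℝ) / (((45 * j : ℕ) : ℝ) * N + 1) with hκ
    have hκ0 : 0 ≤ κ := by positivity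
    have hκ1 : 45 * j * κ ≤ 1 := by
      have h1 : κ * (((45 * j : ℕ) : ℝ) * N + 1) = N := by
        rw [hκ]; field_simp
      push_cast at h1
      have h2 : (45 * j * κ - 1) * N ≤ 0 := by nlinarith
      nlinarith
    have hκj : κ ≤ 1 / j := by
      rw [le_div_iff₀ hj1]
      nlinarith
    have hj2 : (0 : ℝ) ≤ 1 / j := by positivity
    refine repair H.tri H.disj (1 / 5) (3 / 45) (7 / 45 + 1 / j) le_rfl
      (by norm_num) (by positivity) (by linarith) (by linarith) (by linarith) (by linarith)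
      (by linarith) φ ?_ ?_ ?_ ?_
    · intro u v huv hE
      obtain ⟨k, hk⟩ := hφ u v huv
      rw [wtg_mk, if_pos hE] at hk
      refine ⟨k, hk.trans ?_⟩
      push_cast
      linarith
    · intro u v huv hE hu hv
      exact absurd (hnoD u v huv hE hu hv) not_false
    · intro u v huv hE hu hv
      obtain ⟨k, hk⟩ := hφ u v huv
      rw [wtg_mk, if_neg hE, if_neg hv, if_pos hu] at hk
      refine ⟨k, hk.trans ?_⟩
      push_cast
      linarith
    · intro u v huv hu hv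
      obtain ⟨k, hk⟩ := hφ u v huv
      rw [wtg_mk, if_neg (fun h => hu h.on5.1), if_neg (fun h => hu h.1),
        if_neg (fun h => h.elim hu hv)] at hk
      refine ⟨k, hk.trans ?_⟩
      push_cast
      linarith
  obtain ⟨φ, hφ⟩ := limitc (7 / 45) happ
  exact toK 90 31 (by norm_num) (by norm_num) φ (by
    have : (1 : ℝ) / 2 - ((31 : ℕ) : ℝ) / ((90 : ℕ) : ℝ) = 7 / 45 := by norm_num
    rw [this]; exact hφ)

end

end Pool.Agent.Helper520
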