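import Pool.Agent.H185F.Main
import Pool.Agent.H239R2.Cover.PlanarP1
import Pool.Agent.R50.OddCycle

set_option autoImplicit false
set_option linter.unusedSectionVars false

/-!
A weighted circular colouring theorem for planar graphs: if every odd cycle has total weight at
least `r`, there is a map to the circle whose increment along each edge is close to one half.
-/

namespace Pool.Agent.Helper520

open SimpleGraph Pool.Agent.H239R2.Planar
open Pool.Agent.H239R2.Cover (ecut mem_ecut exists_potential)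
open Pool.Agent.R50.OddCycle (Closed exists_induced_odd_cycle)

noncomputable section

open Classical

variable {V : Type} [Fintype V] (G : SimpleGraph V) (σ : Equiv.Perm G.Dart)

/-- the dart `d` separates a face in `X` from a face not in `X` -/
def Cross (X : Finset (Face G σ)) (d : G.Dart) : Prop :=
  ¬ (face G σ d ∈ X ↔ face G σ d.symm ∈ X)

theorem cross_symm (X : Finset (Face G σ)) (d : G.Dart) :
    Cross G σ X d.symm ↔ Cross G σ X d := by
  unfold Cross
  rw [Dart.symm_symm]
  tauto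

variable {σ} in
theorem even_cross (hσ : IsRotation G σ) (X : Finset (Face G σ)) (v : V) :
    Even (Finset.univ.filter fun d : G.Dart => d.fst = v ∧ Cross G σ X d).card := by
  rw [← ZMod.natCast_eq_zero_iff_even, Finset.card_filter]
  push_cast
  have h2 : ∀ d : G.Dart, ((if d.fst = v ∧ Cross G σ X d then 1 else 0 : ZMod 2)) =
      (if d.fst = v ∧ face G σ d ∈ X then 1 else 0) +
      (if (σ d).fst = v ∧ face G σ (σ d) ∈ X then 1 else 0) := by
    intro d
    simp only [Cross, hσ.1 d]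
    rw [← face_symm]
    by_cases ha : d.fst = v <;> by_cases hb : face G σ d ∈ X <;>
      by_cases hc : face G σ d.symm ∈ X <;> simp [ha, hb, hc] <;> decide
  rw [Finset.sum_congr rfl fun d _ => h2 d, Finset.sum_add_distrib,
    Equiv.sum_comp σ (fun d => (if d.fst = v ∧ face G σ d ∈ X then 1 else 0 : ZMod 2))]
  exact CharTwo.add_self_eq_zero _

/-- the graph of the edges separating a face in `X` from a face not in `X` -/
def crossGraph (X : Finset (Face G σ)) : SimpleGraph V where
  Adj u v := ∃ h : G.Adj u v, Cross G σ X ⟨(u, v), h⟩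
  symm := ⟨fun _ _ ⟨h, hc⟩ => ⟨h.symm, (cross_symm G σ X ⟨(_, _), h⟩).mpr hc⟩⟩
  loopless := ⟨fun _ ⟨h, _⟩ => h.ne rfl⟩

/-- the two ends of the dual edge -/
def fsrc (e : G.edgeSet) : Face G σ := face G σ (dt G e)
/-- the two ends of the dual edge -/
def fdst (e : G.edgeSet) : Face G σ := face G σ (dt G e).symm

theorem mem_cut (X : Finset (Face G σ)) (e : G.edgeSet) :
    e ∈ ecut (fsrc G σ) (fdst G σ) X ↔ Cross G σ X (dt G e) := by
  rw [mem_ecut]; rfl

theorem mem_cut' (X : Finset (Face G σ)) (d : G.Dart) :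
    (⟨d.edge, d.edge_mem⟩ : G.edgeSet) ∈ ecut (fsrc G σ) (fdst G σ) X ↔ Cross G σ X d := by
  rw [mem_cut]
  rcases (dart_edge_eq_iff _ _).mp (dt_edge G ⟨d.edge, d.edge_mem⟩) with h | h
  · rw [h]
  · rw [h, cross_symm]

variable {σ} in
theorem even_cut_of_colorable (hσ : IsRotation G σ) (X : Finset (Face G σ))
    (hc : (crossGraph G σ X).Colorable 2) : Even (ecut (fsrc G σ) (fdst G σ) X).card := by
  obtain ⟨c⟩ := hc
  have h1 : ∀ d : G.Dart, Cross G σ X d → c d.fst ≠ c d.snd := by
    intro d hd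
    have hadj : (crossGraph G σ X).Adj d.fst d.snd := ⟨d.adj, hd⟩
    exact c.valid hadj
  set A : Finset G.Dart := Finset.univ.filter fun d => c d.fst = 0 ∧ Cross G σ X d with hA
  have h2 : ((ecut (fsrc G σ) (fdst G σ) X).card : ℚ) = A.card := by
    have h3 : (A.card : ℚ) = ∑ d : G.Dart, (if c d.fst = 0 ∧ Cross G σ X d then (1:ℚ) else 0) := by
      rw [hA, Finset.card_filter]; push_cast; rfl
    rw [h3, sum_darts, ecut, Finset.card_filter]
    push_cast
    refine Finset.sum_congr rfl fun e _ => ?_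
    have h4 : (¬ (fsrc G σ e ∈ X ↔ fdst G σ e ∈ X)) ↔ Cross G σ X (dt G e) := Iff.rfl
    rw [cross_symm]
    simp only [h4]
    by_cases h5 : Cross G σ X (dt G e)
    · have h6 := h1 _ h5
      have h7 : (dt G e).symm.fst = (dt G e).snd := rfl
      rw [h7]
      simp only [h5, and_true, if_true]
      by_cases h8 : c (dt G e).fst = 0
      · have h9 : ¬ c (dt G e).snd = 0 := fun h => h6 (h8.trans h.symm)
        rw [if_pos h8, if_neg h9]; norm_num
      · have h9 : c (dt G e).snd = 0 := by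
          revert h6 h8
          generalize c (dt G e).fst = a
          generalize c (dt G e).snd = b
          revert a b
          decide
        rw [if_neg h8, if_pos h9]; norm_num
    · simp [h5]
  have h3 : (ecut (fsrc G σ) (fdst G σ) X).card = A.card := by exact_mod_cast h2
  rw [h3]
  have h4 : A.card = ∑ v ∈ Finset.univ.filter (fun v => c v = 0),
      (Finset.univ.filter fun d : G.Dart => d.fst = v ∧ Cross G σ X d).card := by
    rw [Finset.card_eq_sum_card_fiberwise (f := fun d : G.Dart => d.fst)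
      (t := Finset.univ.filter (fun v => c v = 0))]
    · refine Finset.sum_congr rfl fun v hv => ?_
      congr 1
      ext d
      simp only [hA, Finset.mem_filter, Finset.mem_univ, true_and] at hv ⊢
      constructor
      · rintro ⟨⟨_, h2⟩, h3⟩; exact ⟨h3, h2⟩
      · rintro ⟨h3, h2⟩; exact ⟨⟨by rw [h3]; exact hv, h2⟩, h3⟩
    · intro d hd
      simp only [hA, Finset.coe_filter, Finset.mem_univ, true_and, Set.mem_ofPred_eq] at hd ⊢
      exact hd.1
  rw [h4]
  exact Finset.even_sum _ fun v _ => even_cross G hσ X v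

/-- an edge of the cycle given by `f` -/
theorem cut_ge (X : Finset (Face G σ)) (m : Sym2 V → ℕ) (n : ℕ) (f : ℕ → V) (hn : 3 ≤ n)
    (hf : Closed (crossGraph G σ X) n f) (hinj : ∀ i < n, ∀ j < n, f i = f j → i = j) :
    ∑ i ∈ Finset.range n, m s(f i, f (i + 1)) ≤ ∑ e ∈ ecut (fsrc G σ) (fdst G σ) X, m e.1 := by
  have hadj : ∀ i, i < n → G.Adj (f i) (f (i + 1)) := fun i hi => (hf.2 i hi).choose
  -- the edges of the cycle
  set g : {i // i ∈ Finset.range n} → G.edgeSet := fun i =>
    ⟨s(f i.1, f (i.1 + 1)), G.mem_edgeSet.mpr (hadj i.1 (Finset.mem_range.mp i.2))⟩ with hg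
  have hgcut : ∀ i, g i ∈ ecut (fsrc G σ) (fdst G σ) X := by
    intro i
    obtain ⟨h, hc⟩ := hf.2 i.1 (Finset.mem_range.mp i.2)
    exact (mem_cut' G σ X ⟨(f i.1, f (i.1 + 1)), h⟩).mpr hc
  have hginj : Function.Injective g := by
    rintro ⟨i, hi⟩ ⟨j, hj⟩ h
    rw [Finset.mem_range] at hi hj
    simp only [hg, Subtype.mk.injEq] at h
    rw [Sym2.eq_iff] at h
    rw [Subtype.mk.injEq]
    rcases h with ⟨h1, _⟩ | ⟨h1, h2⟩
    · exact hinj i hi j hj h1
    · -- `f i = f (j+1)` and `f (i+1) = f j`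
      have key : ∀ a, a < n → ∀ b, b < n → f a = f (b + 1) → (a = b + 1 ∨ (a = 0 ∧ b + 1 = n)) := by
        intro a ha b hb hab
        by_cases hb' : b + 1 < n
        · exact Or.inl (hinj a ha _ hb' hab)
        · have hb2 : b + 1 = n := by omega
          rw [hb2, ← hf.1] at hab
          exact Or.inr ⟨hinj a ha 0 (by omega) hab, hb2⟩
      have k1 := key i hi j hj h1
      have k2 := key j hj i hi h2.symm
      omega
  calc ∑ i ∈ Finset.range n, m s(f i, f (i + 1))
      = ∑ i ∈ (Finset.range n).attach, m (g i).1 := by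
        rw [← Finset.sum_attach]
    _ = ∑ e ∈ (Finset.range n).attach.image g, m e.1 := by
        rw [Finset.sum_image (fun a _ b _ h => hginj h)]
    _ ≤ ∑ e ∈ ecut (fsrc G σ) (fdst G σ) X, m e.1 := by
        apply Finset.sum_le_sum_of_subset
        intro e he
        rw [Finset.mem_image] at he
        obtain ⟨i, _, rfl⟩ := he
        exact hgcut i

variable {σ} in
/-- The expanded dual multigraph has no small odd cut. -/
theorem oddConn_dual (hσ : IsRotation G σ) (m : Sym2 V → ℕ) (hm : ∀ e ∈ G.edgeSet, Odd (m e))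
    (r : ℕ)
    (hcyc : ∀ (n : ℕ) (f : ℕ → V), Odd n → 3 ≤ n → Closed G n f →
      (∀ i < n, ∀ j < n, f i = f j → i = j) → r ≤ ∑ i ∈ Finset.range n, m s(f i, f (i + 1))) :
    Pool.Agent.H185F.OddConn r
      (fun p : (e : G.edgeSet) × Fin (m e.1) => fsrc G σ p.1)
      (fun p : (e : G.edgeSet) × Fin (m e.1) => fdst G σ p.1) := by
  intro X hX
  have h1 : ecut (fun p : (e : G.edgeSet) × Fin (m e.1) => fsrc G σ p.1)
      (fun p : (e : G.edgeSet) × Fin (m e.1) => fdst G σ p.1) X
      = (ecut (fsrc G σ) (fdst G σ) X).sigma (fun _ => Finset.univ) := by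
    ext p
    rw [mem_ecut, Finset.mem_sigma, mem_ecut]
    simp
  rw [h1, Finset.card_sigma] at hX ⊢
  simp only [Finset.card_univ, Fintype.card_fin] at hX ⊢
  have h2 : Odd (ecut (fsrc G σ) (fdst G σ) X).card := by
    rw [← Nat.not_even_iff_odd] at hX ⊢
    intro hev
    apply hX
    rw [← ZMod.natCast_eq_zero_iff_even] at hev ⊢
    push_cast
    rw [← hev, Finset.card_eq_sum_ones]
    push_cast
    refine Finset.sum_congr rfl fun e _ => ?_
    have := hm e.1 e.2
    rw [← ZMod.natCast_eq_one_iff_odd] at this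
    exact this
  have h3 : ¬ (crossGraph G σ X).Colorable 2 := by
    intro hc
    exact (Nat.not_even_iff_odd.mpr h2) (even_cut_of_colorable G hσ X hc)
  obtain ⟨n, hn, hn3, f, hf, hinj, _⟩ := exists_induced_odd_cycle h3
  have hf' : Closed G n f := ⟨hf.1, fun i hi => (hf.2 i hi).choose⟩
  exact (hcyc n f hn hn3 hf' hinj).trans (cut_ge G σ X m n f hn3 hf hinj)

/-- If `DD ψ` is integral then `ψ` may be replaced by an integral function. -/
theorem exists_int_potential (ψ : Face G σ → ℚ) (z : G.edgeSet → ℤ)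
    (h : ∀ e, DD G σ ψ e = z e) :
    ∃ ψ' : Face G σ → ℤ, ∀ e, z e = ψ' (fsrc G σ e) - ψ' (fdst G σ e) := by
  refine ⟨fun f => ⌊ψ f⌋, fun e => ?_⟩
  have h1 := h e
  rw [DD_apply] at h1
  have h2 : ψ (fsrc G σ e) = ψ (fdst G σ e) + (z e : ℤ) := by
    simp only [fsrc, fdst]; linarith
  show z e = ⌊ψ (fsrc G σ e)⌋ - ⌊ψ (fdst G σ e)⌋
  rw [h2, Int.floor_add_intCast]
  ring

/-- **Weighted colouring theorem for planar graphs.** Let every edge of the planar graph `G` carry
an odd weight such that every odd cycle has weight at least `r`. Then there is a real-valued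
function on the vertices whose increment along every edge `uv` differs from a half-integer by
less than `m (uv) / r`. -/
theorem weighted (hG : IsPlanar G) (m : Sym2 V → ℕ) (hm : ∀ e ∈ G.edgeSet, Odd (m e))
    (r : ℕ) (hr : Odd r) (hr3 : 3 ≤ r)
    (hcyc : ∀ (n : ℕ) (f : ℕ → V), Odd n → 3 ≤ n → Closed G n f →
      (∀ i < n, ∀ j < n, f i = f j → i = j) → r ≤ ∑ i ∈ Finset.range n, m s(f i, f (i + 1))) :
    ∃ (N : ℕ) (φ : V → ℝ), 0 < N ∧ ∀ u v, G.Adj u v →
      ∃ k : ℤ, |φ u - φ v - 1 / 2 - k| ≤ m s(u, v) * ((N : ℝ) / (r * N + 1)) := by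
  obtain ⟨σ, hσ, heu⟩ := hG
  have hodd := oddConn_dual G hσ m hm r hcyc
  set N : ℕ := Fintype.card (Face G σ) + 1 with hN
  obtain ⟨s, hs1, hs2⟩ := Pool.Agent.H185F.good_of_oddConn' r hr hr3 N (by omega) (by omega) _ _
    hodd
  set κ : ℝ := (N : ℝ) / (r * N + 1) with hκ
  set S : G.edgeSet → ℝ := fun e => ∑ i : Fin (m e.1), s ⟨e, i⟩ with hS
  have hSb : ∀ e : G.edgeSet, |S e - m e.1 / 2| ≤ m e.1 * κ := by
    intro e
    have h1 : S e - m e.1 / 2 = ∑ i : Fin (m e.1), (s ⟨e, i⟩ - 1 / 2) := by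
      rw [Finset.sum_sub_distrib, hS]
      simp [div_eq_mul_inv]
    rw [h1]
    refine (Finset.abs_sum_le_sum_abs _ _).trans ?_
    refine (Finset.sum_le_sum (fun i _ => hs1 ⟨e, i⟩)).trans ?_
    simp
  -- the boundary of `S`
  have hbd : ∀ f : Face G σ, ∃ z : ℤ, ∑ e : G.edgeSet, S e *
      ((if fsrc G σ e = f then 1 else 0) - (if fdst G σ e = f then 1 else 0)) = z := by
    intro f
    obtain ⟨z, hz⟩ := hs2 f
    refine ⟨z, ?_⟩
    rw [← hz, Pool.Agent.H239R2.Cover.bdry_apply, Fintype.sum_sigma]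
    refine Finset.sum_congr rfl fun e _ => ?_
    rw [hS, Finset.sum_mul]
  obtain ⟨φ, y, hφ⟩ := exists_potential (fun e : G.edgeSet => (dt G e).fst)
    (fun e : G.edgeSet => (dt G e).snd) S (by
    intro z hz
    have h1 : Pool.Agent.H239R2.Planar.bdry G (fun e => (z e : ℚ)) = 0 := by
      ext v
      rw [bdry_apply, Pi.zero_apply]
      have h2 := congrFun hz v
      rw [Pool.Agent.H239R2.Cover.bdry_apply, Pi.zero_apply] at h2
      have h3 : ((∑ e, z e * ((if (dt G e).fst = v then 1 else 0) -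
          (if (dt G e).snd = v then 1 else 0)) : ℤ) : ℚ) = 0 := by rw [h2]; rfl
      refine Eq.trans ?_ h3
      push_cast
      refine Finset.sum_congr rfl fun e _ => ?_
      simp only [eq_comm (a := v)]
    have h2 : (fun e => (z e : ℚ)) ∈ LinearMap.range (DD G σ) := by
      rw [ker_bdry G hσ heu]; exact h1
    obtain ⟨ψ, hψ⟩ := h2
    obtain ⟨ψ', hψ'⟩ := exists_int_potential G σ ψ z (fun e => by rw [hψ])
    choose w hw using hbd
    refine ⟨∑ f, ψ' f * w f, ?_⟩
    push_cast
    have h3 : ∀ f, (ψ' f : ℝ) * (w f : ℝ) = ∑ e : G.edgeSet, (ψ' f : ℝ) * (S e *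
        ((if fsrc G σ e = f then 1 else 0) - (if fdst G σ e = f then 1 else 0))) := by
      intro f
      rw [← hw f, Finset.mul_sum]
    rw [Finset.sum_congr rfl fun f _ => h3 f, Finset.sum_comm]
    refine Finset.sum_congr rfl fun e _ => ?_
    rw [hψ' e]
    push_cast
    have h4 : ∀ f, (ψ' f : ℝ) * (S e * ((if fsrc G σ e = f then 1 else 0) -
        (if fdst G σ e = f then 1 else 0))) =
        S e * ((if fsrc G σ e = f then (ψ' f : ℝ) else 0) -
          (if fdst G σ e = f then (ψ' f : ℝ) else 0)) := by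
      intro f
      by_cases ha : fsrc G σ e = f <;> by_cases hb : fdst G σ e = f <;> simp [ha, hb] <;> ring
    rw [Finset.sum_congr rfl fun f _ => h4 f, ← Finset.mul_sum, Finset.sum_sub_distrib]
    simp)
  refine ⟨N, φ, by omega, fun u v huv => ?_⟩
  set e : G.edgeSet := ⟨s(u, v), G.mem_edgeSet.mpr huv⟩ with he
  obtain ⟨q, hq⟩ := hm s(u, v) (G.mem_edgeSet.mpr huv)
  have h1 := hφ e
  have h2 := hSb e
  have h3 : (e.1 : Sym2 V) = s(u, v) := rfl
  rw [h3] at h2
  have hq' : (m s(u, v) : ℝ) = 2 * q + 1 := by exact_mod_cast hq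
  rcases dart_edge_eq_mk'_iff'.mp (dt_edge G e) with ⟨h4, h5⟩ | ⟨h4, h5⟩
  · rw [h4, h5] at h1
    refine ⟨q - y e, ?_⟩
    have h6 : φ u - φ v - 1 / 2 - ((q - y e : ℤ) : ℝ) = S e - m s(u, v) / 2 := by
      rw [h1, hq']; push_cast; ring
    rw [h6]; exact h2
  · rw [h4, h5] at h1
    refine ⟨y e - q - 1, ?_⟩
    have h6 : φ u - φ v - 1 / 2 - ((y e - q - 1 : ℤ) : ℝ) = -(S e - m s(u, v) / 2) := by
      rw [h1, hq']; push_cast; ring
    rw [h6, abs_neg]; exact h2

end

end Pool.Agent.Helper520
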