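import Mathlib
import Pool.Agent.R50.OddCycle

set_option autoImplicit false

/-!
Cycles of a graph as injective cyclic sequences of vertices.
-/

namespace Pool.Agent.Helper520

open SimpleGraph
open Pool.Agent.R50.OddCycle (Closed)

variable {V : Type} {G : SimpleGraph V}

/-- `a` lists the vertices of a cycle of length `n` in their cyclic order -/
def Cyc (G : SimpleGraph V) (n : ℕ) [NeZero n] (a : Fin n → V) : Prop :=
  Function.Injective a ∧ ∀ i, G.Adj (a i) (a (i + 1))

theorem cyc_of_copy {n : ℕ} (c : Copy (cycleGraph (n + 2)) G) : Cyc G (n + 2) (fun i => c i) := by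
  refine ⟨fun i j h => c.injective h, fun i => ?_⟩
  apply c.toHom.map_adj
  rw [cycleGraph_adj]
  right
  simp

theorem copy_of_cyc {n : ℕ} {a : Fin (n + 2) → V} (h : Cyc G (n + 2) a) :
    ∃ c : Copy (cycleGraph (n + 2)) G, ∀ i, c i = a i := by
  refine ⟨⟨⟨a, ?_⟩, h.1⟩, fun i => rfl⟩
  intro i j hij
  rw [cycleGraph_adj] at hij
  rcases hij with h1 | h1
  · have h2 : i = j + 1 := by rw [← h1]; simp
    rw [h2]
    exact (h.2 j).symm
  · have h2 : j = i + 1 := by rw [← h1]; simp
    rw [h2]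
    exact h.2 i

theorem cyc_of_closed {n : ℕ} {f : ℕ → V} (hf : Closed G (n + 1) f)
    (hinj : ∀ i < n + 1, ∀ j < n + 1, f i = f j → i = j) :
    Cyc G (n + 1) (fun i => f i.1) := by
  refine ⟨fun i j h => Fin.ext (hinj i.1 i.2 j.1 j.2 h), fun i => ?_⟩
  show G.Adj (f i.1) (f (i + 1 : Fin (n + 1)).1)
  by_cases hi : i = Fin.last n
  · rw [hi, Fin.last_add_one]
    have h1 := hf.2 n (by omega)
    rw [← hf.1] at h1
    exact h1
  · have h1 : (i + 1 : Fin (n + 1)).1 = i.1 + 1 := by
      rw [Fin.val_add_one, if_neg hi]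
    rw [h1]
    exact hf.2 _ i.2

end Pool.Agent.Helper520
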