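import Mathlib

set_option autoImplicit false

/-!
From approximate circular colourings to a colouring by `ZMod 20`.
-/

namespace Pool.Agent.Helper520

open SimpleGraph

variable {V : Type} {G : SimpleGraph V}

theorem to20 (φ : V → ℝ)
    (h : ∀ u v, G.Adj u v → ∃ k : ℤ, |φ u - φ v - 1 / 2 - k| ≤ 3 / 20) :
    ∃ c : V → ZMod 20, ∀ u v, G.Adj u v → 7 ≤ (c u - c v).val ∧ (c u - c v).val ≤ 13 := by
  refine ⟨fun v => ((⌊20 * φ v⌋ : ℤ) : ZMod 20), fun u v huv => ?_⟩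
  obtain ⟨k, hk⟩ := h u v huv
  rw [abs_le] at hk
  have h1 : (7 : ℤ) + 20 * k ≤ ⌊20 * φ u⌋ - ⌊20 * φ v⌋ := by
    have h2 : ⌊20 * φ v⌋ + (7 + 20 * k) ≤ ⌊20 * φ u⌋ := by
      rw [Int.le_floor]
      push_cast
      have := Int.floor_le (20 * φ v)
      linarith
    omega
  have h2 : ⌊20 * φ u⌋ - ⌊20 * φ v⌋ ≤ 13 + 20 * k := by
    have h2 : ⌊20 * φ u⌋ - (13 + 20 * k) ≤ ⌊20 * φ v⌋ := by
      rw [Int.le_floor]
      push_cast
      have := Int.floor_le (20 * φ u)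
      linarith
    omega
  obtain ⟨t, ht⟩ : ∃ t : ℤ, ⌊20 * φ u⌋ - ⌊20 * φ v⌋ = t + 20 * k :=
    ⟨⌊20 * φ u⌋ - ⌊20 * φ v⌋ - 20 * k, by ring⟩
  have ht1 : 7 ≤ t := by omega
  have ht2 : t ≤ 13 := by omega
  have h3 : ((⌊20 * φ u⌋ : ℤ) : ZMod 20) - ((⌊20 * φ v⌋ : ℤ) : ZMod 20) = (t : ZMod 20) := by
    rw [← Int.cast_sub, ht]
    push_cast
    have : (20 : ZMod 20) = 0 := rfl
    rw [this]; ring
  show 7 ≤ (((⌊20 * φ u⌋ : ℤ) : ZMod 20) - ((⌊20 * φ v⌋ : ℤ) : ZMod 20)).val ∧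
    (((⌊20 * φ u⌋ : ℤ) : ZMod 20) - ((⌊20 * φ v⌋ : ℤ) : ZMod 20)).val ≤ 13
  rw [h3]
  interval_cases t <;> decide

/-- A limit argument: approximate colourings for every positive error give an exact one. -/
theorem limit20 [Finite V]
    (h : ∀ j : ℕ, Odd j → ∃ φ : V → ℝ, ∀ u v, G.Adj u v →
      ∃ k : ℤ, |φ u - φ v - 1 / 2 - k| ≤ 3 / 20 + 1 / (j : ℝ)) :
    ∃ φ : V → ℝ, ∀ u v, G.Adj u v → ∃ k : ℤ, |φ u - φ v - 1 / 2 - k| ≤ 3 / 20 := by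
  set K : ℕ → Set (V → UnitAddCircle) := fun j =>
    {φ | ∀ u v, G.Adj u v →
      ‖φ u - φ v - ((1 / 2 : ℝ) : UnitAddCircle)‖ ≤ 3 / 20 + 1 / ((2 * j + 1 : ℕ) : ℝ)} with hK
  have hcl : ∀ j, IsClosed (K j) := by
    intro j
    have : K j = ⋂ (u : V) (v : V) (_ : G.Adj u v),
        {φ | ‖φ u - φ v - ((1 / 2 : ℝ) : UnitAddCircle)‖ ≤ 3 / 20 + 1 / ((2 * j + 1 : ℕ) : ℝ)} := by
      ext φ; simp [hK]
    rw [this]
    refine isClosed_iInter fun u => isClosed_iInter fun v => isClosed_iInter fun _ => ?_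
    apply isClosed_le _ continuous_const
    fun_prop
  have hmono : ∀ j, K (j + 1) ⊆ K j := by
    intro j φ hφ u v huv
    refine (hφ u v huv).trans ?_
    have : (1 : ℝ) / ((2 * (j + 1) + 1 : ℕ) : ℝ) ≤ 1 / ((2 * j + 1 : ℕ) : ℝ) := by
      apply one_div_le_one_div_of_le
      · positivity
      · push_cast; linarith
    linarith
  have hne : ∀ j, (K j).Nonempty := by
    intro j
    obtain ⟨φ, hφ⟩ := h (2 * j + 1) ⟨j, rfl⟩
    refine ⟨fun v => ((φ v : ℝ) : UnitAddCircle), fun u v huv => ?_⟩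
    obtain ⟨k, hk⟩ := hφ u v huv
    show ‖((φ u : ℝ) : UnitAddCircle) - ((φ v : ℝ) : UnitAddCircle)
      - ((1 / 2 : ℝ) : UnitAddCircle)‖ ≤ _
    rw [← AddCircle.coe_sub, ← AddCircle.coe_sub, UnitAddCircle.norm_eq]
    exact (round_le _ k).trans hk
  obtain ⟨φ, hφ⟩ := IsCompact.nonempty_iInter_of_sequence_nonempty_isCompact_isClosed K hmono hne
    ((hcl 0).isCompact) hcl
  rw [Set.mem_iInter] at hφ
  have hsurj : ∀ v, ∃ x : ℝ, ((x : ℝ) : UnitAddCircle) = φ v := fun v =>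
    QuotientAddGroup.mk_surjective (φ v)
  choose x hx using hsurj
  refine ⟨x, fun u v huv => ⟨round (x u - x v - 1 / 2), ?_⟩⟩
  have h1 : ‖φ u - φ v - ((1 / 2 : ℝ) : UnitAddCircle)‖ ≤ 3 / 20 := by
    apply le_of_forall_pos_le_add
    intro ε hε
    obtain ⟨j, hj⟩ := exists_nat_one_div_lt hε
    refine (hφ j u v huv).trans ?_
    have : (1 : ℝ) / ((2 * j + 1 : ℕ) : ℝ) ≤ 1 / ((j : ℝ) + 1) := by
      apply one_div_le_one_div_of_le
      · positivity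
      · push_cast; linarith [Nat.cast_nonneg (α := ℝ) j]
    linarith
  rw [← hx u, ← hx v, ← AddCircle.coe_sub, ← AddCircle.coe_sub, UnitAddCircle.norm_eq] at h1
  exact h1

end Pool.Agent.Helper520
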