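import Pool.Agent.Helper520_wt.Pot
import Pool.Agent.Helper520_wt.Round20
import Pool.Agent.R50.OddCycle

set_option autoImplicit false

/-!
Deviations of a circular map, and the colouring obtained when all cycles have small deviation.
-/

namespace Pool.Agent.Helper520

open SimpleGraph
open Pool.Agent.R50.OddCycle (Closed)

noncomputable section

variable {V : Type} {G : SimpleGraph V}

/-- the deviation of the increment from `u` to `v` from one half -/
def dev (φ : V → ℝ) (u v : V) : ℝ := (φ u - φ v - 1 / 2) - round (φ u - φ v - 1 / 2)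

theorem dev_le (φ : V → ℝ) (u v : V) {b : ℝ} (h : ∃ k : ℤ, |φ u - φ v - 1 / 2 - k| ≤ b) :
    |dev φ u v| ≤ b := by
  obtain ⟨k, hk⟩ := h
  exact (round_le _ k).trans hk

theorem dev_swap (φ : V → ℝ) (u v : V) (h : |dev φ u v| < 1 / 2) : dev φ v u = - dev φ u v := by
  set x := φ u - φ v - 1 / 2 with hx
  have h1 : φ v - φ u - 1 / 2 = -x - 1 := by rw [hx]; ring
  have h2 : round (-x - 1) = - round x - 1 := by
    have h3 : |x - round x| < 1 / 2 := h
    rw [abs_lt] at h3
    rw [round_eq, Int.floor_eq_iff]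
    push_cast
    constructor <;> linarith
  unfold dev
  rw [h1, h2, ← hx]
  push_cast
  ring

/-- Twice the total deviation along a closed walk is an integer of the parity of its length. -/
theorem dev_sum (φ : V → ℝ) (n : ℕ) (f : ℕ → V) (hf : f 0 = f n) :
    ∃ k : ℤ, ∑ i ∈ Finset.range n, dev φ (f i) (f (i + 1)) = -(n : ℝ) / 2 - k := by
  refine ⟨∑ i ∈ Finset.range n, round (φ (f i) - φ (f (i + 1)) - 1 / 2), ?_⟩
  unfold dev
  rw [Finset.sum_sub_distrib, Finset.sum_sub_distrib]
  have h1 : ∑ i ∈ Finset.range n, (φ (f i) - φ (f (i + 1))) = 0 := by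
    rw [Finset.sum_range_sub' (fun i => φ (f i)) n, hf, sub_self]
  rw [h1]
  simp
  ring

/-- If every cycle has total deviation at most `3/20` times its length, there is a
`(20, 7)`-colouring. -/
theorem color_of_cycles [Finite V] (φ : V → ℝ) (hs : ∀ u v, G.Adj u v → |dev φ u v| < 1 / 2)
    (hcyc : ∀ (n : ℕ) (f : ℕ → V), 3 ≤ n → Closed G n f →
      (∀ i < n, ∀ j < n, f i = f j → i = j) →
      ∑ i ∈ Finset.range n, dev φ (f i) (f (i + 1)) ≤ 3 / 20 * n) :
    ∃ c : V → ZMod 20, ∀ u v, G.Adj u v → 7 ≤ (c u - c v).val ∧ (c u - c v).val ≤ 13 := by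
  obtain ⟨ψ, hψ⟩ := exists_pot (G := G) (fun u v => 3 / 20 - dev φ u v)
    (fun u v huv => by
      rw [dev_swap φ u v (hs u v huv)]
      linarith)
    (fun u p hp => by
      rw [wcost_eq_sum, Finset.sum_sub_distrib]
      have h3 := hp.three_le_length
      have h1 := hcyc p.length p.getVert h3
        ⟨by rw [p.getVert_zero, p.getVert_length], fun i hi => p.adj_getVert_succ hi⟩
        (fun i hi j hj hij => hp.getVert_injOn' (by rw [Set.mem_ofPred_eq]; omega)
          (by rw [Set.mem_ofPred_eq]; omega) hij)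
      simp only [Finset.sum_const, Finset.card_range, nsmul_eq_mul]
      linarith)
  refine to20 (fun v => φ v - ψ v) (fun u v huv => ?_)
  refine ⟨round (φ u - φ v - 1 / 2), ?_⟩
  have h1 := hψ u v huv
  have h2 := hψ v u huv.symm
  rw [dev_swap φ u v (hs u v huv)] at h2
  have h3 : dev φ u v = (φ u - φ v - 1 / 2) - round (φ u - φ v - 1 / 2) := rfl
  rw [abs_le]
  constructor <;> linarith

end

end Pool.Agent.Helper520
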