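import Pool.Agent.Helper520_wt.Isolated
import Pool.Agent.Helper520_wt.Dev

set_option autoImplicit false
set_option linter.unusedSectionVars false

/-!
Planar graphs of maximum degree three whose cycles of length five are far apart.
-/

namespace Pool.Agent.Helper520

open SimpleGraph Pool.Agent.H239R2.Planar
open Pool.Agent.R50.OddCycle (Closed)

noncomputable section

open Classical

/-! ### Periodic sequences -/

theorem sum_rotate {M : Type*} [AddCommMonoid M] [IsLeftCancelAdd M] (n : ℕ) (F : ℕ → M)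
    (hF : ∀ i, F (i + n) = F i) (i₀ : ℕ) :
    ∑ i ∈ Finset.range n, F (i₀ + i) = ∑ i ∈ Finset.range n, F i := by
  induction i₀ with
  | zero => simp
  | succ i₀ ih =>
    rw [← ih]
    have h1 := Finset.sum_range_succ (fun i => F (i₀ + i)) n
    have h2 := Finset.sum_range_succ' (fun i => F (i₀ + i)) n
    rw [h1] at h2
    simp only [add_zero] at h2
    rw [hF i₀, add_comm _ (F i₀), add_comm _ (F i₀)] at h2
    have h3 := add_left_cancel h2
    rw [h3]
    refine Finset.sum_congr rfl fun i _ => ?_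
    congr 1
    omega

variable {V : Type} {G : SimpleGraph V}

theorem exists_periodic {n : ℕ} {f : ℕ → V} (hn : 3 ≤ n) (hf : Closed G n f)
    (hinj : ∀ i < n, ∀ j < n, f i = f j → i = j) :
    ∃ g : ℕ → V, (∀ i, g (i + n) = g i) ∧ (∀ i < n, g i = f i) ∧ (∀ i < n, g (i + 1) = f (i + 1)) ∧
      (∀ i, G.Adj (g i) (g (i + 1))) ∧ (∀ i j, g i = g j → i % n = j % n) := by
  set g : ℕ → V := fun i => f (i % n) with hg
  have hg1 : ∀ i < n, g i = f i := fun i hi => by simp only [hg, Nat.mod_eq_of_lt hi]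
  have hgn : g n = g 0 := by simp [hg]
  have hg2 : ∀ i < n, g (i + 1) = f (i + 1) := by
    intro i hi
    by_cases h : i + 1 < n
    · exact hg1 _ h
    · have h1 : i + 1 = n := by omega
      rw [h1, hgn, hg1 0 (by omega), hf.1]
  refine ⟨g, fun i => by simp [hg], hg1, hg2, ?_, ?_⟩
  · intro i
    have hi := Nat.mod_lt i (show 0 < n by omega)
    have h1 := hf.2 (i % n) hi
    have h2 : g (i + 1) = f (i % n + 1) := by
      rw [← hg2 _ hi]
      simp only [hg]
      rw [Nat.mod_add_mod]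
    rw [h2]
    exact h1
  · intro i j hij
    exact hinj _ (Nat.mod_lt _ (by omega)) _ (Nat.mod_lt _ (by omega)) hij

/-- a periodic sequence of truth values which is neither always true nor always false has an
exit -/
theorem exists_exit (n : ℕ) (P : ℕ → Prop) (hP : ∀ i, P (i + n) ↔ P i) {a b : ℕ} (ha : a < n)
    (hb : b < n) (h1 : P a) (h2 : ¬ P b) : ∃ i < n, P i ∧ ¬ P (i + 1) := by
  by_contra hcon
  push Not at hcon
  have h0 : 0 < n := by omega
  have h3 : ∀ i, P i → P (i + 1) := by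
    intro i hi
    have h4 : ∀ k, (P (i % n + k * n + 1) ↔ P (i % n + 1)) := by
      intro k
      induction k with
      | zero => simp
      | succ k ih =>
        rw [← ih, ← hP (i % n + k * n + 1)]
        have : i % n + (k + 1) * n + 1 = i % n + k * n + 1 + n := by ring
        rw [this]
    have h5 : ∀ k, (P (i % n + k * n) ↔ P (i % n)) := by
      intro k
      induction k with
      | zero => simp
      | succ k ih =>
        rw [← ih, ← hP (i % n + k * n)]
        have : i % n + (k + 1) * n = i % n + k * n + n := by ring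
        rw [this]
    have h6 : i % n + (i / n) * n = i := by rw [mul_comm]; exact Nat.mod_add_div i n
    have h7 := h5 (i / n)
    have h8 := h4 (i / n)
    rw [h6] at h7 h8
    rw [h8]
    exact hcon _ (Nat.mod_lt i h0) (h7.mp hi)
  have h4 : ∀ k, P (a + k) := by
    intro k
    induction k with
    | zero => exact h1
    | succ k ih => exact h3 _ ih
  apply h2
  have h5 := h4 (b + n - a)
  have h6 : a + (b + n - a) = b + n := by omega
  rw [h6] at h5
  exact (hP b).mp h5

/-- the same for an entry -/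
theorem exists_entry (n : ℕ) (P : ℕ → Prop) (hP : ∀ i, P (i + n) ↔ P i) {a b : ℕ} (ha : a < n)
    (hb : b < n) (h1 : P a) (h2 : ¬ P b) : ∃ i < n, ¬ P i ∧ P (i + 1) := by
  obtain ⟨i, hi, h3, h4⟩ := exists_exit n (fun i => ¬ P i) (fun i => by rw [hP]) hb ha h2
    (fun h => h h1)
  exact ⟨i, hi, h3, not_not.mp h4⟩

/-! ### Five vertices of a 5-cycle in a row -/

theorem five_row (htri : G.CliqueFree 3) {a : Fin 5 → V} (ha : Cyc G 5 a) (b : ℕ → V)
    (hb : ∀ l < 5, b l ∈ Set.range a) (hadj : ∀ l < 4, G.Adj (b l) (b (l + 1)))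
    (hinj : ∀ l < 5, ∀ m < 5, b l = b m → l = m) : G.Adj (b 0) (b 4) := by
  obtain ⟨x0, h0⟩ := hb 0 (by norm_num)
  obtain ⟨x1, h1⟩ := hb 1 (by norm_num)
  obtain ⟨x2, h2⟩ := hb 2 (by norm_num)
  obtain ⟨x3, h3⟩ := hb 3 (by norm_num)
  obtain ⟨x4, h4⟩ := hb 4 (by norm_num)
  have a0 := hadj 0 (by norm_num)
  have a1 := hadj 1 (by norm_num)
  have a2 := hadj 2 (by norm_num)
  have a3 := hadj 3 (by norm_num)
  simp only [Nat.zero_add, Nat.reduceAdd] at a0 a1 a2 a3
  rw [← h0, ← h1] at a0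
  rw [← h1, ← h2] at a1
  rw [← h2, ← h3] at a2
  rw [← h3, ← h4] at a3
  have c0 := chordless htri ha a0
  have c1 := chordless htri ha a1
  have c2 := chordless htri ha a2
  have c3 := chordless htri ha a3
  have n02 : x0 ≠ x2 := fun h => by
    have := hinj 0 (by norm_num) 2 (by norm_num) (by rw [← h0, ← h2, h]); omega
  have n13 : x1 ≠ x3 := fun h => by
    have := hinj 1 (by norm_num) 3 (by norm_num) (by rw [← h1, ← h3, h]); omega
  have n24 : x2 ≠ x4 := fun h => by
    have := hinj 2 (by norm_num) 4 (by norm_num) (by rw [← h2, ← h4, h]); omega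
  have key : x0 = x4 + 1 ∨ x4 = x0 + 1 := by
    clear a0 a1 a2 a3 h0 h1 h2 h3 h4
    rcases c0 with c0 | c0 <;> rcases c1 with c1 | c1 <;> rcases c2 with c2 | c2 <;>
      rcases c3 with c3 | c3 <;> omega
  rw [← h0, ← h4]
  rcases key with key | key
  · rw [key]; exact (ha.2 x4).symm
  · rw [key]; exact ha.2 x0

/-! ### The visits of a cycle to a 5-cycle -/

/-- the vertex set of a cycle of length five -/
def IsQ (G : SimpleGraph V) (S : Set V) : Prop := ∃ a : Fin 5 → V, Cyc G 5 a ∧ Set.range a = S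

theorem card_visits {S : Set V} (hS : IsQ G S) (n : ℕ) (g : ℕ → V)
    (hinj : ∀ i j, g i = g j → i % n = j % n) :
    (∑ i ∈ Finset.range n, if g i ∈ S then 1 else 0) ≤ 5 := by
  obtain ⟨a, ha, haS⟩ := hS
  have hex : ∀ v, v ∈ S → ∃ x, a x = v := fun v hv => by rw [← haS] at hv; exact hv
  rw [← Finset.card_filter]
  have h1 : ((Finset.range n).filter fun i => g i ∈ S).card ≤
      (Finset.univ : Finset (Fin 5)).card := by
    apply Finset.card_le_card_of_injOn
      (fun i => if h : g i ∈ S then (hex _ h).choose else 0)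
      (fun _ _ => Finset.mem_coe.mpr (Finset.mem_univ _))
    intro i hi j hj hij
    rw [Finset.coe_filter, Set.mem_ofPred_eq, Finset.mem_range] at hi hj
    simp only [hi.2, hj.2, dif_pos] at hij
    have h2 := (hex _ hi.2).choose_spec
    have h3 := (hex _ hj.2).choose_spec
    rw [hij, h3] at h2
    have h4 := hinj _ _ h2.symm
    rw [Nat.mod_eq_of_lt hi.1, Nat.mod_eq_of_lt hj.1] at h4
    exact h4
  simpa using h1

/-- consequences for the numbers of vertices, edges, exits and entries -/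
theorem visits {S : Set V} (hS : IsQ G S) (n : ℕ) (hn : 6 ≤ n) (g : ℕ → V)
    (hper : ∀ i, g (i + n) = g i) (hinj : ∀ i j, g i = g j → i % n = j % n)
    (hmeet : ∃ i < n, g i ∈ S) :
    (∑ i ∈ Finset.range n, if g i ∈ S ∧ g (i + 1) ∈ S then 1 else 0) +
      (∑ i ∈ Finset.range n, if g i ∈ S ∧ g (i + 1) ∉ S then 1 else 0) ≤ 5 ∧
    (∑ i ∈ Finset.range n, if g i ∈ S ∧ g (i + 1) ∈ S then 1 else 0) +
      (∑ i ∈ Finset.range n, if g i ∈ S ∧ g (i + 1) ∉ S then 1 else 0) =
      (∑ i ∈ Finset.range n, if g i ∈ S then 1 else 0) ∧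
    (∑ i ∈ Finset.range n, if g i ∉ S ∧ g (i + 1) ∈ S then 1 else 0) =
      (∑ i ∈ Finset.range n, if g i ∈ S ∧ g (i + 1) ∉ S then 1 else 0) ∧
    1 ≤ (∑ i ∈ Finset.range n, if g i ∈ S ∧ g (i + 1) ∉ S then 1 else 0) := by
  have h1 := card_visits hS n g hinj
  have h2 : (∑ i ∈ Finset.range n, if g i ∈ S ∧ g (i + 1) ∈ S then 1 else 0) +
      (∑ i ∈ Finset.range n, if g i ∈ S ∧ g (i + 1) ∉ S then 1 else 0) =
      (∑ i ∈ Finset.range n, if g i ∈ S then 1 else 0) := by
    rw [← Finset.sum_add_distrib]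
    refine Finset.sum_congr rfl fun i _ => ?_
    by_cases ha : g i ∈ S <;> by_cases hb : g (i + 1) ∈ S <;> simp [ha, hb]
  have h3 : (∑ i ∈ Finset.range n, if g i ∈ S ∧ g (i + 1) ∈ S then 1 else 0) +
      (∑ i ∈ Finset.range n, if g i ∉ S ∧ g (i + 1) ∈ S then 1 else 0) =
      (∑ i ∈ Finset.range n, if g (i + 1) ∈ S then 1 else 0) := by
    rw [← Finset.sum_add_distrib]
    refine Finset.sum_congr rfl fun i _ => ?_
    by_cases ha : g i ∈ S <;> by_cases hb : g (i + 1) ∈ S <;> simp [ha, hb]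
  have h4 : (∑ i ∈ Finset.range n, if g (i + 1) ∈ S then 1 else 0) =
      (∑ i ∈ Finset.range n, if g i ∈ S then 1 else 0) :=
    sum_shift n (fun i => if g i ∈ S then 1 else 0) (by
      have := hper 0
      rw [Nat.zero_add] at this
      simp only [this])
  have h5 : 1 ≤ (∑ i ∈ Finset.range n, if g i ∈ S ∧ g (i + 1) ∉ S then 1 else 0) := by
    obtain ⟨i, hi, him⟩ := hmeet
    obtain ⟨j, hj, hjm⟩ : ∃ j < n, g j ∉ S := by
      by_contra hcon
      push Not at hcon
      have : (∑ i ∈ Finset.range n, if g i ∈ S then 1 else 0) = n := by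
        rw [Finset.sum_congr rfl (fun i hi => if_pos (hcon i (Finset.mem_range.mp hi)))]
        simp
      omega
    obtain ⟨l, hl, hl1, hl2⟩ := exists_exit n (fun i => g i ∈ S) (fun i => by rw [hper]) hi hj
      him hjm
    have h6 := Finset.single_le_sum (f := fun i => if g i ∈ S ∧ g (i + 1) ∉ S then 1 else 0)
      (fun _ _ => Nat.zero_le _) (Finset.mem_range.mpr hl)
    simp only [hl1, hl2, not_false_eq_true, and_self, if_true] at h6
    exact h6
  refine ⟨by omega, h2, by omega, h5⟩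

/-- If the cycle contains four edges of the 5-cycle, their total deviation is at most `7/10`. -/
theorem four_edges (htri : G.CliqueFree 3) (φ : V → ℝ)
    (hφ : ∀ u v, G.Adj u v → |dev φ u v| ≤ 1 / 5) {S : Set V} (hS : IsQ G S) (n : ℕ) (hn : 6 ≤ n)
    (g : ℕ → V) (hper : ∀ i, g (i + n) = g i) (hadj : ∀ i, G.Adj (g i) (g (i + 1)))
    (hinj : ∀ i j, g i = g j → i % n = j % n)
    (h4 : (∑ i ∈ Finset.range n, if g i ∈ S ∧ g (i + 1) ∈ S then 1 else 0) = 4) :
    ∑ i ∈ Finset.range n, (if g i ∈ S ∧ g (i + 1) ∈ S then dev φ (g i) (g (i + 1)) else 0)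
      ≤ 7 / 10 := by
  have hmeet : ∃ i < n, g i ∈ S := by
    by_contra hcon
    push Not at hcon
    rw [Finset.sum_eq_zero] at h4
    · omega
    · intro i hi
      rw [if_neg (fun h => hcon i (Finset.mem_range.mp hi) h.1)]
  obtain ⟨v1, v2, v3, v4⟩ := visits hS n hn g hper hinj hmeet
  have hex : (∑ i ∈ Finset.range n, if g i ∈ S ∧ g (i + 1) ∉ S then 1 else 0) = 1 := by omega
  have hV : (∑ i ∈ Finset.range n, if g i ∈ S then 1 else 0) = 5 := by omega
  have hent : 1 ≤ (∑ i ∈ Finset.range n, if g i ∉ S ∧ g (i + 1) ∈ S then 1 else 0) := by omega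
  -- an entry
  obtain ⟨i₁, hi₁, hi2⟩ := Finset.exists_ne_zero_of_sum_ne_zero (s := Finset.range n)
    (f := fun i => if g i ∉ S ∧ g (i + 1) ∈ S then 1 else 0) (by omega)
  have hi3 : g i₁ ∉ S ∧ g (i₁ + 1) ∈ S := by
    by_contra hcon
    simp only [if_neg hcon] at hi2
    exact hi2 rfl
  set g' : ℕ → V := fun l => g (i₁ + 1 + l) with hg'
  have hper' : ∀ i, g' (i + n) = g' i := by
    intro i
    simp only [hg']
    rw [← hper (i₁ + 1 + i)]
    congr 1
    omega
  have hadj' : ∀ i, G.Adj (g' i) (g' (i + 1)) := fun i => hadj _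
  have hinj' : ∀ i < n, ∀ j < n, g' i = g' j → i = j := by
    intro i hi j hj hij
    have h1 := hinj _ _ hij
    have h2 : i ≡ j [MOD n] := Nat.ModEq.add_left_cancel' (i₁ + 1) h1
    have h3 : i % n = j % n := h2
    rw [Nat.mod_eq_of_lt hi, Nat.mod_eq_of_lt hj] at h3
    exact h3
  have h0 : g' 0 ∈ S := hi3.2
  have hlast : g' (n - 1) ∉ S := by
    simp only [hg']
    have : i₁ + 1 + (n - 1) = i₁ + n := by omega
    rw [this, hper]
    exact hi3.1
  have hex' : (∑ i ∈ Finset.range n, if g' i ∈ S ∧ g' (i + 1) ∉ S then 1 else 0) = 1 := by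
    refine Eq.trans ?_ hex
    exact sum_rotate n (fun i => if g i ∈ S ∧ g (i + 1) ∉ S then 1 else 0)
      (fun i => by
        have e1 : g (i + n + 1) = g (i + 1) := by
          rw [← hper (i + 1)]; congr 1; omega
        simp only [hper, e1]) (i₁ + 1)
  have hV' : (∑ i ∈ Finset.range n, if g' i ∈ S then 1 else 0) = 5 := by
    refine Eq.trans ?_ hV
    exact sum_rotate n (fun i => if g i ∈ S then 1 else 0) (fun i => by simp only [hper]) (i₁ + 1)
  -- the first exit
  have hexk : ∃ k, g' k ∉ S := ⟨n - 1, hlast⟩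
  set k := Nat.find hexk with hk
  have hk1 : g' k ∉ S := Nat.find_spec hexk
  have hk2 : ∀ l < k, g' l ∈ S := fun l hl => not_not.mp (Nat.find_min hexk hl)
  have hk3 : k ≤ n - 1 := Nat.find_min' hexk hlast
  have hk0 : k ≠ 0 := fun h => hk1 (by rw [h]; exact h0)
  have hk4 : ∀ l, k ≤ l → l < n → g' l ∉ S := by
    intro l hl hln hmem
    -- a second exit
    have hex2 : ∃ m, l + m < n ∧ g' (l + m) ∉ S := ⟨n - 1 - l, by omega, by
      have : l + (n - 1 - l) = n - 1 := by omega
      rw [this]; exact hlast⟩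
    set m := Nat.find hex2 with hm
    obtain ⟨hm1, hm2⟩ := Nat.find_spec hex2
    have hm0 : m ≠ 0 := fun h => hm2 (by rw [← hm, h]; exact hmem)
    have hm3 : g' (l + m - 1) ∈ S := by
      by_contra hcon
      have := Nat.find_min' hex2 (m := m - 1) ⟨by omega, by
        have : l + (m - 1) = l + m - 1 := by omega
        rw [this]; exact hcon⟩
      omega
    have e1 : (if g' (k - 1) ∈ S ∧ g' (k - 1 + 1) ∉ S then 1 else 0) = 1 := by
      have : k - 1 + 1 = k := by omega
      rw [this, if_pos ⟨hk2 _ (by omega), hk1⟩]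
    have e2 : (if g' (l + m - 1) ∈ S ∧ g' (l + m - 1 + 1) ∉ S then 1 else 0) = 1 := by
      have : l + m - 1 + 1 = l + m := by omega
      rw [this, if_pos ⟨hm3, hm2⟩]
    have hne : k - 1 ≠ l + m - 1 := by omega
    have h5 : ({k - 1, l + m - 1} : Finset ℕ) ⊆ Finset.range n := by
      intro x hx
      rw [Finset.mem_insert, Finset.mem_singleton] at hx
      rw [Finset.mem_range]
      omega
    have h6 := Finset.sum_le_sum_of_subset (f := fun i =>
      if g' i ∈ S ∧ g' (i + 1) ∉ S then 1 else 0) h5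
    rw [Finset.sum_pair hne, hex'] at h6
    simp only [e1, e2] at h6
    omega
  have hk5 : k = 5 := by
    refine Eq.trans ?_ hV'
    have h6 : (∑ i ∈ Finset.range n, if g' i ∈ S then 1 else 0)
        = ∑ i ∈ Finset.range n, if i < k then 1 else 0 := by
      refine Finset.sum_congr rfl fun i hi => ?_
      rw [Finset.mem_range] at hi
      by_cases h : i < k
      · rw [if_pos h, if_pos (hk2 i h)]
      · rw [if_neg h, if_neg (hk4 i (by omega) hi)]
    have h7 : (Finset.range n).filter (fun i => i < k) = Finset.range k := by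
      ext i
      simp only [Finset.mem_filter, Finset.mem_range]
      omega
    rw [h6, ← Finset.card_filter, h7, Finset.card_range]
  -- rotate the sum
  have hrot : ∑ i ∈ Finset.range n,
      (if g i ∈ S ∧ g (i + 1) ∈ S then dev φ (g i) (g (i + 1)) else 0)
      = ∑ i ∈ Finset.range n,
      (if g' i ∈ S ∧ g' (i + 1) ∈ S then dev φ (g' i) (g' (i + 1)) else 0) := by
    symm
    exact sum_rotate n
      (fun i => if g i ∈ S ∧ g (i + 1) ∈ S then dev φ (g i) (g (i + 1)) else 0)
      (fun i => by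
        have e1 : g (i + n + 1) = g (i + 1) := by
          rw [← hper (i + 1)]; congr 1; omega
        simp only [hper, e1]) (i₁ + 1)
  rw [hrot]
  have hsplit : ∑ i ∈ Finset.range n,
      (if g' i ∈ S ∧ g' (i + 1) ∈ S then dev φ (g' i) (g' (i + 1)) else 0)
      = ∑ i ∈ Finset.range 4, dev φ (g' i) (g' (i + 1)) := by
    have hsub : Finset.range 4 ⊆ Finset.range n := Finset.range_subset_range.mpr (by omega)
    rw [← Finset.sum_subset hsub]
    · refine Finset.sum_congr rfl fun i hi => ?_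
      rw [Finset.mem_range] at hi
      rw [if_pos ⟨hk2 _ (by omega), hk2 _ (by omega)⟩]
    · intro i hi hi'
      rw [Finset.mem_range] at hi hi'
      rw [if_neg]
      rintro ⟨h7, h8⟩
      by_cases hc : i + 1 < n
      · exact hk4 (i + 1) (by omega) hc h8
      · exact hk4 i (by omega) hi h7
  rw [hsplit]
  obtain ⟨a, ha, haS⟩ := hS
  have hend := five_row htri ha g' (fun l hl => by rw [haS]; exact hk2 l (by omega))
    (fun l _ => hadj' l) (fun l hl m hm h => hinj' l (by omega) m (by omega) h)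
  have hb04 := abs_le.mp (hφ _ _ hend)
  have hb0 := abs_le.mp (hφ _ _ (hadj' 0))
  have hb1 := abs_le.mp (hφ _ _ (hadj' 1))
  have hb2 := abs_le.mp (hφ _ _ (hadj' 2))
  have hb3 := abs_le.mp (hφ _ _ (hadj' 3))
  rw [Finset.sum_range_succ, Finset.sum_range_succ, Finset.sum_range_succ, Finset.sum_range_one]
  simp only [Nat.zero_add, Nat.reduceAdd] at hb0 hb1 hb2 hb3 ⊢
  -- the sum differs from the deviation of the fifth edge by a half-integer
  have hint : ∃ z : ℤ, dev φ (g' 0) (g' 1) + dev φ (g' 1) (g' 2) + dev φ (g' 2) (g' 3)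
      + dev φ (g' 3) (g' 4) - dev φ (g' 0) (g' 4) = z + 1 / 2 := by
    refine ⟨-2 - round (φ (g' 0) - φ (g' 1) - 1 / 2) - round (φ (g' 1) - φ (g' 2) - 1 / 2)
      - round (φ (g' 2) - φ (g' 3) - 1 / 2) - round (φ (g' 3) - φ (g' 4) - 1 / 2)
      + round (φ (g' 0) - φ (g' 4) - 1 / 2), ?_⟩
    unfold dev
    push_cast
    ring
  obtain ⟨z, hz⟩ := hint
  have hz1 : (z : ℝ) + 1 / 2 ≤ 1 := by rw [← hz]; linarith
  have hz2 : z ≤ 0 := by
    by_contra hcon
    push Not at hcon
    have : (1 : ℝ) ≤ z := by exact_mod_cast hcon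
    linarith
  have hz3 : (z : ℝ) ≤ 0 := by exact_mod_cast hz2
  linarith


/-! ### Total variation -/

theorem tele (t : ℕ → ℤ) (a m : ℕ) :
    |t (a + m) - t a| ≤ ∑ i ∈ Finset.range m, |t (a + i + 1) - t (a + i)| := by
  induction m with
  | zero => simp
  | succ m ih =>
    rw [Finset.sum_range_succ]
    have h1 : t (a + (m + 1)) - t a = (t (a + m) - t a) + (t (a + m + 1) - t (a + m)) := by
      rw [← add_assoc]; ring
    rw [h1]
    refine (abs_add_le _ _).trans ?_
    linarith

theorem tv {n : ℕ} (t : ℕ → ℤ) (ht : ∀ i, t (i + n) = t i) {p q : ℕ} (hp : p < n) (hq : q < n)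
    {A : ℤ} (h0 : t p = 0) (h1 : t q = A) (hA : 0 ≤ A) :
    2 * A ≤ ∑ i ∈ Finset.range n, |t (i + 1) - t i| := by
  have hrot := sum_rotate n (fun i => |t (i + 1) - t i|) (fun i => by
    have e1 : t (i + n + 1) = t (i + 1) := by
      rw [← ht (i + 1)]; congr 1; omega
    simp only [ht, e1]) p
  rw [← hrot]
  obtain ⟨q', hq', hq2⟩ : ∃ q' ≤ n, t (p + q') = A := by
    by_cases h : p ≤ q
    · exact ⟨q - p, by omega, by rw [← h1]; congr 1; omega⟩
    · refine ⟨q + n - p, by omega, ?_⟩
      have : p + (q + n - p) = q + n := by omega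
      rw [this, ht, h1]
  have h2 := tele t p q'
  have h3 := tele t (p + q') (n - q')
  have h4 : p + q' + (n - q') = p + n := by omega
  rw [h4, ht, h0, hq2] at h3
  rw [h0, hq2] at h2
  have h5 : n = q' + (n - q') := by omega
  have h6 : ∑ i ∈ Finset.range n, |t (p + i + 1) - t (p + i)| =
      ∑ i ∈ Finset.range q', |t (p + i + 1) - t (p + i)| +
      ∑ i ∈ Finset.range (n - q'), |t (p + q' + i + 1) - t (p + q' + i)| := by
    conv_lhs => rw [h5]
    rw [Finset.sum_range_add]
    simp only [← add_assoc]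
  rw [h6]
  have h7 : |A - 0| = A := by rw [sub_zero, abs_of_nonneg hA]
  have h8 : |0 - A| = A := by rw [zero_sub, abs_neg, abs_of_nonneg hA]
  rw [h7] at h2
  rw [h8] at h3
  linarith

/-! ### Balls around the 5-cycles -/

/-- the distance to the set `S`, truncated at seven -/
def dS (G : SimpleGraph V) (S : Set V) (v : V) : ℕ :=
  sInf {k | k = 7 ∨ ∃ s ∈ S, ∃ p : G.Walk v s, p.length = k}

theorem dS_mem (S : Set V) (v : V) :
    dS G S v = 7 ∨ ∃ s ∈ S, ∃ p : G.Walk v s, p.length = dS G S v := by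
  have h : ({k | k = 7 ∨ ∃ s ∈ S, ∃ p : G.Walk v s, p.length = k} : Set ℕ).Nonempty :=
    ⟨7, Or.inl rfl⟩
  exact Nat.sInf_mem h

theorem dS_le_seven (S : Set V) (v : V) : dS G S v ≤ 7 := Nat.sInf_le (Or.inl rfl)

theorem dS_le_walk {S : Set V} {v s : V} (hs : s ∈ S) (p : G.Walk v s) :
    dS G S v ≤ p.length := Nat.sInf_le (Or.inr ⟨s, hs, p, rfl⟩)

theorem dS_zero {S : Set V} {v : V} (hv : v ∈ S) : dS G S v = 0 := by
  have := dS_le_walk hv (Walk.nil : G.Walk v v)
  simpa using this

theorem dS_lip {S : Set V} {u v : V} (huv : G.Adj u v) : dS G S u ≤ dS G S v + 1 := by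
  rcases dS_mem (G := G) S v with h | ⟨s, hs, p, hp⟩
  · have := dS_le_seven (G := G) S u
    omega
  · have := dS_le_walk hs (Walk.cons huv p)
    rw [Walk.length_cons] at this
    omega

/-- the standing assumptions: triangle-free, maximum degree three, 5-cycles at distance at least
13 -/
structure Far5 (G : SimpleGraph V) : Prop where
  tri : G.CliqueFree 3
  deg : ∀ v, (G.neighborSet v).ncard ≤ 3
  far : ∀ a b : Fin 5 → V, Cyc G 5 a → Cyc G 5 b → Set.range a ≠ Set.range b →
    ∀ i j, ∀ p : G.Walk (a i) (b j), 13 ≤ p.length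

theorem Far5.farS (H : Far5 G) {S S' : Set V} (hS : IsQ G S) (hS' : IsQ G S') (hne : S ≠ S')
    {s s' : V} (hs : s ∈ S) (hs' : s' ∈ S') (p : G.Walk s s') : 13 ≤ p.length := by
  obtain ⟨a, ha, rfl⟩ := hS
  obtain ⟨b, hb, rfl⟩ := hS'
  obtain ⟨i, rfl⟩ := hs
  obtain ⟨j, rfl⟩ := hs'
  exact H.far a b ha hb hne i j p

theorem Far5.ball (H : Far5 G) {S S' : Set V} (hS : IsQ G S) (hS' : IsQ G S') {v : V}
    (h : dS G S v ≤ 6) (h' : dS G S' v ≤ 6) : S = S' := by
  by_contra hne
  rcases dS_mem (G := G) S v with h1 | ⟨s, hs, p, hp⟩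
  · omega
  rcases dS_mem (G := G) S' v with h2 | ⟨s', hs', p', hp'⟩
  · omega
  have := H.farS hS hS' hne hs hs' (p.reverse.append p')
  rw [Walk.length_append, Walk.length_reverse] at this
  omega

theorem Far5.other (H : Far5 G) {S S' : Set V} (hS : IsQ G S) (hS' : IsQ G S') (hne : S ≠ S')
    {v : V} (hv : v ∈ S') : dS G S v = 7 := by
  have h1 := dS_le_seven (G := G) S v
  by_contra hcon
  exact hne (H.ball hS hS' (v := v) (by omega) (by rw [dS_zero hv]; omega))

/-- the number of vertices of the cycle near a 5-cycle -/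
theorem near_count {S : Set V} (n : ℕ) (g : ℕ → V)
    (hper : ∀ i, g (i + n) = g i) (hadj : ∀ i, G.Adj (g i) (g (i + 1)))
    (hin : ∃ i < n, g i ∈ S) (hout : ∃ i < n, dS G S (g i) = 7) :
    (∑ i ∈ Finset.range n, if g i ∈ S ∧ g (i + 1) ∈ S then 1 else 0) + 13 ≤
      ∑ i ∈ Finset.range n, if dS G S (g i) ≤ 6 then 1 else 0 := by
  set t : ℕ → ℤ := fun i => min (2 * (dS G S (g i) : ℤ)) 13 with ht
  obtain ⟨p, hp, hp2⟩ := hin
  obtain ⟨q, hq, hq2⟩ := hout
  have h1 := tv (n := n) t (fun i => by simp only [ht, hper]) hp hq (A := 13)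
    (by simp only [ht, dS_zero hp2]; norm_num) (by simp only [ht, hq2]; norm_num) (by norm_num)
  have h2 : ∀ i, 2 * (if g i ∈ S ∧ g (i + 1) ∈ S then 1 else 0 : ℤ) + |t (i + 1) - t i| ≤
      (if dS G S (g i) ≤ 6 then 1 else 0 : ℤ) + (if dS G S (g (i + 1)) ≤ 6 then 1 else 0 : ℤ) := by
    intro i
    have a1 := dS_lip (S := S) (hadj i)
    have a2 := dS_lip (S := S) (hadj i).symm
    have a3 := dS_le_seven (G := G) S (g i)
    have a4 := dS_le_seven (G := G) S (g (i + 1))
    have a5 : g i ∈ S → dS G S (g i) = 0 := fun h => dS_zero h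
    have a6 : g (i + 1) ∈ S → dS G S (g (i + 1)) = 0 := fun h => dS_zero h
    simp only [ht]
    generalize dS G S (g i) = x at *
    generalize dS G S (g (i + 1)) = y at *
    by_cases hb : g i ∈ S ∧ g (i + 1) ∈ S
    · rw [if_pos hb, a5 hb.1, a6 hb.2]
      norm_num
    · rw [if_neg hb]
      clear a5 a6
      rcases Nat.lt_trichotomy x y with h | h | h
      · have : y = x + 1 := by omega
        subst this
        have : x ≤ 6 := by omega
        interval_cases x <;> norm_num
      · subst h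
        simp
        split_ifs <;> norm_num
      · have : x = y + 1 := by omega
        subst this
        have : y ≤ 6 := by omega
        interval_cases y <;> norm_num
  have h3 := Finset.sum_le_sum fun i (_ : i ∈ Finset.range n) => h2 i
  rw [Finset.sum_add_distrib, Finset.sum_add_distrib, ← Finset.mul_sum] at h3
  have h4 : ∑ i ∈ Finset.range n, (if dS G S (g (i + 1)) ≤ 6 then 1 else 0 : ℕ) =
      ∑ i ∈ Finset.range n, (if dS G S (g i) ≤ 6 then 1 else 0 : ℕ) :=
    sum_shift n (fun i => if dS G S (g i) ≤ 6 then 1 else 0) (by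
      have := hper 0
      rw [Nat.zero_add] at this
      simp only [this])
  have h5 : ∑ i ∈ Finset.range n, (if dS G S (g (i + 1)) ≤ 6 then 1 else 0 : ℤ) =
      ∑ i ∈ Finset.range n, (if dS G S (g i) ≤ 6 then 1 else 0 : ℤ) := by
    exact_mod_cast h4
  rw [h5] at h3
  have h6 : ((∑ i ∈ Finset.range n, if g i ∈ S ∧ g (i + 1) ∈ S then 1 else 0 : ℕ) : ℤ) =
      ∑ i ∈ Finset.range n, (if g i ∈ S ∧ g (i + 1) ∈ S then 1 else 0 : ℤ) := by
    push_cast; rfl
  have h7 : ((∑ i ∈ Finset.range n, if dS G S (g i) ≤ 6 then 1 else 0 : ℕ) : ℤ) =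
      ∑ i ∈ Finset.range n, (if dS G S (g i) ≤ 6 then 1 else 0 : ℤ) := by
    push_cast; rfl
  omega

end

end Pool.Agent.Helper520
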