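import Pool.Agent.Helper520_wt.Far

set_option autoImplicit false
set_option linter.unusedSectionVars false

/-!
Planar graphs of maximum degree three whose cycles of length five are far apart: the deviation of
a cycle.
-/

namespace Pool.Agent.Helper520

open SimpleGraph Pool.Agent.H239R2.Planar
open Pool.Agent.R50.OddCycle (Closed)

noncomputable section

open Classical

variable {V : Type} {G : SimpleGraph V}

theorem e5_of_mem (H : Far5 G) {S : Set V} (hS : IsQ G S) {u v : V} (hu : u ∈ S) (hv : v ∈ S)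
    (huv : G.Adj u v) : E5 G s(u, v) := by
  obtain ⟨a, ha, rfl⟩ := hS
  obtain ⟨i, rfl⟩ := hu
  obtain ⟨j, rfl⟩ := hv
  rcases chordless H.tri ha huv with h | h
  · exact ⟨a, ha, i, by rw [h]⟩
  · exact ⟨a, ha, j, by rw [h]; exact Sym2.eq_swap⟩

theorem mem_of_e5 {u v : V} (h : E5 G s(u, v)) : ∃ S : Set V, IsQ G S ∧ u ∈ S ∧ v ∈ S := by
  obtain ⟨a, ha, i, hi⟩ := h
  refine ⟨Set.range a, ⟨a, ha, rfl⟩, ?_⟩
  rw [Sym2.eq_iff] at hi
  rcases hi with ⟨h1, h2⟩ | ⟨h1, h2⟩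
  · exact ⟨⟨i, h1.symm⟩, ⟨i + 1, h2.symm⟩⟩
  · exact ⟨⟨i + 1, h1.symm⟩, ⟨i, h2.symm⟩⟩

theorem on5_iff {v : V} : On5 G v ↔ ∃ S : Set V, IsQ G S ∧ v ∈ S := by
  constructor
  · rintro ⟨a, ha, i, rfl⟩
    exact ⟨Set.range a, ⟨a, ha, rfl⟩, i, rfl⟩
  · rintro ⟨S, ⟨a, ha, rfl⟩, i, rfl⟩
    exact ⟨a, ha, i, rfl⟩

theorem Far5.disj (H : Far5 G) {S S' : Set V} (hS : IsQ G S) (hS' : IsQ G S') (hne : S ≠ S')
    {v : V} (hv : v ∈ S) : v ∉ S' := by
  intro hv'
  have := H.farS hS hS' hne hv hv' (Walk.nil)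
  simp at this

theorem Far5.nonadj (H : Far5 G) {S S' : Set V} (hS : IsQ G S) (hS' : IsQ G S') (hne : S ≠ S')
    {u v : V} (hu : u ∈ S) (hv : v ∈ S') : ¬ G.Adj u v := by
  intro h
  have := H.farS hS hS' hne hu hv (Walk.cons h Walk.nil)
  simp at this

/-- the bounds for the deviations -/
structure GoodDev (G : SimpleGraph V) (φ : V → ℝ) (ε : ℝ) : Prop where
  eps : 0 ≤ ε
  five : ∀ u v, G.Adj u v → |dev φ u v| ≤ 1 / 5
  spoke : ∀ u v, G.Adj u v → ¬ E5 G s(u, v) → (On5 G u ∨ On5 G v) → |dev φ u v| ≤ 4 / 35 + ε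
  other : ∀ u v, G.Adj u v → ¬ On5 G u → ¬ On5 G v → |dev φ u v| ≤ 1 / 7

/-- the contribution of a 5-cycle -/
def cS (φ : V → ℝ) (g : ℕ → V) (S : Set V) (i : ℕ) : ℝ :=
  if g i ∈ S ∧ g (i + 1) ∈ S then dev φ (g i) (g (i + 1)) - 1 / 7
  else if g i ∈ S ∨ g (i + 1) ∈ S then -1 / 35 else 0

theorem cS_zero (φ : V → ℝ) (g : ℕ → V) {S : Set V} {i : ℕ} (h1 : g i ∉ S) (h2 : g (i + 1) ∉ S) :
    cS φ g S i = 0 := by
  unfold cS
  rw [if_neg (fun h => h1 h.1), if_neg (fun h => h.elim h1 h2)]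

theorem edge_bound [Fintype V] (H : Far5 G) {φ : V → ℝ} {ε : ℝ} (hφ : GoodDev G φ ε)
    {g : ℕ → V} (hadj : ∀ i, G.Adj (g i) (g (i + 1))) (Q : Finset (Set V))
    (hQ1 : ∀ S ∈ Q, IsQ G S) {i : ℕ}
    (hQ2 : ∀ S, IsQ G S → (g i ∈ S ∨ g (i + 1) ∈ S) → S ∈ Q) :
    dev φ (g i) (g (i + 1)) ≤ 1 / 7 + ε + ∑ S ∈ Q, cS φ g S i := by
  have heps := hφ.eps
  by_cases h1 : E5 G s(g i, g (i + 1))
  · obtain ⟨S, hS, hu, hv⟩ := mem_of_e5 h1
    rw [Finset.sum_eq_single_of_mem S (hQ2 S hS (Or.inl hu)) (fun S' hS' hne =>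
      cS_zero φ g (H.disj hS (hQ1 S' hS') hne.symm hu) (H.disj hS (hQ1 S' hS') hne.symm hv))]
    unfold cS
    rw [if_pos ⟨hu, hv⟩]
    linarith
  by_cases h2 : On5 G (g i)
  · obtain ⟨S, hS, hu⟩ := on5_iff.mp h2
    have hv : g (i + 1) ∉ S := fun hv => h1 (e5_of_mem H hS hu hv (hadj i))
    rw [Finset.sum_eq_single_of_mem S (hQ2 S hS (Or.inl hu)) (fun S' hS' hne =>
      cS_zero φ g (H.disj hS (hQ1 S' hS') hne.symm hu)
        (fun h => H.nonadj hS (hQ1 S' hS') hne.symm hu h (hadj i)))]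
    unfold cS
    rw [if_neg (fun h => hv h.2), if_pos (Or.inl hu)]
    have := (abs_le.mp (hφ.spoke _ _ (hadj i) h1 (Or.inl h2))).2
    linarith
  by_cases h3 : On5 G (g (i + 1))
  · obtain ⟨S, hS, hv⟩ := on5_iff.mp h3
    have hu : g i ∉ S := fun hu => h1 (e5_of_mem H hS hu hv (hadj i))
    rw [Finset.sum_eq_single_of_mem S (hQ2 S hS (Or.inr hv)) (fun S' hS' hne =>
      cS_zero φ g (fun h => H.nonadj (hQ1 S' hS') hS hne h hv (hadj i))
        (H.disj hS (hQ1 S' hS') hne.symm hv))]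
    unfold cS
    rw [if_neg (fun h => hu h.1), if_pos (Or.inr hv)]
    have := (abs_le.mp (hφ.spoke _ _ (hadj i) h1 (Or.inr h3))).2
    linarith
  · rw [Finset.sum_eq_zero (fun S hS => cS_zero φ g
      (fun h => h2 (on5_iff.mpr ⟨S, hQ1 S hS, h⟩)) (fun h => h3 (on5_iff.mpr ⟨S, hQ1 S hS, h⟩)))]
    have := (abs_le.mp (hφ.other _ _ (hadj i) h2 h3)).2
    linarith

/-- the total contribution of a 5-cycle -/
theorem set_bound (H : Far5 G) {φ : V → ℝ} {ε : ℝ} (hφ : GoodDev G φ ε) {S : Set V}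
    (hS : IsQ G S) (n : ℕ) (hn : 6 ≤ n)
    (g : ℕ → V) (hper : ∀ i, g (i + n) = g i) (hadj : ∀ i, G.Adj (g i) (g (i + 1)))
    (hinj : ∀ i j, g i = g j → i % n = j % n) (hmeet : ∃ i < n, g i ∈ S) :
    ∃ C : ℤ, ∑ i ∈ Finset.range n, cS φ g S i ≤ C / 70 ∧ C ≤ 8 ∧
      2 * C ≤ (∑ i ∈ Finset.range n, if g i ∈ S ∧ g (i + 1) ∈ S then 1 else 0 : ℕ) + 13 := by
  obtain ⟨v1, v2, v3, v4⟩ := visits hS n hn g hper hinj hmeet
  have h1 : ∑ i ∈ Finset.range n, cS φ g S i =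
      ∑ i ∈ Finset.range n, (if g i ∈ S ∧ g (i + 1) ∈ S then dev φ (g i) (g (i + 1)) else 0)
      - 1 / 7 * ((∑ i ∈ Finset.range n, if g i ∈ S ∧ g (i + 1) ∈ S then 1 else 0 : ℕ) : ℝ)
      - 1 / 35 * (((∑ i ∈ Finset.range n, if g i ∈ S ∧ g (i + 1) ∉ S then 1 else 0 : ℕ) : ℝ)
        + ((∑ i ∈ Finset.range n, if g i ∉ S ∧ g (i + 1) ∈ S then 1 else 0 : ℕ) : ℝ)) := by
    push_cast
    rw [← Finset.sum_add_distrib, Finset.mul_sum, Finset.mul_sum, ← Finset.sum_sub_distrib,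
      ← Finset.sum_sub_distrib]
    refine Finset.sum_congr rfl fun i _ => ?_
    unfold cS
    by_cases ha : g i ∈ S <;> by_cases hb : g (i + 1) ∈ S <;> simp [ha, hb] <;> ring
  have h2 : ∑ i ∈ Finset.range n, (if g i ∈ S ∧ g (i + 1) ∈ S then dev φ (g i) (g (i + 1)) else 0)
      ≤ 1 / 5 * ((∑ i ∈ Finset.range n, if g i ∈ S ∧ g (i + 1) ∈ S then 1 else 0 : ℕ) : ℝ) := by
    push_cast
    rw [Finset.mul_sum]
    refine Finset.sum_le_sum fun i _ => ?_
    have := (abs_le.mp (hφ.five _ _ (hadj i))).2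
    split_ifs <;> simp <;> linarith
  have h3 := four_edges H.tri φ hφ.five hS n hn g hper hadj hinj
  generalize (∑ i ∈ Finset.range n, if g i ∈ S ∧ g (i + 1) ∈ S then 1 else 0 : ℕ) = M at *
  generalize (∑ i ∈ Finset.range n, if g i ∈ S ∧ g (i + 1) ∉ S then 1 else 0 : ℕ) = X at *
  generalize (∑ i ∈ Finset.range n, if g i ∉ S ∧ g (i + 1) ∈ S then 1 else 0 : ℕ) = Y at *
  subst v3
  rw [h1]
  by_cases hM : M = 4
  · have hX : Y = 1 := by omega
    subst hM hX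
    have h4 := h3 rfl
    refine ⟨5, ?_, by norm_num, by norm_num⟩
    push_cast
    linarith
  · have hM3 : M ≤ 3 := by omega
    refine ⟨4 * M - 4 * Y, ?_, by omega, by omega⟩
    push_cast
    linarith

/-- The deviation of every cycle is at most `3/20` times its length. -/
theorem cycle_bound [Fintype V] (H : Far5 G) {φ : V → ℝ} {ε : ℝ} (hφ : GoodDev G φ ε)
    (hε : 70 * (Fintype.card V : ℝ) * ε < 1) (n : ℕ) (f : ℕ → V) (hn : 3 ≤ n)
    (hf : Closed G n f) (hinj : ∀ i < n, ∀ j < n, f i = f j → i = j) :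
    ∑ i ∈ Finset.range n, dev φ (f i) (f (i + 1)) ≤ 3 / 20 * n := by
  obtain ⟨k, hk⟩ := dev_sum φ n f hf.1
  have hnV : n ≤ Fintype.card V := by
    have := Fintype.card_le_of_injective (fun i : Fin n => f i.1)
      (fun i j h => Fin.ext (hinj _ i.2 _ j.2 h))
    simpa using this
  have heps := hφ.eps
  have hnε : 70 * (n : ℝ) * ε < 1 := by
    have h1 : (n : ℝ) ≤ Fintype.card V := by exact_mod_cast hnV
    have h2 : (n : ℝ) * ε ≤ Fintype.card V * ε := mul_le_mul_of_nonneg_right h1 heps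
    linarith
  -- short cycles
  have hsmall : n ≤ 5 → ∑ i ∈ Finset.range n, dev φ (f i) (f (i + 1)) ≤ 3 / 20 * n := by
    intro h5
    have h1 : ∑ i ∈ Finset.range n, dev φ (f i) (f (i + 1)) ≤ n * (1 / 5) := by
      have h2 : ∀ i ∈ Finset.range n, dev φ (f i) (f (i + 1)) ≤ 1 / 5 := fun i hi =>
        (abs_le.mp (hφ.five _ _ (hf.2 i (Finset.mem_range.mp hi)))).2
      have h3 := Finset.sum_le_card_nsmul _ _ _ h2
      rw [Finset.card_range, nsmul_eq_mul] at h3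
      exact h3
    have h3 : n ≠ 3 := by
      rintro rfl
      have h1 := hf.2 0 (by norm_num)
      have h2 := hf.2 1 (by norm_num)
      have h4 := hf.2 2 (by norm_num)
      have h5 : f (2 + 1) = f 0 := hf.1.symm
      rw [h5] at h4
      exact no_tri H.tri h1 h2 h4.symm
    rw [hk] at h1 ⊢
    have hn45 : n = 4 ∨ n = 5 := by omega
    rcases hn45 with rfl | rfl
    · have h6 : (-3 : ℝ) < k := by push_cast at h1; linarith
      have h7 : -3 < k := by exact_mod_cast h6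
      have h8 : (-2 : ℝ) ≤ k := by
        have : -2 ≤ k := by omega
        exact_mod_cast this
      push_cast
      linarith
    · have h6 : (-4 : ℝ) < k := by push_cast at h1; linarith
      have h7 : -4 < k := by exact_mod_cast h6
      have h8 : (-3 : ℝ) ≤ k := by
        have : -3 ≤ k := by omega
        exact_mod_cast this
      push_cast
      linarith
  by_cases hn6 : n ≤ 5
  · exact hsmall hn6
  push Not at hn6
  obtain ⟨g, hper, hg1, hg2, hadj, hinj'⟩ := exists_periodic hn hf hinj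
  have hsum : ∑ i ∈ Finset.range n, dev φ (f i) (f (i + 1)) =
      ∑ i ∈ Finset.range n, dev φ (g i) (g (i + 1)) := by
    refine Finset.sum_congr rfl fun i hi => ?_
    rw [Finset.mem_range] at hi
    rw [hg1 i hi, hg2 i hi]
  rw [hsum] at hk ⊢
  set Q : Finset (Set V) := (Finset.univ : Finset (Set V)).filter
    (fun S => IsQ G S ∧ ∃ i < n, g i ∈ S) with hQ
  have hQ1 : ∀ S ∈ Q, IsQ G S := fun S hS => (Finset.mem_filter.mp hS).2.1
  have hQ3 : ∀ S ∈ Q, ∃ i < n, g i ∈ S := fun S hS => (Finset.mem_filter.mp hS).2.2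
  have hQ2 : ∀ i < n, ∀ S, IsQ G S → (g i ∈ S ∨ g (i + 1) ∈ S) → S ∈ Q := by
    intro i hi S hS h
    rw [hQ, Finset.mem_filter]
    refine ⟨Finset.mem_univ _, hS, ?_⟩
    rcases h with h | h
    · exact ⟨i, hi, h⟩
    · by_cases hin : i + 1 < n
      · exact ⟨i + 1, hin, h⟩
      · refine ⟨0, by omega, ?_⟩
        have h1 : i + 1 = 0 + n := by omega
        rw [h1, hper] at h
        exact h
  have hmain : ∑ i ∈ Finset.range n, dev φ (g i) (g (i + 1)) ≤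
      n * (1 / 7 + ε) + ∑ S ∈ Q, ∑ i ∈ Finset.range n, cS φ g S i := by
    rw [Finset.sum_comm]
    have h1 : (n : ℝ) * (1 / 7 + ε) = ∑ i ∈ Finset.range n, (1 / 7 + ε) := by
      rw [Finset.sum_const, Finset.card_range, nsmul_eq_mul]
    rw [h1, ← Finset.sum_add_distrib]
    exact Finset.sum_le_sum fun i hi => edge_bound H hφ hadj Q hQ1
      (hQ2 i (Finset.mem_range.mp hi))
  have hset : ∀ S ∈ Q, ∃ C : ℤ, ∑ i ∈ Finset.range n, cS φ g S i ≤ C / 70 ∧ C ≤ 8 ∧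
      2 * C ≤ (∑ i ∈ Finset.range n, if g i ∈ S ∧ g (i + 1) ∈ S then 1 else 0 : ℕ) + 13 :=
    fun S hS => set_bound H hφ (hQ1 S hS) n hn6 g hper hadj hinj' (hQ3 S hS)
  by_cases hcard : Q.card ≤ 1
  · -- at most one 5-cycle is met
    have h1 : ∑ S ∈ Q, ∑ i ∈ Finset.range n, cS φ g S i ≤ 8 / 70 := by
      have h2 : ∀ S ∈ Q, ∑ i ∈ Finset.range n, cS φ g S i ≤ 8 / 70 := by
        intro S hS
        obtain ⟨C, hC1, hC2, -⟩ := hset S hS
        have : (C : ℝ) ≤ 8 := by exact_mod_cast hC2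
        linarith
      have h3 := Finset.sum_le_card_nsmul _ _ _ h2
      rw [nsmul_eq_mul] at h3
      have h4 : (Q.card : ℝ) ≤ 1 := by exact_mod_cast hcard
      nlinarith
    have h2 : (35 : ℝ) * (-n - 2 * k) < 10 * n + 9 := by
      rw [hk] at hmain
      nlinarith
    have h3 : 35 * (-(n : ℤ) - 2 * k) < 10 * n + 9 := by exact_mod_cast h2
    have h4 : 10 * (-(n : ℤ) - 2 * k) ≤ 3 * n := by omega
    have h5 : (10 : ℝ) * (-n - 2 * k) ≤ 3 * n := by exact_mod_cast h4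
    rw [hk]
    linarith
  · -- at least two 5-cycles are met
    push Not at hcard
    have h1 : ∀ S ∈ Q, ∑ i ∈ Finset.range n, cS φ g S i ≤
        ((∑ i ∈ Finset.range n, if dS G S (g i) ≤ 6 then 1 else 0 : ℕ) : ℝ) / 140 := by
      intro S hS
      obtain ⟨C, hC1, -, hC3⟩ := hset S hS
      obtain ⟨S', hS', hne⟩ := Finset.exists_mem_ne hcard S
      obtain ⟨l, hl, hl2⟩ := hQ3 S' hS'
      have h2 := near_count n g hper hadj (hQ3 S hS)
        ⟨l, hl, H.other (hQ1 S hS) (hQ1 S' hS') hne.symm hl2⟩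
      have h3 : 2 * C ≤ ((∑ i ∈ Finset.range n, if dS G S (g i) ≤ 6 then 1 else 0 : ℕ) : ℤ) := by
        omega
      have h4 : 2 * (C : ℝ) ≤
          ((∑ i ∈ Finset.range n, if dS G S (g i) ≤ 6 then 1 else 0 : ℕ) : ℝ) := by
        exact_mod_cast h3
      linarith
    have h2 : ∑ S ∈ Q, ∑ i ∈ Finset.range n, (if dS G S (g i) ≤ 6 then 1 else 0 : ℕ) ≤ n := by
      rw [Finset.sum_comm]
      have h3 : ∀ i ∈ Finset.range n, ∑ S ∈ Q, (if dS G S (g i) ≤ 6 then 1 else 0 : ℕ) ≤ 1 := by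
        intro i _
        rw [← Finset.card_filter, Finset.card_le_one]
        intro S hS S' hS'
        rw [Finset.mem_filter] at hS hS'
        exact H.ball (hQ1 S hS.1) (hQ1 S' hS'.1) hS.2 hS'.2
      have h4 := Finset.sum_le_card_nsmul _ _ _ h3
      simpa using h4
    have h3 : ∑ S ∈ Q, ∑ i ∈ Finset.range n, cS φ g S i ≤ n / 140 := by
      refine (Finset.sum_le_sum h1).trans ?_
      rw [← Finset.sum_div]
      have h5 : ((∑ S ∈ Q, ∑ i ∈ Finset.range n, (if dS G S (g i) ≤ 6 then 1 else 0 : ℕ) : ℕ) : ℝ)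
          ≤ n := by exact_mod_cast h2
      push_cast at h5 ⊢
      linarith
    have h4 : (10 : ℝ) * (-n - 2 * k) < 3 * n + 1 := by
      rw [hk] at hmain
      nlinarith
    have h5 : 10 * (-(n : ℤ) - 2 * k) < 3 * n + 1 := by exact_mod_cast h4
    have h6 : 10 * (-(n : ℤ) - 2 * k) ≤ 3 * n := by omega
    have h7 : (10 : ℝ) * (-n - 2 * k) ≤ 3 * n := by exact_mod_cast h6
    rw [hk]
    linarith

end

end Pool.Agent.Helper520
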