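import Pool.Agent.Helper520_wt.Far2

set_option autoImplicit false
set_option linter.unusedSectionVars false

/-!
Planar graphs of maximum degree three whose cycles of length five are far apart: the weights and
the main theorem.
-/

namespace Pool.Agent.Helper520

open SimpleGraph Pool.Agent.H239R2.Planar
open Pool.Agent.R50.OddCycle (Closed)

noncomputable section

open Classical

variable {V : Type} {G : SimpleGraph V}

theorem count7 (n : ℕ) (A P : ℕ → Prop)
    (hA : ∀ i, A i → P i ∧ P (i + 1)) (hP : ∀ i, P (i + 1) → A i ∨ A (i + 1))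
    (perA : A n ↔ A 0) (perP : P n ↔ P 0) :
    5 * n ≤ ∑ i ∈ Finset.range n, (if A i then 7 else if P i ∨ P (i + 1) then 4 else 5) := by
  set iA : ℕ → ℕ := fun i => if A i then 1 else 0 with hiA
  set q : ℕ → ℕ := fun i => if P i ∧ ¬ A i then 1 else 0 with hq
  set q' : ℕ → ℕ := fun i => if P (i + 1) ∧ ¬ A i then 1 else 0 with hq'
  have e3 : ∀ i, q' i + q (i + 1) ≤ iA i + iA (i + 1) := by
    intro i
    have h1 := hA i
    have h2 := hA (i + 1)
    have h3 := hP i
    simp only [hiA, hq, hq']
    by_cases a : A i <;> by_cases b : A (i + 1) <;> by_cases c : P (i + 1) <;> simp_all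
  have e5 : ∀ i, 5 + 2 * iA i ≤ (if A i then 7 else if P i ∨ P (i + 1) then 4 else 5)
      + (q i + q' i) := by
    intro i
    have := hA i
    simp only [hiA, hq, hq']
    by_cases a : A i <;> by_cases b : P i <;> by_cases c : P (i + 1) <;> simp_all
  have sA : ∑ i ∈ Finset.range n, iA (i + 1) = ∑ i ∈ Finset.range n, iA i :=
    sum_shift n iA (by simp only [hiA, perA])
  have sq : ∑ i ∈ Finset.range n, q (i + 1) = ∑ i ∈ Finset.range n, q i :=
    sum_shift n q (by simp only [hq, perA, perP])
  have h1 := Finset.sum_le_sum fun i (_ : i ∈ Finset.range n) => e3 i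
  rw [Finset.sum_add_distrib, Finset.sum_add_distrib, sA, sq] at h1
  have h2 := Finset.sum_le_sum fun i (_ : i ∈ Finset.range n) => e5 i
  rw [Finset.sum_add_distrib, Finset.sum_add_distrib, Finset.sum_add_distrib, ← Finset.mul_sum,
    Finset.sum_const, Finset.card_range, smul_eq_mul] at h2
  omega

/-- at a vertex of a cycle of length five at most one edge is not on a cycle of length five -/
theorem one_spoke' [Finite V] (hdeg : ∀ v, (G.neighborSet v).ncard ≤ 3) {v x y : V}
    (hv : On5 G v) (hx : G.Adj v x)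
    (hy : G.Adj v y) (hxy : x ≠ y) (h1 : ¬ E5 G s(v, x)) (h2 : ¬ E5 G s(v, y)) : False := by
  obtain ⟨a, ha, i, rfl⟩ := hv
  have hp : G.Adj (a i) (a (i - 1)) := by
    have := ha.2 (i - 1)
    rw [sub_add_cancel] at this
    exact this.symm
  have hq : G.Adj (a i) (a (i + 1)) := ha.2 i
  have e1 : E5 G s(a i, a (i + 1)) := ⟨a, ha, i, rfl⟩
  have e2 : E5 G s(a i, a (i - 1)) := ⟨a, ha, i - 1, by rw [sub_add_cancel]; exact Sym2.eq_swap⟩
  have hne : a (i + 1) ≠ a (i - 1) := by
    intro h
    have h3 := ha.1 h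
    revert h3
    clear e1 e2 hp hq h1 h2 hx hy h
    revert i
    decide
  have hx1 : x ≠ a (i + 1) := fun h => h1 (h ▸ e1)
  have hx2 : x ≠ a (i - 1) := fun h => h1 (h ▸ e2)
  have hy1 : y ≠ a (i + 1) := fun h => h2 (h ▸ e1)
  have hy2 : y ≠ a (i - 1) := fun h => h2 (h ▸ e2)
  have hsub : ({x, y, a (i + 1), a (i - 1)} : Set V) ⊆ G.neighborSet (a i) := by
    intro z hz
    simp only [Set.mem_insert_iff, Set.mem_singleton_iff] at hz
    rw [mem_neighborSet]
    rcases hz with rfl | rfl | rfl | rfl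
    · exact hx
    · exact hy
    · exact hq
    · exact hp
  have hcard := Set.ncard_le_ncard hsub (Set.toFinite _)
  have h4 : ({x, y, a (i + 1), a (i - 1)} : Set V).ncard = 4 := by
    rw [Set.ncard_insert_of_notMem (by simp [hxy, hx1, hx2]),
      Set.ncard_insert_of_notMem (by simp [hy1, hy2]),
      Set.ncard_pair hne]
  have := hdeg (a i)
  omega

/-- the weight of an edge -/
def wt7 (G : SimpleGraph V) (j : ℕ) (e : Sym2 V) : ℕ :=
  if E5 G e then 7 * j else if ∃ x ∈ e, On5 G x then 4 * j + 1 else 5 * j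

theorem wt7_odd (j : ℕ) (hj : Odd j) (e : Sym2 V) : Odd (wt7 G j e) := by
  unfold wt7
  split_ifs
  · exact (by decide : Odd 7).mul hj
  · exact ⟨2 * j, by ring⟩
  · exact (by decide : Odd 5).mul hj

theorem wt7_mk (j : ℕ) (u v : V) : wt7 G j s(u, v) =
    if E5 G s(u, v) then 7 * j else if On5 G u ∨ On5 G v then 4 * j + 1 else 5 * j := by
  unfold wt7
  simp [Sym2.mem_iff]

/-- every odd cycle has weight at least `35 j` -/
theorem wt7_cycle [Finite V] (H : Far5 G) (j n : ℕ) (f : ℕ → V) (hn : Odd n) (hn3 : 3 ≤ n)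
    (hf : Closed G n f) (hinj : ∀ i < n, ∀ j < n, f i = f j → i = j) :
    35 * j ≤ ∑ i ∈ Finset.range n, wt7 G j s(f i, f (i + 1)) := by
  -- length three
  by_cases h3 : n = 3
  · exfalso
    subst h3
    have h1 := hf.2 0 (by norm_num)
    have h2 := hf.2 1 (by norm_num)
    have h4 := hf.2 2 (by norm_num)
    have h5 : f (2 + 1) = f 0 := hf.1.symm
    rw [h5] at h4
    exact no_tri H.tri h1 h2 h4.symm
  by_cases h5 : n = 5
  · subst h5
    have hc : Cyc G 5 (fun i => f i.1) := cyc_of_closed hf hinj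
    have h1 : ∀ i ∈ Finset.range 5, wt7 G j s(f i, f (i + 1)) = 7 * j := by
      intro i hi
      rw [Finset.mem_range] at hi
      unfold wt7
      rw [if_pos]
      refine ⟨_, hc, ⟨i, hi⟩, ?_⟩
      by_cases hi4 : i = 4
      · subst hi4
        have : f (4 + 1) = f 0 := hf.1.symm
        rw [this]
        rfl
      · have h2 : ((⟨i, hi⟩ + 1 : Fin 5)).1 = i + 1 := by
          have : i < 4 := by omega
          interval_cases i <;> rfl
        show s(f i, f (i + 1)) = s(f i, f (⟨i, hi⟩ + 1 : Fin 5).1)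
        rw [h2]
    rw [Finset.sum_congr rfl h1]
    simp
    omega
  have h7 : 7 ≤ n := by
    obtain ⟨k, hk⟩ := hn
    omega
  obtain ⟨g, hper, hg1, hg2, hadj, hinj'⟩ := exists_periodic hn3 hf hinj
  have hne : ∀ i, g i ≠ g (i + 2) := by
    intro i h
    have h2 : i ≡ i + 2 [MOD n] := hinj' _ _ h
    have h3 := (Nat.modEq_iff_dvd' (by omega)).mp h2
    rw [Nat.add_sub_cancel_left] at h3
    have := Nat.le_of_dvd (by norm_num) h3
    omega
  have hgn : g n = g 0 := by
    have := hper 0
    rwa [Nat.zero_add] at this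
  have hgn1 : g (n + 1) = g (0 + 1) := by
    have := hper 1
    rwa [Nat.add_comm 1 n] at this
  have key := count7 n (fun i => E5 G s(g i, g (i + 1))) (fun i => On5 G (g i))
    (fun i h => E5.on5 h)
    (fun i hi => by
      by_contra hcon
      push Not at hcon
      refine one_spoke' H.deg hi (hadj i).symm (hadj (i + 1)) (hne i) ?_ hcon.2
      rw [Sym2.eq_swap]
      exact hcon.1)
    (by rw [hgn, hgn1])
    (by rw [hgn])
  have h35 : 35 * j ≤ 5 * n * j := Nat.mul_le_mul_right j (by omega)
  refine h35.trans ((Nat.mul_le_mul_right j key).trans ?_)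
  rw [Finset.sum_mul]
  apply Finset.sum_le_sum
  intro i hi
  rw [Finset.mem_range] at hi
  rw [wt7_mk, hg1 i hi, hg2 i hi]
  split_ifs <;> omega

/-- Planar graphs of maximum degree three whose 5-cycles are pairwise at distance at least 13 have
circular chromatic number at most `20/7`. -/
theorem far5_main [Fintype V] (hpl : IsPlanar G) (H : Far5 G) :
    ∃ c : V → ZMod 20, ∀ u v, G.Adj u v → 7 ≤ (c u - c v).val ∧ (c u - c v).val ≤ 13 := by
  set j : ℕ := 2 * Fintype.card V + 1 with hj
  have hjodd : Odd j := ⟨Fintype.card V, by omega⟩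
  have hj1 : (0 : ℝ) < j := by positivity
  obtain ⟨N, φ, hN, hφ⟩ := weighted G hpl (wt7 G j) (fun e _ => wt7_odd j hjodd e) (35 * j)
    ((by decide : Odd 35).mul hjodd) (by omega)
    (fun n f hn hn3 hf hinj => wt7_cycle H j n f hn hn3 hf hinj)
  have hN1 : (0 : ℝ) < N := by exact_mod_cast hN
  set κ : ℝ := (N : ℝ) / (((35 * j : ℕ) : ℝ) * N + 1) with hκ
  have hκ0 : 0 ≤ κ := by positivity
  have hκ1 : j * κ ≤ 1 / 35 := by
    have h1 : κ * (((35 * j : ℕ) : ℝ) * N + 1) = N := by
      rw [hκ]; field_simp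
    push_cast at h1
    have h2 : (35 * j * κ - 1) * N ≤ 0 := by nlinarith
    nlinarith
  have hκ2 : κ ≤ 1 / (35 * j) := by
    rw [le_div_iff₀ (by positivity)]
    nlinarith
  have hdev : ∀ u v, G.Adj u v → |dev φ u v| ≤ wt7 G j s(u, v) * κ := fun u v huv =>
    dev_le φ u v (hφ u v huv)
  have hj2 : (1 : ℝ) ≤ j := by
    have : 1 ≤ j := by omega
    exact_mod_cast this
  have hgood : GoodDev G φ (1 / (35 * j)) := by
    refine ⟨by positivity, fun u v huv => ?_, fun u v huv h1 h2 => ?_, fun u v huv h1 h2 => ?_⟩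
    · refine (hdev u v huv).trans ?_
      have h1 : (wt7 G j s(u, v) : ℝ) ≤ 7 * j := by
        have : wt7 G j s(u, v) ≤ 7 * j := by
          rw [wt7_mk]
          split_ifs <;> omega
        exact_mod_cast this
      have h2 := mul_le_mul_of_nonneg_right h1 hκ0
      linarith
    · refine (hdev u v huv).trans ?_
      rw [wt7_mk, if_neg h1, if_pos h2]
      push_cast
      linarith
    · refine (hdev u v huv).trans ?_
      rw [wt7_mk, if_neg (fun h => h1 h.on5.1), if_neg (fun h => h.elim h1 h2)]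
      push_cast
      linarith
  refine color_of_cycles φ (fun u v huv => ?_) (fun n f hn hf hinj => ?_)
  · have := hgood.five u v huv
    linarith
  · refine cycle_bound H hgood ?_ n f hn hf hinj
    have h1 : (j : ℝ) = 2 * Fintype.card V + 1 := by rw [hj]; push_cast; ring
    rw [mul_one_div, div_lt_one (by positivity), h1]
    linarith

end

end Pool.Agent.Helper520
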