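import Pool.Agent.Helper520_wt.Isolated

set_option autoImplicit false
set_option linter.unusedSectionVars false

/-!
General versions of the rounding, the limit argument and the local repair.
-/

namespace Pool.Agent.Helper520

open SimpleGraph Pool.Agent.H239R2.Planar
open Pool.Agent.R50.OddCycle (Closed)

noncomputable section

open Classical

variable {V : Type} {G : SimpleGraph V}

/-- rounding to a `(K, D)`-colouring -/
theorem toK (K D : ℕ) (hD : 0 < D) (hK : 2 * D ≤ K) (φ : V → ℝ)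
    (h : ∀ u v, G.Adj u v → ∃ k : ℤ, |φ u - φ v - 1 / 2 - k| ≤ 1 / 2 - (D : ℝ) / K) :
    ∃ c : V → ZMod K, ∀ u v, G.Adj u v → D ≤ (c u - c v).val ∧ (c u - c v).val ≤ K - D := by
  have hK0 : (0 : ℝ) < K := by
    have : 0 < K := by omega
    exact_mod_cast this
  refine ⟨fun v => ((⌊K * φ v⌋ : ℤ) : ZMod K), fun u v huv => ?_⟩
  obtain ⟨k, hk⟩ := h u v huv
  have hk' : |K * φ u - K * φ v - K / 2 - K * k| ≤ K / 2 - D := by
    have h1 : K * φ u - K * φ v - K / 2 - K * k = K * (φ u - φ v - 1 / 2 - k) := by ring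
    rw [h1, abs_mul, abs_of_pos hK0]
    have h2 := mul_le_mul_of_nonneg_left hk hK0.le
    have h3 : (K : ℝ) * (1 / 2 - D / K) = K / 2 - D := by field_simp
    linarith
  rw [abs_le] at hk'
  have h1 : (D : ℤ) + K * k ≤ ⌊K * φ u⌋ - ⌊K * φ v⌋ := by
    have h2 : ⌊K * φ v⌋ + (D + K * k) ≤ ⌊K * φ u⌋ := by
      rw [Int.le_floor]
      push_cast
      have := Int.floor_le (K * φ v)
      linarith
    linarith
  have h2 : ⌊K * φ u⌋ - ⌊K * φ v⌋ ≤ (K - D) + K * k := by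
    have h2 : ⌊K * φ u⌋ - ((K - D) + K * k) ≤ ⌊K * φ v⌋ := by
      rw [Int.le_floor]
      push_cast
      have := Int.floor_le (K * φ u)
      linarith
    linarith
  obtain ⟨t, ht⟩ : ∃ t : ℤ, ⌊K * φ u⌋ - ⌊K * φ v⌋ = t + K * k :=
    ⟨⌊K * φ u⌋ - ⌊K * φ v⌋ - K * k, by ring⟩
  have ht1 : (D : ℤ) ≤ t := by linarith
  have ht2 : t ≤ K - D := by linarith
  obtain ⟨s, hs⟩ := Int.eq_ofNat_of_zero_le (show 0 ≤ t by omega)
  subst hs
  have h3 : ((⌊K * φ u⌋ : ℤ) : ZMod K) - ((⌊K * φ v⌋ : ℤ) : ZMod K) = (s : ZMod K) := by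
    rw [← Int.cast_sub, ht]
    push_cast
    rw [ZMod.natCast_self]; ring
  show D ≤ (((⌊K * φ u⌋ : ℤ) : ZMod K) - ((⌊K * φ v⌋ : ℤ) : ZMod K)).val ∧
    (((⌊K * φ u⌋ : ℤ) : ZMod K) - ((⌊K * φ v⌋ : ℤ) : ZMod K)).val ≤ K - D
  rw [h3, ZMod.val_natCast_of_lt (by omega)]
  omega

/-- A limit argument: approximate colourings for every positive error give an exact one. -/
theorem limitc [Finite V] (c : ℝ)
    (h : ∀ j : ℕ, Odd j → ∃ φ : V → ℝ, ∀ u v, G.Adj u v →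
      ∃ k : ℤ, |φ u - φ v - 1 / 2 - k| ≤ c + 1 / (j : ℝ)) :
    ∃ φ : V → ℝ, ∀ u v, G.Adj u v → ∃ k : ℤ, |φ u - φ v - 1 / 2 - k| ≤ c := by
  set K : ℕ → Set (V → UnitAddCircle) := fun j =>
    {φ | ∀ u v, G.Adj u v →
      ‖φ u - φ v - ((1 / 2 : ℝ) : UnitAddCircle)‖ ≤ c + 1 / ((2 * j + 1 : ℕ) : ℝ)} with hK
  have hcl : ∀ j, IsClosed (K j) := by
    intro j
    have : K j = ⋂ (u : V) (v : V) (_ : G.Adj u v),
        {φ | ‖φ u - φ v - ((1 / 2 : ℝ) : UnitAddCircle)‖ ≤ c + 1 / ((2 * j + 1 : ℕ) : ℝ)} := by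
      ext φ; simp [hK]
    rw [this]
    refine isClosed_iInter fun u => isClosed_iInter fun v => isClosed_iInter fun _ => ?_
    apply isClosed_le _ continuous_const
    fun_prop
  have hmono : ∀ j, K (j + 1) ⊆ K j := by
    intro j φ hφ u v huv
    refine (hφ u v huv).trans ?_
    have : (1 : ℝ) / ((2 * (j + 1) + 1 : ℕ) : ℝ) ≤ 1 / ((2 * j + 1 : ℕ) : ℝ) := by
      apply one_div_le_one_div_of_le
      · positivity
      · push_cast; linarith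
    linarith
  have hne : ∀ j, (K j).Nonempty := by
    intro j
    obtain ⟨φ, hφ⟩ := h (2 * j + 1) ⟨j, rfl⟩
    refine ⟨fun v => ((φ v : ℝ) : UnitAddCircle), fun u v huv => ?_⟩
    obtain ⟨k, hk⟩ := hφ u v huv
    show ‖((φ u : ℝ) : UnitAddCircle) - ((φ v : ℝ) : UnitAddCircle)
      - ((1 / 2 : ℝ) : UnitAddCircle)‖ ≤ _
    rw [← AddCircle.coe_sub, ← AddCircle.coe_sub, UnitAddCircle.norm_eq]
    exact (round_le _ k).trans hk
  obtain ⟨φ, hφ⟩ := IsCompact.nonempty_iInter_of_sequence_nonempty_isCompact_isClosed K hmono hne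
    ((hcl 0).isCompact) hcl
  rw [Set.mem_iInter] at hφ
  have hsurj : ∀ v, ∃ x : ℝ, ((x : ℝ) : UnitAddCircle) = φ v := fun v =>
    QuotientAddGroup.mk_surjective (φ v)
  choose x hx using hsurj
  refine ⟨x, fun u v huv => ⟨round (x u - x v - 1 / 2), ?_⟩⟩
  have h1 : ‖φ u - φ v - ((1 / 2 : ℝ) : UnitAddCircle)‖ ≤ c := by
    apply le_of_forall_pos_le_add
    intro ε hε
    obtain ⟨j, hj⟩ := exists_nat_one_div_lt hε
    refine (hφ j u v huv).trans ?_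
    have : (1 : ℝ) / ((2 * j + 1 : ℕ) : ℝ) ≤ 1 / ((j : ℝ) + 1) := by
      apply one_div_le_one_div_of_le
      · positivity
      · push_cast; linarith [Nat.cast_nonneg (α := ℝ) j]
    linarith
  rw [← hx u, ← hx v, ← AddCircle.coe_sub, ← AddCircle.coe_sub, UnitAddCircle.norm_eq] at h1
  exact h1

/-! ### Local repair at a cycle of length five -/

theorem local5g (α b c : ℝ) (hα : α ≤ 1 / 5) (hb : 0 ≤ b) (hc : 0 ≤ c)
    (h1 : α ≤ c + 2 * b) (h2 : 2 * α ≤ 2 * c + 2 * b) (h3 : 3 * α ≤ 3 * c + 2 * b)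
    (h4 : 1 / 2 + α ≤ 4 * c + 2 * b) (h5 : 1 / 2 ≤ 5 * c)
    (φ : V → ℝ) (a : Fin 5 → V) (ha : Function.Injective a)
    (h : ∀ i, ∃ k : ℤ, |φ (a i) - φ (a (i + 1)) - 1 / 2 - k| ≤ α) :
    ∃ ψ : V → ℝ, (∀ v, |ψ v| ≤ b) ∧ ∀ i, ∃ k : ℤ,
      |(φ (a i) + ψ (a i)) - (φ (a (i + 1)) + ψ (a (i + 1))) - 1 / 2 - k| ≤ c := by
  choose k hk using h
  have g0 := hk 0
  have g1 := hk 1
  have g2 := hk 2
  have g3 := hk 3
  have g4 := hk 4
  have e0 : (0 : Fin 5) + 1 = 1 := rfl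
  have e1 : (1 : Fin 5) + 1 = 2 := rfl
  have e2 : (2 : Fin 5) + 1 = 3 := rfl
  have e3 : (3 : Fin 5) + 1 = 4 := rfl
  have e4 : (4 : Fin 5) + 1 = 0 := rfl
  rw [e0] at g0
  rw [e1] at g1
  rw [e2] at g2
  rw [e3] at g3
  rw [e4] at g4
  set r0 := φ (a 0) - φ (a 1) - 1 / 2 - k 0 with hr0
  set r1 := φ (a 1) - φ (a 2) - 1 / 2 - k 1 with hr1
  set r2 := φ (a 2) - φ (a 3) - 1 / 2 - k 2 with hr2
  set r3 := φ (a 3) - φ (a 4) - 1 / 2 - k 3 with hr3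
  set r4 := φ (a 4) - φ (a 0) - 1 / 2 - k 4 with hr4
  have hsum : r0 + r1 + r2 + r3 + r4 = -5 / 2 - ((k 0 + k 1 + k 2 + k 3 + k 4 : ℤ) : ℝ) := by
    rw [hr0, hr1, hr2, hr3, hr4]
    push_cast
    ring
  rw [abs_le] at g0 g1 g2 g3 g4
  obtain ⟨h0a, h0b⟩ := g0
  obtain ⟨h1a, h1b⟩ := g1
  obtain ⟨h2a, h2b⟩ := g2
  obtain ⟨h3a, h3b⟩ := g3
  obtain ⟨h4a, h4b⟩ := g4
  have hs : r0 + r1 + r2 + r3 + r4 = 1 / 2 ∨ r0 + r1 + r2 + r3 + r4 = -1 / 2 := by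
    have hu : ((k 0 + k 1 + k 2 + k 3 + k 4 : ℤ) : ℝ) ≤ -3 / 2 := by
      rw [← sub_nonneg]
      have : -3 / 2 - ((k 0 + k 1 + k 2 + k 3 + k 4 : ℤ) : ℝ) = r0 + r1 + r2 + r3 + r4 + 1 := by
        rw [hsum]; ring
      rw [this]; linarith
    have hl : (-7 / 2 : ℝ) ≤ ((k 0 + k 1 + k 2 + k 3 + k 4 : ℤ) : ℝ) := by
      rw [← sub_nonneg]
      have : ((k 0 + k 1 + k 2 + k 3 + k 4 : ℤ) : ℝ) - -7 / 2 = 1 - (r0 + r1 + r2 + r3 + r4) := by
        rw [hsum]; ring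
      rw [this]; linarith
    have hu' : k 0 + k 1 + k 2 + k 3 + k 4 ≤ -2 := by
      by_contra hcon
      have h5 : (-1 : ℤ) ≤ k 0 + k 1 + k 2 + k 3 + k 4 := by omega
      have h6 : ((-1 : ℤ) : ℝ) ≤ ((k 0 + k 1 + k 2 + k 3 + k 4 : ℤ) : ℝ) := by exact_mod_cast h5
      push_cast at h6 hu
      linarith
    have hl' : -3 ≤ k 0 + k 1 + k 2 + k 3 + k 4 := by
      by_contra hcon
      have h5 : k 0 + k 1 + k 2 + k 3 + k 4 ≤ (-4 : ℤ) := by omega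
      have h6 : ((k 0 + k 1 + k 2 + k 3 + k 4 : ℤ) : ℝ) ≤ ((-4 : ℤ) : ℝ) := by exact_mod_cast h5
      push_cast at h6 hl
      linarith
    have h7 : k 0 + k 1 + k 2 + k 3 + k 4 = -2 ∨ k 0 + k 1 + k 2 + k 3 + k 4 = -3 := by omega
    rcases h7 with h7 | h7
    · right; rw [hsum, h7]; norm_num
    · left; rw [hsum, h7]; norm_num
  clear_value r0 r1 r2 r3 r4
  obtain ⟨p0, p1, p2, p3, p4, ⟨b0, b1, b2, b3, b4⟩, c0, c1, c2, c3, c4⟩ :=
    local5_aux b c r0 r1 r2 r3 r4 hb hc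
    (abs_le.mpr ⟨by linarith, by linarith⟩) (abs_le.mpr ⟨by linarith, by linarith⟩)
    (abs_le.mpr ⟨by linarith, by linarith⟩) (abs_le.mpr ⟨by linarith, by linarith⟩)
    (abs_le.mpr ⟨by linarith, by linarith⟩) (abs_le.mpr ⟨by linarith, by linarith⟩)
    (abs_le.mpr ⟨by linarith, by linarith⟩) (abs_le.mpr ⟨by linarith, by linarith⟩)
    (abs_le.mpr ⟨by linarith, by linarith⟩) (abs_le.mpr ⟨by linarith, by linarith⟩)
    (abs_le.mpr ⟨by linarith, by linarith⟩) (abs_le.mpr ⟨by linarith, by linarith⟩)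
    (abs_le.mpr ⟨by linarith, by linarith⟩) (abs_le.mpr ⟨by linarith, by linarith⟩)
    (abs_le.mpr ⟨by linarith, by linarith⟩)
    (by rcases hs with hs | hs <;> exact abs_le.mpr ⟨by linarith, by linarith⟩)
    (by rcases hs with hs | hs <;> exact abs_le.mpr ⟨by linarith, by linarith⟩)
    (by rcases hs with hs | hs <;> exact abs_le.mpr ⟨by linarith, by linarith⟩)
    (by rcases hs with hs | hs <;> exact abs_le.mpr ⟨by linarith, by linarith⟩)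
    (by rcases hs with hs | hs <;> exact abs_le.mpr ⟨by linarith, by linarith⟩)
    (by rcases hs with hs | hs <;> exact abs_le.mpr ⟨by linarith, by linarith⟩)
  set p : Fin 5 → ℝ := ![p0, p1, p2, p3, p4] with hp
  refine ⟨Function.extend a p 0, ?_, ?_⟩
  · intro v
    by_cases hv : ∃ i, a i = v
    · obtain ⟨i, rfl⟩ := hv
      rw [ha.extend_apply]
      fin_cases i
      · exact b0
      · exact b1
      · exact b2
      · exact b3
      · exact b4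
    · rw [Function.extend_apply' _ _ _ hv]
      simp only [Pi.zero_apply, abs_zero]
      exact hb
  · intro i
    rw [ha.extend_apply, ha.extend_apply]
    refine ⟨k i, ?_⟩
    fin_cases i
    · have : (φ (a 0) + p 0) - (φ (a 1) + p 1) - 1 / 2 - k 0 = r0 + p0 - p1 := by
        rw [hr0]; simp [hp]; ring
      exact this ▸ c0
    · have : (φ (a 1) + p 1) - (φ (a 2) + p 2) - 1 / 2 - k 1 = r1 + p1 - p2 := by
        rw [hr1]; simp [hp]; ring
      exact this ▸ c1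
    · have : (φ (a 2) + p 2) - (φ (a 3) + p 3) - 1 / 2 - k 2 = r2 + p2 - p3 := by
        rw [hr2]; simp [hp]; ring
      exact this ▸ c2
    · have : (φ (a 3) + p 3) - (φ (a 4) + p 4) - 1 / 2 - k 3 = r3 + p3 - p4 := by
        rw [hr3]; simp [hp]; ring
      exact this ▸ c3
    · have : (φ (a 4) + p 4) - (φ (a 0) + p 0) - 1 / 2 - k 4 = r4 + p4 - p0 := by
        rw [hr4]; simp [hp]; ring
      exact this ▸ c4

/-! ### The repair of a circular map when the 5-cycles are disjoint -/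

theorem repair (htri : G.CliqueFree 3)
    (hdisj : ∀ a b : Fin 5 → V, Cyc G 5 a → Cyc G 5 b → ∀ i j, a i = b j →
      Set.range a = Set.range b)
    (α b c : ℝ) (hα : α ≤ 1 / 5) (hb : 0 ≤ b) (hc : 0 ≤ c)
    (h1 : α ≤ c + 2 * b) (h2 : 2 * α ≤ 2 * c + 2 * b) (h3 : 3 * α ≤ 3 * c + 2 * b)
    (h4 : 1 / 2 + α ≤ 4 * c + 2 * b) (h5 : 1 / 2 ≤ 5 * c) (φ : V → ℝ)
    (hA : ∀ u v, G.Adj u v → E5 G s(u, v) → ∃ k : ℤ, |φ u - φ v - 1 / 2 - k| ≤ α)
    (hD : ∀ u v, G.Adj u v → ¬ E5 G s(u, v) → On5 G u → On5 G v →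
      ∃ k : ℤ, |φ u - φ v - 1 / 2 - k| ≤ c - 2 * b)
    (hS : ∀ u v, G.Adj u v → ¬ E5 G s(u, v) → (On5 G u ∨ On5 G v) → ¬ (On5 G u ∧ On5 G v) →
      ∃ k : ℤ, |φ u - φ v - 1 / 2 - k| ≤ c - b)
    (hO : ∀ u v, G.Adj u v → ¬ On5 G u → ¬ On5 G v → ∃ k : ℤ, |φ u - φ v - 1 / 2 - k| ≤ c) :
    ∃ φ' : V → ℝ, ∀ u v, G.Adj u v → ∃ k : ℤ, |φ' u - φ' v - 1 / 2 - k| ≤ c := by
  have hQ : ∀ S : Set V, ∃ ψ : V → ℝ, (∀ v, |ψ v| ≤ b) ∧
      ((∃ a : Fin 5 → V, Cyc G 5 a ∧ Set.range a = S) → ∀ x ∈ S, ∀ y ∈ S, G.Adj x y →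
        ∃ k : ℤ, |(φ x + ψ x) - (φ y + ψ y) - 1 / 2 - k| ≤ c) := by
    intro S
    by_cases hS : ∃ a : Fin 5 → V, Cyc G 5 a ∧ Set.range a = S
    · obtain ⟨a, ha, rfl⟩ := hS
      obtain ⟨ψ, g1, g2⟩ := local5g α b c hα hb hc h1 h2 h3 h4 h5 φ a ha.1
        (fun i => hA _ _ (ha.2 i) ⟨a, ha, i, rfl⟩)
      refine ⟨ψ, g1, fun _ x hx y hy hxy => ?_⟩
      obtain ⟨i, rfl⟩ := hx
      obtain ⟨l, rfl⟩ := hy
      rcases chordless htri ha hxy with g3 | g3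
      · rw [g3]; exact g2 i
      · rw [g3]
        obtain ⟨k, hk⟩ := g2 l
        refine ⟨-k - 1, ?_⟩
        have g4 : φ (a (l + 1)) + ψ (a (l + 1)) - (φ (a l) + ψ (a l)) - 1 / 2
            - ((-k - 1 : ℤ) : ℝ) =
            -(φ (a l) + ψ (a l) - (φ (a (l + 1)) + ψ (a (l + 1))) - 1 / 2 - k) := by
          push_cast; ring
        rw [g4, abs_neg]
        exact hk
    · exact ⟨fun _ => 0, fun v => by simp only [abs_zero]; exact hb, fun h => absurd h hS⟩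
  choose F hF1 hF2 using hQ
  set R : V → Set V := fun v =>
    {w | ∃ a : Fin 5 → V, Cyc G 5 a ∧ v ∈ Set.range a ∧ w ∈ Set.range a} with hR
  have hRr : ∀ (a : Fin 5 → V), Cyc G 5 a → ∀ i, R (a i) = Set.range a := by
    intro a ha i
    ext w
    constructor
    · rintro ⟨b, hb, ⟨l, hl⟩, hw⟩
      rw [hdisj a b ha hb i l hl.symm]
      exact hw
    · intro hw
      exact ⟨a, ha, ⟨i, rfl⟩, hw⟩
  set θ : V → ℝ := fun v => if On5 G v then F (R v) v else 0 with hθ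
  have hθ1 : ∀ v, |θ v| ≤ b := by
    intro v
    simp only [hθ]
    split_ifs
    · exact hF1 _ _
    · rw [abs_zero]; exact hb
  have hθ0 : ∀ v, ¬ On5 G v → θ v = 0 := fun v hv => by simp only [hθ, if_neg hv]
  refine ⟨fun v => φ v + θ v, fun u v huv => ?_⟩
  by_cases hE : E5 G s(u, v)
  · obtain ⟨hu, hv⟩ := hE.on5
    obtain ⟨a, ha, i, hi⟩ := hE
    have hmem : u ∈ Set.range a ∧ v ∈ Set.range a := by
      rw [Sym2.eq_iff] at hi
      rcases hi with ⟨g1, g2⟩ | ⟨g1, g2⟩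
      · exact ⟨⟨i, g1.symm⟩, ⟨i + 1, g2.symm⟩⟩
      · exact ⟨⟨i + 1, g1.symm⟩, ⟨i, g2.symm⟩⟩
    have hRu : R u = Set.range a := by
      obtain ⟨l, rfl⟩ := hmem.1
      exact hRr a ha l
    have hRv : R v = Set.range a := by
      obtain ⟨l, rfl⟩ := hmem.2
      exact hRr a ha l
    obtain ⟨k, hk⟩ := hF2 (Set.range a) ⟨a, ha, rfl⟩ u hmem.1 v hmem.2 huv
    refine ⟨k, ?_⟩
    simp only [hθ, if_pos hu, if_pos hv, hRu, hRv]
    exact hk
  · have htri' : ∀ k : ℤ, |φ u + θ u - (φ v + θ v) - 1 / 2 - k| ≤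
        |φ u - φ v - 1 / 2 - k| + |θ u - θ v| := by
      intro k
      have : φ u + θ u - (φ v + θ v) - 1 / 2 - k
          = (φ u - φ v - 1 / 2 - k) + (θ u - θ v) := by ring
      rw [this]
      exact abs_add_le _ _
    by_cases g1 : On5 G u ∧ On5 G v
    · obtain ⟨k, hk⟩ := hD u v huv hE g1.1 g1.2
      refine ⟨k, (htri' k).trans ?_⟩
      have g2 : |θ u - θ v| ≤ 2 * b := by
        have ha := abs_le.mp (hθ1 u)
        have hb := abs_le.mp (hθ1 v)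
        rw [abs_le]
        constructor <;> linarith
      linarith
    · by_cases g2 : On5 G u ∨ On5 G v
      · obtain ⟨k, hk⟩ := hS u v huv hE g2 g1
        refine ⟨k, (htri' k).trans ?_⟩
        have g3 : |θ u - θ v| ≤ b := by
          rcases g2 with g2 | g2
          · rw [hθ0 v (fun h => g1 ⟨g2, h⟩), sub_zero]; exact hθ1 u
          · rw [hθ0 u (fun h => g1 ⟨h, g2⟩), zero_sub, abs_neg]; exact hθ1 v
        linarith
      · push Not at g2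
        obtain ⟨k, hk⟩ := hO u v huv g2.1 g2.2
        refine ⟨k, (htri' k).trans ?_⟩
        rw [hθ0 u g2.1, hθ0 v g2.2, sub_self, abs_zero]
        linarith

end

end Pool.Agent.Helper520
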