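import Pool.Agent.Helper520_wt.Bounds

set_option autoImplicit false
set_option linter.unusedSectionVars false

/-!
A stronger form of the theorem on isolated 5-cycles: a 7-cycle may share at least three vertices
with a 5-cycle, or may be covered by two 5-cycles.
-/

namespace Pool.Agent.Helper520

open SimpleGraph Pool.Agent.H239R2.Planar
open Pool.Agent.R50.OddCycle (Closed)

noncomputable section

open Classical

variable {V : Type} {G : SimpleGraph V}

/-- Exits of a 7-cycle from the same 5-cycle coincide. -/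
theorem exits_ne {g : ℕ → V} (hper : ∀ i, g (i + 7) = g i) :
    ∀ i < 7, ∀ j < 7, i ≠ j → ∀ S S' : Set V, g i ∈ S → g (i + (7 - 1)) ∈ S →
      g (i + 1) ∉ S → g (i + 2) ∉ S → g j ∈ S' → g (j + (7 - 1)) ∈ S' → g (j + 1) ∉ S' →
      g (j + 2) ∉ S' → S ≠ S' := by
  have hmod : ∀ k, g (k % 7) = g k := fun k => (show Function.Periodic g 7 from hper).map_mod_nat k
  intro i hi j hj hij S S' a1 a2 a3 a4 b1 b2 b3 b4 hSS
  subst hSS
  have hd : ∀ k l, g k ∈ S → g l ∉ S → k % 7 ≠ l % 7 := by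
    intro k l hk hl h
    rw [← hmod k, h, hmod l] at hk
    exact hl hk
  have c1 := hd _ _ a1 b3
  have c2 := hd _ _ a1 b4
  have c3 := hd _ _ a2 b4
  have c4 := hd _ _ b1 a3
  have c5 := hd _ _ b1 a4
  have c6 := hd _ _ b2 a4
  omega

/-- A 7-cycle with two exits meets two different 5-cycles. -/
theorem Dis5.two [Finite V] (H : Dis5 G) {g : ℕ → V}
    (hper : ∀ i, g (i + 7) = g i) (hadj : ∀ i, G.Adj (g i) (g (i + 1)))
    (hinj : ∀ i j, g i = g j → i % 7 = j % 7)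
    (h2 : 2 ≤ ∑ i ∈ Finset.range 7, (if On5 G (g i) ∧ ¬ E5 G s(g i, g (i + 1)) then 1 else 0)) :
    ∃ S₁ S₂ : Set V, IsQ G S₁ ∧ IsQ G S₂ ∧ S₁ ≠ S₂ ∧
      (∃ i < 7, g i ∈ S₁) ∧ (∃ i < 7, g i ∈ S₂) := by
  rw [← Finset.card_filter] at h2
  obtain ⟨x, hx, y, hy, hxy⟩ := Finset.one_lt_card.mp h2
  rw [Finset.mem_filter, Finset.mem_range] at hx hy
  obtain ⟨S₁, q1, a1, a2, a3, a4⟩ := H.exit (by norm_num) hper hadj hinj hx.2.1 hx.2.2
  obtain ⟨S₂, q2, b1, b2, b3, b4⟩ := H.exit (by norm_num) hper hadj hinj hy.2.1 hy.2.2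
  exact ⟨S₁, S₂, q1, q2,
    exits_ne hper x hx.1 y hy.1 hxy S₁ S₂ a1 a2 a3 a4 b1 b2 b3 b4,
    ⟨x, hx.1, a1⟩, ⟨y, hy.1, b1⟩⟩

/-- the numbers of edges of the various kinds on a cycle -/
theorem Dis5.numbers2 [Finite V] (H : Dis5 G) {n : ℕ} {f : ℕ → V} (hn : 7 ≤ n)
    (hf : Closed G n f) (hinj : ∀ i < n, ∀ j < n, f i = f j → i = j) :
    ∃ a b c d u v : ℕ, a + b + c + d = n ∧ b + 2 * c = 2 * v ∧ 2 * u = b + 2 * d ∧ v ≤ a ∧
      (∀ wA wD wS wO : ℕ, ∑ i ∈ Finset.range n, wtg G wA wD wS wO s(f i, f (i + 1))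
        = wA * a + wD * c + wS * b + wO * d) ∧
      u = ∑ i ∈ Finset.range n, (if On5 G (f i) then 0 else 1) ∧
      (n = 7 → 2 ≤ v → ∃ S₁ S₂ : Set V, IsQ G S₁ ∧ IsQ G S₂ ∧ S₁ ≠ S₂ ∧
        (∃ i < 7, f i ∈ S₁) ∧ (∃ i < 7, f i ∈ S₂)) ∧
      (n = 7 → 3 ≤ v → ∃ S₁ S₂ S₃ : Set V, IsQ G S₁ ∧ IsQ G S₂ ∧ IsQ G S₃ ∧ S₁ ≠ S₂ ∧ S₁ ≠ S₃ ∧
        S₂ ≠ S₃ ∧ (∃ i < 7, f i ∈ S₁) ∧ (∃ i < 7, f i ∈ S₂) ∧ (∃ i < 7, f i ∈ S₃)) := by
  obtain ⟨g, hper, hg1, hg2, hadj, hinj'⟩ := exists_periodic (by omega) hf hinj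
  have hne : ∀ i, g i ≠ g (i + 2) := by
    intro i h
    have h2 : i ≡ i + 2 [MOD n] := hinj' _ _ h
    have h3 := (Nat.modEq_iff_dvd' (by omega)).mp h2
    rw [Nat.add_sub_cancel_left] at h3
    have := Nat.le_of_dvd (by norm_num) h3
    omega
  have hgn : g n = g 0 := by
    have := hper 0
    rwa [Nat.zero_add] at this
  have hgn1 : g (n + 1) = g (0 + 1) := by
    have := hper 1
    rwa [Nat.add_comm 1 n] at this
  obtain ⟨a, b, c, d, u, v, h1, h2, h3, h4, hu, hv, -, hw⟩ := count_gen n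
    (fun i => E5 G s(g i, g (i + 1))) (fun i => On5 G (g i))
    (fun i h => E5.on5 h)
    (fun i hi => by
      by_contra hcon
      push Not at hcon
      refine one_spoke' H.deg hi (hadj i).symm (hadj (i + 1)) (hne i) ?_ hcon.2
      rw [Sym2.eq_swap]
      exact hcon.1)
    (by rw [hgn, hgn1])
    (by rw [hgn])
  refine ⟨a, b, c, d, u, v, h1, h2, h3, h4, ?_, ?_, ?_, ?_⟩
  · intro wA wD wS wO
    rw [← hw]
    refine Finset.sum_congr rfl fun i hi => ?_
    rw [Finset.mem_range] at hi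
    rw [wtg_mk, hg1 i hi, hg2 i hi]
  · rw [hu]
    refine Finset.sum_congr rfl fun i hi => ?_
    rw [Finset.mem_range] at hi
    rw [hg1 i hi]
  · intro h7 hv2
    subst h7
    rw [hv] at hv2
    obtain ⟨S₁, S₂, q1, q2, n12, ⟨i, hi, m1⟩, ⟨j, hj, m2⟩⟩ := H.two hper hadj hinj' hv2
    rw [hg1 i hi] at m1
    rw [hg1 j hj] at m2
    exact ⟨S₁, S₂, q1, q2, n12, ⟨i, hi, m1⟩, ⟨j, hj, m2⟩⟩
  · intro h7 hv3
    subst h7
    rw [hv] at hv3
    obtain ⟨S₁, S₂, S₃, q1, q2, q3, n12, n13, n23, ⟨i, hi, m1⟩, ⟨j, hj, m2⟩, ⟨k, hk, m3⟩⟩ :=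
      H.three hper hadj hinj' hv3
    rw [hg1 i hi] at m1
    rw [hg1 j hj] at m2
    rw [hg1 k hk] at m3
    exact ⟨S₁, S₂, S₃, q1, q2, q3, n12, n13, n23, ⟨i, hi, m1⟩, ⟨j, hj, m2⟩, ⟨k, hk, m3⟩⟩

/-- the conditions on the 7- and 9-cycles -/
structure Iso7 (G : SimpleGraph V) : Prop where
  seven : ∀ f : ℕ → V, Closed G 7 f → (∀ i < 7, ∀ j < 7, f i = f j → i = j) →
    (∀ i < 7, ¬ On5 G (f i)) ∨
    (∃ S : Set V, IsQ G S ∧ 3 ≤ ∑ i ∈ Finset.range 7, (if f i ∈ S then 1 else 0) ∧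
      ∀ S', IsQ G S' → (∃ i < 7, f i ∈ S') → S' = S) ∨
    (∃ S S' : Set V, IsQ G S ∧ IsQ G S' ∧ ∀ i < 7, f i ∈ S ∨ f i ∈ S')
  nine : ∀ f : ℕ → V, Closed G 9 f → (∀ i < 9, ∀ j < 9, f i = f j → i = j) →
    ∑ i ∈ Finset.range 9, (if On5 G (f i) then 0 else 1) ≠ 1

theorem iso7_key [Finite V] (H : Dis5 G) (H7 : Iso7 G) {n : ℕ} {f : ℕ → V} (hodd : Odd n)
    (hn : 7 ≤ n) (hf : Closed G n f) (hinj : ∀ i < n, ∀ j < n, f i = f j → i = j) :
    ∃ a b c d : ℕ, a + b + c + d = n ∧ 40 ≤ 8 * a + 3 * b + 6 * d ∧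
      (∀ wA wD wS wO : ℕ, ∑ i ∈ Finset.range n, wtg G wA wD wS wO s(f i, f (i + 1))
        = wA * a + wD * c + wS * b + wO * d) := by
  obtain ⟨a, b, c, d, u, v, h1, h2, h3, h4, hw, hu, ht2, ht3⟩ := H.numbers2 hn hf hinj
  refine ⟨a, b, c, d, h1, ?_, hw⟩
  obtain ⟨k, hk⟩ := hodd
  by_cases hn7 : n = 7
  · subst hn7
    have hon : ∀ (S : Set V), IsQ G S → ∀ i, f i ∈ S → On5 G (f i) :=
      fun S hS i hi => on5_iff.mpr ⟨S, hS, hi⟩
    rcases H7.seven f hf hinj with h | ⟨S, hS, h5, h6⟩ | ⟨S, S', hS, hS', h5⟩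
    · -- the cycle is disjoint from all 5-cycles
      have hu7 : u = 7 := by
        rw [hu, Finset.sum_congr rfl (fun i hi => if_neg (h i (Finset.mem_range.mp hi)))]
        simp
      omega
    · have hv1 : v ≤ 1 := by
        by_contra hcon
        obtain ⟨S₁, S₂, q1, q2, n12, m1, m2⟩ := ht2 rfl (by omega)
        exact n12 ((h6 S₁ q1 m1).trans (h6 S₂ q2 m2).symm)
      have hu4 : u + 3 ≤ 7 := by
        have h8 : ∑ i ∈ Finset.range 7, (if On5 G (f i) then 0 else 1) +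
            ∑ i ∈ Finset.range 7, (if f i ∈ S then 1 else 0) ≤ ∑ i ∈ Finset.range 7, 1 := by
          rw [← Finset.sum_add_distrib]
          refine Finset.sum_le_sum fun i _ => ?_
          by_cases h9 : f i ∈ S
          · rw [if_pos (hon S hS i h9), if_pos h9]
          · rw [if_neg h9]
            split_ifs <;> norm_num
        rw [← hu] at h8
        simp at h8
        simp at h5
        omega
      omega
    · have hu0 : u = 0 := by
        rw [hu]
        refine Finset.sum_eq_zero fun i hi => ?_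
        rw [Finset.mem_range] at hi
        rcases h5 i hi with h | h
        · rw [if_pos (hon S hS i h)]
        · rw [if_pos (hon S' hS' i h)]
      have hv2 : v ≤ 2 := by
        by_contra hcon
        obtain ⟨S₁, S₂, S₃, q1, q2, q3, n12, n13, n23, m1, m2, m3⟩ := ht3 rfl (by omega)
        have hwhich : ∀ T : Set V, IsQ G T → (∃ i < 7, f i ∈ T) → T = S ∨ T = S' := by
          rintro T hT ⟨i, hi, hiT⟩
          rcases h5 i hi with h | h
          · exact Or.inl (H.eqS hT hS hiT h)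
          · exact Or.inr (H.eqS hT hS' hiT h)
        rcases hwhich _ q1 m1 with e1 | e1 <;> rcases hwhich _ q2 m2 with e2 | e2 <;>
          rcases hwhich _ q3 m3 with e3 | e3
        · exact n12 (e1.trans e2.symm)
        · exact n12 (e1.trans e2.symm)
        · exact n13 (e1.trans e3.symm)
        · exact n23 (e2.trans e3.symm)
        · exact n23 (e2.trans e3.symm)
        · exact n13 (e1.trans e3.symm)
        · exact n12 (e1.trans e2.symm)
        · exact n12 (e1.trans e2.symm)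
      omega
  · by_cases hn9 : n = 9
    · subst hn9
      have h9 := H7.nine f hf hinj
      rw [← hu] at h9
      omega
    · omega

/-- Planar graphs of maximum degree three with isolated 5-cycles have circular chromatic number at
most `20/7`; stronger form. -/
theorem iso7_main [Fintype V] (hpl : IsPlanar G) (H : Dis5 G) (H7 : Iso7 G) :
    ∃ c : V → ZMod 20, ∀ u v, G.Adj u v → 7 ≤ (c u - c v).val ∧ (c u - c v).val ≤ 13 := by
  have happ : ∀ j : ℕ, Odd j → ∃ φ : V → ℝ, ∀ u v, G.Adj u v →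
      ∃ k : ℤ, |φ u - φ v - 1 / 2 - k| ≤ 3 / 20 + 1 / (j : ℝ) := by
    intro j hj
    have hj0 : 0 < j := hj.pos
    have hj1 : (0 : ℝ) < j := by exact_mod_cast hj0
    obtain ⟨N, φ, hN, hφ⟩ := weighted G hpl (wtg G (16 * j + 1) 1 (6 * j + 1) (12 * j + 1))
      (fun e _ => wtg_odd ⟨8 * j, by ring⟩ odd_one ⟨3 * j, by ring⟩ ⟨6 * j, by ring⟩ e)
      (80 * j + 5) ⟨40 * j + 2, by ring⟩ (by omega)
      (fun n f hn hn3 hf hinj => wtg_bound H (16 * j + 1) 1 (6 * j + 1) (12 * j + 1) (80 * j + 5)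
        (by omega) (by
        intro n f hn hn7 hf hinj
        obtain ⟨a, b, c, d, h1, h2, hw⟩ := iso7_key H H7 hn hn7 hf hinj
        rw [hw]
        have h8 := Nat.mul_le_mul_right (2 * j) h2
        calc 80 * j + 5 ≤ 40 * (2 * j) + n := by omega
          _ ≤ (8 * a + 3 * b + 6 * d) * (2 * j) + n := by omega
          _ = (16 * j + 1) * a + 1 * c + (6 * j + 1) * b + (12 * j + 1) * d := by
            rw [← h1]; ring)
        n f hn hn3 hf hinj)
    have hN1 : (0 : ℝ) < N := by exact_mod_cast hN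
    set κ : ℝ := (N : ℝ) / (((80 * j + 5 : ℕ) : ℝ) * N + 1) with hκ
    have hκ0 : 0 ≤ κ := by positivity
    have hκ1 : (80 * j + 5) * κ ≤ 1 := by
      have h1 : κ * (((80 * j + 5 : ℕ) : ℝ) * N + 1) = N := by
        rw [hκ]; field_simp
      push_cast at h1
      have h2 : ((80 * j + 5) * κ - 1) * N ≤ 0 := by nlinarith
      nlinarith
    have hκj : κ ≤ 1 / j := by
      rw [le_div_iff₀ hj1]
      nlinarith
    have hj2 : (0 : ℝ) ≤ 1 / j := by positivity
    refine repair H.tri H.disj (1 / 5) (3 / 40) (3 / 20 + 1 / j) le_rfl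
      (by norm_num) (by positivity) (by linarith) (by linarith) (by linarith) (by linarith)
      (by linarith) φ ?_ ?_ ?_ ?_
    · intro u v huv hE
      obtain ⟨k, hk⟩ := hφ u v huv
      rw [wtg_mk, if_pos hE] at hk
      refine ⟨k, hk.trans ?_⟩
      push_cast
      linarith
    · intro u v huv hE hu hv
      obtain ⟨k, hk⟩ := hφ u v huv
      rw [wtg_mk, if_neg hE, if_pos ⟨hu, hv⟩] at hk
      refine ⟨k, hk.trans ?_⟩
      push_cast
      linarith
    · intro u v huv hE hu hv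
      obtain ⟨k, hk⟩ := hφ u v huv
      rw [wtg_mk, if_neg hE, if_neg hv, if_pos hu] at hk
      refine ⟨k, hk.trans ?_⟩
      push_cast
      linarith
    · intro u v huv hu hv
      obtain ⟨k, hk⟩ := hφ u v huv
      rw [wtg_mk, if_neg (fun h => hu h.on5.1), if_neg (fun h => hu h.1),
        if_neg (fun h => h.elim hu hv)] at hk
      refine ⟨k, hk.trans ?_⟩
      push_cast
      linarith
  obtain ⟨φ, hφ⟩ := limitc (3 / 20) happ
  exact toK 20 7 (by norm_num) (by norm_num) φ (by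
    have : (1 : ℝ) / 2 - ((7 : ℕ) : ℝ) / ((20 : ℕ) : ℝ) = 3 / 20 := by norm_num
    rw [this]; exact hφ)

end

end Pool.Agent.Helper520
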