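import Mathlib

set_option autoImplicit false
set_option linter.unusedVariables false

/-!
A system of difference constraints on a cycle with five vertices.
-/

namespace Pool.Agent.Helper520

theorem exists_min9 (t : Fin 9 → ℝ) : ∃ p : ℝ, (∀ k, p ≤ t k) ∧
    (p = t 0 ∨ p = t 1 ∨ p = t 2 ∨ p = t 3 ∨ p = t 4 ∨ p = t 5 ∨ p = t 6 ∨ p = t 7 ∨ p = t 8) := by
  obtain ⟨k, hk⟩ := Finite.exists_min t
  refine ⟨t k, hk, ?_⟩
  fin_cases k <;> simp

theorem local5_aux (b c r0 r1 r2 r3 r4 : ℝ) (hb : 0 ≤ b) (hc : 0 ≤ c)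
    (h10 : |r0| ≤ 1 * c + 2 * b)
    (h11 : |r1| ≤ 1 * c + 2 * b)
    (h12 : |r2| ≤ 1 * c + 2 * b)
    (h13 : |r3| ≤ 1 * c + 2 * b)
    (h14 : |r4| ≤ 1 * c + 2 * b)
    (h20 : |r0 + r1| ≤ 2 * c + 2 * b)
    (h21 : |r1 + r2| ≤ 2 * c + 2 * b)
    (h22 : |r2 + r3| ≤ 2 * c + 2 * b)
    (h23 : |r3 + r4| ≤ 2 * c + 2 * b)
    (h24 : |r4 + r0| ≤ 2 * c + 2 * b)
    (h30 : |r0 + r1 + r2| ≤ 3 * c + 2 * b)
    (h31 : |r1 + r2 + r3| ≤ 3 * c + 2 * b)
    (h32 : |r2 + r3 + r4| ≤ 3 * c + 2 * b)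
    (h33 : |r3 + r4 + r0| ≤ 3 * c + 2 * b)
    (h34 : |r4 + r0 + r1| ≤ 3 * c + 2 * b)
    (h40 : |r0 + r1 + r2 + r3| ≤ 4 * c + 2 * b)
    (h41 : |r1 + r2 + r3 + r4| ≤ 4 * c + 2 * b)
    (h42 : |r2 + r3 + r4 + r0| ≤ 4 * c + 2 * b)
    (h43 : |r3 + r4 + r0 + r1| ≤ 4 * c + 2 * b)
    (h44 : |r4 + r0 + r1 + r2| ≤ 4 * c + 2 * b)
    (h5 : |r0 + r1 + r2 + r3 + r4| ≤ 5 * c)
    : ∃ p0 p1 p2 p3 p4 : ℝ,
      (|p0| ≤ b ∧ |p1| ≤ b ∧ |p2| ≤ b ∧ |p3| ≤ b ∧ |p4| ≤ b) ∧
      (|r0 + p0 - p1| ≤ c ∧ |r1 + p1 - p2| ≤ c ∧ |r2 + p2 - p3| ≤ c ∧ |r3 + p3 - p4| ≤ c ∧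
        |r4 + p4 - p0| ≤ c) := by
  rw [abs_le] at h10
  rw [abs_le] at h11
  rw [abs_le] at h12
  rw [abs_le] at h13
  rw [abs_le] at h14
  rw [abs_le] at h20
  rw [abs_le] at h21
  rw [abs_le] at h22
  rw [abs_le] at h23
  rw [abs_le] at h24
  rw [abs_le] at h30
  rw [abs_le] at h31
  rw [abs_le] at h32
  rw [abs_le] at h33
  rw [abs_le] at h34
  rw [abs_le] at h40
  rw [abs_le] at h41
  rw [abs_le] at h42
  rw [abs_le] at h43
  rw [abs_le] at h44
  rw [abs_le] at h5
  obtain ⟨h10a, h10b⟩ := h10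
  obtain ⟨h11a, h11b⟩ := h11
  obtain ⟨h12a, h12b⟩ := h12
  obtain ⟨h13a, h13b⟩ := h13
  obtain ⟨h14a, h14b⟩ := h14
  obtain ⟨h20a, h20b⟩ := h20
  obtain ⟨h21a, h21b⟩ := h21
  obtain ⟨h22a, h22b⟩ := h22
  obtain ⟨h23a, h23b⟩ := h23
  obtain ⟨h24a, h24b⟩ := h24
  obtain ⟨h30a, h30b⟩ := h30
  obtain ⟨h31a, h31b⟩ := h31
  obtain ⟨h32a, h32b⟩ := h32
  obtain ⟨h33a, h33b⟩ := h33
  obtain ⟨h34a, h34b⟩ := h34
  obtain ⟨h40a, h40b⟩ := h40
  obtain ⟨h41a, h41b⟩ := h41
  obtain ⟨h42a, h42b⟩ := h42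
  obtain ⟨h43a, h43b⟩ := h43
  obtain ⟨h44a, h44b⟩ := h44
  obtain ⟨h5a, h5b⟩ := h5
  obtain ⟨p0, m0, e0⟩ := exists_min9 ![b, b + (c + r4), b + (c + r4) + (c + r3), b + (c + r4) + (c + r3) + (c + r2), b + (c + r4) + (c + r3) + (c + r2) + (c + r1), b + (c - r0), b + (c - r0) + (c - r1), b + (c - r0) + (c - r1) + (c - r2), b + (c - r0) + (c - r1) + (c - r2) + (c - r3)]
  have m00 : p0 ≤ b := m0 0
  have m01 : p0 ≤ b + (c + r4) := m0 1
  have m02 : p0 ≤ b + (c + r4) + (c + r3) := m0 2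
  have m03 : p0 ≤ b + (c + r4) + (c + r3) + (c + r2) := m0 3
  have m04 : p0 ≤ b + (c + r4) + (c + r3) + (c + r2) + (c + r1) := m0 4
  have m05 : p0 ≤ b + (c - r0) := m0 5
  have m06 : p0 ≤ b + (c - r0) + (c - r1) := m0 6
  have m07 : p0 ≤ b + (c - r0) + (c - r1) + (c - r2) := m0 7
  have m08 : p0 ≤ b + (c - r0) + (c - r1) + (c - r2) + (c - r3) := m0 8
  replace e0 : p0 = b ∨ p0 = b + (c + r4) ∨ p0 = b + (c + r4) + (c + r3) ∨ p0 = b + (c + r4) + (c + r3) + (c + r2) ∨ p0 = b + (c + r4) + (c + r3) + (c + r2) + (c + r1) ∨ p0 = b + (c - r0) ∨ p0 = b + (c - r0) + (c - r1) ∨ p0 = b + (c - r0) + (c - r1) + (c - r2) ∨ p0 = b + (c - r0) + (c - r1) + (c - r2) + (c - r3) := e0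
  clear m0
  obtain ⟨p1, m1, e1⟩ := exists_min9 ![b, b + (c + r0), b + (c + r0) + (c + r4), b + (c + r0) + (c + r4) + (c + r3), b + (c + r0) + (c + r4) + (c + r3) + (c + r2), b + (c - r1), b + (c - r1) + (c - r2), b + (c - r1) + (c - r2) + (c - r3), b + (c - r1) + (c - r2) + (c - r3) + (c - r4)]
  have m10 : p1 ≤ b := m1 0
  have m11 : p1 ≤ b + (c + r0) := m1 1
  have m12 : p1 ≤ b + (c + r0) + (c + r4) := m1 2
  have m13 : p1 ≤ b + (c + r0) + (c + r4) + (c + r3) := m1 3
  have m14 : p1 ≤ b + (c + r0) + (c + r4) + (c + r3) + (c + r2) := m1 4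
  have m15 : p1 ≤ b + (c - r1) := m1 5
  have m16 : p1 ≤ b + (c - r1) + (c - r2) := m1 6
  have m17 : p1 ≤ b + (c - r1) + (c - r2) + (c - r3) := m1 7
  have m18 : p1 ≤ b + (c - r1) + (c - r2) + (c - r3) + (c - r4) := m1 8
  replace e1 : p1 = b ∨ p1 = b + (c + r0) ∨ p1 = b + (c + r0) + (c + r4) ∨ p1 = b + (c + r0) + (c + r4) + (c + r3) ∨ p1 = b + (c + r0) + (c + r4) + (c + r3) + (c + r2) ∨ p1 = b + (c - r1) ∨ p1 = b + (c - r1) + (c - r2) ∨ p1 = b + (c - r1) + (c - r2) + (c - r3) ∨ p1 = b + (c - r1) + (c - r2) + (c - r3) + (c - r4) := e1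
  clear m1
  obtain ⟨p2, m2, e2⟩ := exists_min9 ![b, b + (c + r1), b + (c + r1) + (c + r0), b + (c + r1) + (c + r0) + (c + r4), b + (c + r1) + (c + r0) + (c + r4) + (c + r3), b + (c - r2), b + (c - r2) + (c - r3), b + (c - r2) + (c - r3) + (c - r4), b + (c - r2) + (c - r3) + (c - r4) + (c - r0)]
  have m20 : p2 ≤ b := m2 0
  have m21 : p2 ≤ b + (c + r1) := m2 1
  have m22 : p2 ≤ b + (c + r1) + (c + r0) := m2 2
  have m23 : p2 ≤ b + (c + r1) + (c + r0) + (c + r4) := m2 3
  have m24 : p2 ≤ b + (c + r1) + (c + r0) + (c + r4) + (c + r3) := m2 4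
  have m25 : p2 ≤ b + (c - r2) := m2 5
  have m26 : p2 ≤ b + (c - r2) + (c - r3) := m2 6
  have m27 : p2 ≤ b + (c - r2) + (c - r3) + (c - r4) := m2 7
  have m28 : p2 ≤ b + (c - r2) + (c - r3) + (c - r4) + (c - r0) := m2 8
  replace e2 : p2 = b ∨ p2 = b + (c + r1) ∨ p2 = b + (c + r1) + (c + r0) ∨ p2 = b + (c + r1) + (c + r0) + (c + r4) ∨ p2 = b + (c + r1) + (c + r0) + (c + r4) + (c + r3) ∨ p2 = b + (c - r2) ∨ p2 = b + (c - r2) + (c - r3) ∨ p2 = b + (c - r2) + (c - r3) + (c - r4) ∨ p2 = b + (c - r2) + (c - r3) + (c - r4) + (c - r0) := e2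
  clear m2
  obtain ⟨p3, m3, e3⟩ := exists_min9 ![b, b + (c + r2), b + (c + r2) + (c + r1), b + (c + r2) + (c + r1) + (c + r0), b + (c + r2) + (c + r1) + (c + r0) + (c + r4), b + (c - r3), b + (c - r3) + (c - r4), b + (c - r3) + (c - r4) + (c - r0), b + (c - r3) + (c - r4) + (c - r0) + (c - r1)]
  have m30 : p3 ≤ b := m3 0
  have m31 : p3 ≤ b + (c + r2) := m3 1
  have m32 : p3 ≤ b + (c + r2) + (c + r1) := m3 2
  have m33 : p3 ≤ b + (c + r2) + (c + r1) + (c + r0) := m3 3
  have m34 : p3 ≤ b + (c + r2) + (c + r1) + (c + r0) + (c + r4) := m3 4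
  have m35 : p3 ≤ b + (c - r3) := m3 5
  have m36 : p3 ≤ b + (c - r3) + (c - r4) := m3 6
  have m37 : p3 ≤ b + (c - r3) + (c - r4) + (c - r0) := m3 7
  have m38 : p3 ≤ b + (c - r3) + (c - r4) + (c - r0) + (c - r1) := m3 8
  replace e3 : p3 = b ∨ p3 = b + (c + r2) ∨ p3 = b + (c + r2) + (c + r1) ∨ p3 = b + (c + r2) + (c + r1) + (c + r0) ∨ p3 = b + (c + r2) + (c + r1) + (c + r0) + (c + r4) ∨ p3 = b + (c - r3) ∨ p3 = b + (c - r3) + (c - r4) ∨ p3 = b + (c - r3) + (c - r4) + (c - r0) ∨ p3 = b + (c - r3) + (c - r4) + (c - r0) + (c - r1) := e3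
  clear m3
  obtain ⟨p4, m4, e4⟩ := exists_min9 ![b, b + (c + r3), b + (c + r3) + (c + r2), b + (c + r3) + (c + r2) + (c + r1), b + (c + r3) + (c + r2) + (c + r1) + (c + r0), b + (c - r4), b + (c - r4) + (c - r0), b + (c - r4) + (c - r0) + (c - r1), b + (c - r4) + (c - r0) + (c - r1) + (c - r2)]
  have m40 : p4 ≤ b := m4 0
  have m41 : p4 ≤ b + (c + r3) := m4 1
  have m42 : p4 ≤ b + (c + r3) + (c + r2) := m4 2
  have m43 : p4 ≤ b + (c + r3) + (c + r2) + (c + r1) := m4 3
  have m44 : p4 ≤ b + (c + r3) + (c + r2) + (c + r1) + (c + r0) := m4 4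
  have m45 : p4 ≤ b + (c - r4) := m4 5
  have m46 : p4 ≤ b + (c - r4) + (c - r0) := m4 6
  have m47 : p4 ≤ b + (c - r4) + (c - r0) + (c - r1) := m4 7
  have m48 : p4 ≤ b + (c - r4) + (c - r0) + (c - r1) + (c - r2) := m4 8
  replace e4 : p4 = b ∨ p4 = b + (c + r3) ∨ p4 = b + (c + r3) + (c + r2) ∨ p4 = b + (c + r3) + (c + r2) + (c + r1) ∨ p4 = b + (c + r3) + (c + r2) + (c + r1) + (c + r0) ∨ p4 = b + (c - r4) ∨ p4 = b + (c - r4) + (c - r0) ∨ p4 = b + (c - r4) + (c - r0) + (c - r1) ∨ p4 = b + (c - r4) + (c - r0) + (c - r1) + (c - r2) := e4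
  clear m4
  have l0 : -b ≤ p0 := by
    rcases e0 with h | h | h | h | h | h | h | h | h
    · linarith only [h, hb]
    · linarith only [h, hb, hc, h14a, h14b]
    · linarith only [h, hb, hc, h23a, h23b]
    · linarith only [h, hb, hc, h32a, h32b]
    · linarith only [h, hb, hc, h41a, h41b]
    · linarith only [h, hb, hc, h10a, h10b]
    · linarith only [h, hb, hc, h20a, h20b]
    · linarith only [h, hb, hc, h30a, h30b]
    · linarith only [h, hb, hc, h40a, h40b]
  have l1 : -b ≤ p1 := by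
    rcases e1 with h | h | h | h | h | h | h | h | h
    · linarith only [h, hb]
    · linarith only [h, hb, hc, h10a, h10b]
    · linarith only [h, hb, hc, h24a, h24b]
    · linarith only [h, hb, hc, h33a, h33b]
    · linarith only [h, hb, hc, h42a, h42b]
    · linarith only [h, hb, hc, h11a, h11b]
    · linarith only [h, hb, hc, h21a, h21b]
    · linarith only [h, hb, hc, h31a, h31b]
    · linarith only [h, hb, hc, h41a, h41b]
  have l2 : -b ≤ p2 := by
    rcases e2 with h | h | h | h | h | h | h | h | h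
    · linarith only [h, hb]
    · linarith only [h, hb, hc, h11a, h11b]
    · linarith only [h, hb, hc, h20a, h20b]
    · linarith only [h, hb, hc, h34a, h34b]
    · linarith only [h, hb, hc, h43a, h43b]
    · linarith only [h, hb, hc, h12a, h12b]
    · linarith only [h, hb, hc, h22a, h22b]
    · linarith only [h, hb, hc, h32a, h32b]
    · linarith only [h, hb, hc, h42a, h42b]
  have l3 : -b ≤ p3 := by
    rcases e3 with h | h | h | h | h | h | h | h | h
    · linarith only [h, hb]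
    · linarith only [h, hb, hc, h12a, h12b]
    · linarith only [h, hb, hc, h21a, h21b]
    · linarith only [h, hb, hc, h30a, h30b]
    · linarith only [h, hb, hc, h44a, h44b]
    · linarith only [h, hb, hc, h13a, h13b]
    · linarith only [h, hb, hc, h23a, h23b]
    · linarith only [h, hb, hc, h33a, h33b]
    · linarith only [h, hb, hc, h43a, h43b]
  have l4 : -b ≤ p4 := by
    rcases e4 with h | h | h | h | h | h | h | h | h
    · linarith only [h, hb]
    · linarith only [h, hb, hc, h13a, h13b]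
    · linarith only [h, hb, hc, h22a, h22b]
    · linarith only [h, hb, hc, h31a, h31b]
    · linarith only [h, hb, hc, h40a, h40b]
    · linarith only [h, hb, hc, h14a, h14b]
    · linarith only [h, hb, hc, h24a, h24b]
    · linarith only [h, hb, hc, h34a, h34b]
    · linarith only [h, hb, hc, h44a, h44b]
  have u0 : p1 ≤ p0 + (c + r0) := by
    rcases e0 with h | h | h | h | h | h | h | h | h
    · linarith only [h, m11]
    · linarith only [h, m12]
    · linarith only [h, m13]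
    · linarith only [h, m14]
    · linarith only [h, m10, h5a]
    · linarith only [h, m10, hc]
    · linarith only [h, m15, hc]
    · linarith only [h, m16, hc]
    · linarith only [h, m17, hc]
  have v0 : p0 ≤ p1 + (c - r0) := by
    rcases e1 with h | h | h | h | h | h | h | h | h
    · linarith only [h, m05]
    · linarith only [h, m00, hc]
    · linarith only [h, m01, hc]
    · linarith only [h, m02, hc]
    · linarith only [h, m03, hc]
    · linarith only [h, m06]
    · linarith only [h, m07]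
    · linarith only [h, m08]
    · linarith only [h, m00, h5b]
  have u1 : p2 ≤ p1 + (c + r1) := by
    rcases e1 with h | h | h | h | h | h | h | h | h
    · linarith only [h, m21]
    · linarith only [h, m22]
    · linarith only [h, m23]
    · linarith only [h, m24]
    · linarith only [h, m20, h5a]
    · linarith only [h, m20, hc]
    · linarith only [h, m25, hc]
    · linarith only [h, m26, hc]
    · linarith only [h, m27, hc]
  have v1 : p1 ≤ p2 + (c - r1) := by
    rcases e2 with h | h | h | h | h | h | h | h | h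
    · linarith only [h, m15]
    · linarith only [h, m10, hc]
    · linarith only [h, m11, hc]
    · linarith only [h, m12, hc]
    · linarith only [h, m13, hc]
    · linarith only [h, m16]
    · linarith only [h, m17]
    · linarith only [h, m18]
    · linarith only [h, m10, h5b]
  have u2 : p3 ≤ p2 + (c + r2) := by
    rcases e2 with h | h | h | h | h | h | h | h | h
    · linarith only [h, m31]
    · linarith only [h, m32]
    · linarith only [h, m33]
    · linarith only [h, m34]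
    · linarith only [h, m30, h5a]
    · linarith only [h, m30, hc]
    · linarith only [h, m35, hc]
    · linarith only [h, m36, hc]
    · linarith only [h, m37, hc]
  have v2 : p2 ≤ p3 + (c - r2) := by
    rcases e3 with h | h | h | h | h | h | h | h | h
    · linarith only [h, m25]
    · linarith only [h, m20, hc]
    · linarith only [h, m21, hc]
    · linarith only [h, m22, hc]
    · linarith only [h, m23, hc]
    · linarith only [h, m26]
    · linarith only [h, m27]
    · linarith only [h, m28]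
    · linarith only [h, m20, h5b]
  have u3 : p4 ≤ p3 + (c + r3) := by
    rcases e3 with h | h | h | h | h | h | h | h | h
    · linarith only [h, m41]
    · linarith only [h, m42]
    · linarith only [h, m43]
    · linarith only [h, m44]
    · linarith only [h, m40, h5a]
    · linarith only [h, m40, hc]
    · linarith only [h, m45, hc]
    · linarith only [h, m46, hc]
    · linarith only [h, m47, hc]
  have v3 : p3 ≤ p4 + (c - r3) := by
    rcases e4 with h | h | h | h | h | h | h | h | h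
    · linarith only [h, m35]
    · linarith only [h, m30, hc]
    · linarith only [h, m31, hc]
    · linarith only [h, m32, hc]
    · linarith only [h, m33, hc]
    · linarith only [h, m36]
    · linarith only [h, m37]
    · linarith only [h, m38]
    · linarith only [h, m30, h5b]
  have u4 : p0 ≤ p4 + (c + r4) := by
    rcases e4 with h | h | h | h | h | h | h | h | h
    · linarith only [h, m01]
    · linarith only [h, m02]
    · linarith only [h, m03]
    · linarith only [h, m04]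
    · linarith only [h, m00, h5a]
    · linarith only [h, m00, hc]
    · linarith only [h, m05, hc]
    · linarith only [h, m06, hc]
    · linarith only [h, m07, hc]
  have v4 : p4 ≤ p0 + (c - r4) := by
    rcases e0 with h | h | h | h | h | h | h | h | h
    · linarith only [h, m45]
    · linarith only [h, m40, hc]
    · linarith only [h, m41, hc]
    · linarith only [h, m42, hc]
    · linarith only [h, m43, hc]
    · linarith only [h, m46]
    · linarith only [h, m47]
    · linarith only [h, m48]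
    · linarith only [h, m40, h5b]
  refine ⟨p0, p1, p2, p3, p4, ⟨?_, ?_, ?_, ?_, ?_⟩, ⟨?_, ?_, ?_, ?_, ?_⟩⟩
  · exact abs_le.mpr ⟨l0, m00⟩
  · exact abs_le.mpr ⟨l1, m10⟩
  · exact abs_le.mpr ⟨l2, m20⟩
  · exact abs_le.mpr ⟨l3, m30⟩
  · exact abs_le.mpr ⟨l4, m40⟩
  · exact abs_le.mpr ⟨by linarith only [u0], by linarith only [v0]⟩
  · exact abs_le.mpr ⟨by linarith only [u1], by linarith only [v1]⟩
  · exact abs_le.mpr ⟨by linarith only [u2], by linarith only [v2]⟩
  · exact abs_le.mpr ⟨by linarith only [u3], by linarith only [v3]⟩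
  · exact abs_le.mpr ⟨by linarith only [u4], by linarith only [v4]⟩

end Pool.Agent.Helper520
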