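import Pool.Agent.Helper520_wt.Core
import Pool.Agent.Helper520_wt.Cyc
import Pool.Agent.Helper520_wt.Local5
import Pool.Agent.Helper520_wt.Round20

set_option autoImplicit false
set_option linter.unusedSectionVars false

/-!
Planar graphs of maximum degree three whose cycles of length five are isolated.
-/

namespace Pool.Agent.Helper520

open SimpleGraph Pool.Agent.H239R2.Planar
open Pool.Agent.R50.OddCycle (Closed)

noncomputable section

open Classical

/-! ### Counting along a cyclic sequence -/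

theorem sum_shift (n : ℕ) (h : ℕ → ℕ) (hp : h n = h 0) :
    ∑ i ∈ Finset.range n, h (i + 1) = ∑ i ∈ Finset.range n, h i := by
  have h1 := Finset.sum_range_succ h n
  have h2 := Finset.sum_range_succ' h n
  omega

theorem count_cycle (n : ℕ) (hn : 9 ≤ n) (A P : ℕ → Prop)
    (hA : ∀ i, A i → P i ∧ P (i + 1)) (hP : ∀ i, P (i + 1) → A i ∨ A (i + 1))
    (perA : A n ↔ A 0) (perP : P n ↔ P 0)
    (h9 : n = 9 → ∑ i ∈ Finset.range 9, (if P i then 0 else 1) ≠ 1) :
    105 ≤ ∑ i ∈ Finset.range n, (if A i then 21 else if P i ∧ P (i + 1) then 0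
      else if P i ∨ P (i + 1) then 7 else 15) := by
  set iA : ℕ → ℕ := fun i => if A i then 1 else 0 with hiA
  set iS : ℕ → ℕ := fun i => if ¬ (P i ↔ P (i + 1)) then 1 else 0 with hiS
  set iD : ℕ → ℕ := fun i => if ¬ A i ∧ P i ∧ P (i + 1) then 1 else 0 with hiD
  set iO : ℕ → ℕ := fun i => if ¬ P i ∧ ¬ P (i + 1) then 1 else 0 with hiO
  set q : ℕ → ℕ := fun i => if P i ∧ ¬ A i then 1 else 0 with hq
  set q' : ℕ → ℕ := fun i => if P (i + 1) ∧ ¬ A i then 1 else 0 with hq'
  set u : ℕ → ℕ := fun i => if P i then 0 else 1 with hu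
  have e1 : ∀ i, iA i + iS i + iD i + iO i = 1 := by
    intro i
    have := hA i
    simp only [hiA, hiS, hiD, hiO]
    by_cases a : A i <;> by_cases b : P i <;> by_cases c : P (i + 1) <;> simp_all
  have e2 : ∀ i, q i + q' i = iS i + 2 * iD i := by
    intro i
    have := hA i
    simp only [hiS, hiD, hq, hq']
    by_cases a : A i <;> by_cases b : P i <;> by_cases c : P (i + 1) <;> simp_all
  have e3 : ∀ i, q' i + q (i + 1) ≤ iA i + iA (i + 1) := by
    intro i
    have h1 := hA i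
    have h2 := hA (i + 1)
    have h3 := hP i
    simp only [hiA, hq, hq']
    by_cases a : A i <;> by_cases b : A (i + 1) <;> by_cases c : P (i + 1) <;> simp_all
  have e4 : ∀ i, u i + u (i + 1) = iS i + 2 * iO i := by
    intro i
    simp only [hiS, hiO, hu]
    by_cases b : P i <;> by_cases c : P (i + 1) <;> simp_all
  have e5 : ∀ i, (if A i then 21 else if P i ∧ P (i + 1) then 0
      else if P i ∨ P (i + 1) then 7 else 15) = 21 * iA i + 7 * iS i + 15 * iO i := by
    intro i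
    have := hA i
    simp only [hiA, hiS, hiO]
    by_cases a : A i <;> by_cases b : P i <;> by_cases c : P (i + 1) <;> simp_all
  have sA : ∑ i ∈ Finset.range n, iA (i + 1) = ∑ i ∈ Finset.range n, iA i :=
    sum_shift n iA (by simp only [hiA, perA])
  have sq : ∑ i ∈ Finset.range n, q (i + 1) = ∑ i ∈ Finset.range n, q i :=
    sum_shift n q (by simp only [hq, perA, perP])
  have su : ∑ i ∈ Finset.range n, u (i + 1) = ∑ i ∈ Finset.range n, u i :=
    sum_shift n u (by simp only [hu, perP])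
  have t1 : ∑ i ∈ Finset.range n, iA i + ∑ i ∈ Finset.range n, iS i + ∑ i ∈ Finset.range n, iD i
      + ∑ i ∈ Finset.range n, iO i = n := by
    rw [← Finset.sum_add_distrib, ← Finset.sum_add_distrib, ← Finset.sum_add_distrib,
      Finset.sum_congr rfl fun i _ => e1 i]
    simp
  have t2 : ∑ i ∈ Finset.range n, iS i + 2 * ∑ i ∈ Finset.range n, iD i
      ≤ 2 * ∑ i ∈ Finset.range n, iA i := by
    have h1 := Finset.sum_le_sum fun i (_ : i ∈ Finset.range n) => e3 i
    rw [Finset.sum_add_distrib, Finset.sum_add_distrib, sA, sq] at h1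
    have h2 := Finset.sum_congr rfl fun i (_ : i ∈ Finset.range n) => e2 i
    rw [Finset.sum_add_distrib, Finset.sum_add_distrib, ← Finset.mul_sum] at h2
    omega
  have t3 : 2 * ∑ i ∈ Finset.range n, u i = ∑ i ∈ Finset.range n, iS i
      + 2 * ∑ i ∈ Finset.range n, iO i := by
    have h2 := Finset.sum_congr rfl fun i (_ : i ∈ Finset.range n) => e4 i
    rw [Finset.sum_add_distrib, Finset.sum_add_distrib, ← Finset.mul_sum, su] at h2
    omega
  have t4 : ∑ i ∈ Finset.range n, iS i = 0 → ∑ i ∈ Finset.range n, iA i ≠ 0 →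
      ∑ i ∈ Finset.range n, iO i = 0 := by
    intro h1 h2
    rw [Finset.sum_eq_zero_iff] at h1
    have h3 : ∀ i, i < n → (P i ↔ P (i + 1)) := by
      intro i hi
      by_contra hcon
      have := h1 i (Finset.mem_range.mpr hi)
      simp only [hiS, if_pos hcon] at this
      omega
    have h4 : ∀ i, i ≤ n → (P i ↔ P 0) := by
      intro i
      induction i with
      | zero => intro _; exact Iff.rfl
      | succ i ih => intro hi; rw [← h3 i (by omega)]; exact ih (by omega)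
    obtain ⟨i, hi, hi2⟩ := Finset.exists_ne_zero_of_sum_ne_zero h2
    rw [Finset.mem_range] at hi
    have h5 : A i := by
      by_contra hcon
      simp only [hiA, if_neg hcon] at hi2
      exact hi2 rfl
    have h6 : P 0 := (h4 i hi.le).mp (hA i h5).1
    rw [Finset.sum_eq_zero_iff]
    intro l hl
    rw [Finset.mem_range] at hl
    have h7 : P l := (h4 l hl.le).mpr h6
    simp [hiO, h7]
  have t5 : n = 9 → ∑ i ∈ Finset.range n, u i ≠ 1 := by
    intro h
    rw [h]
    exact h9 h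
  rw [Finset.sum_congr rfl fun i _ => e5 i, Finset.sum_add_distrib, Finset.sum_add_distrib,
    ← Finset.mul_sum, ← Finset.mul_sum, ← Finset.mul_sum]
  generalize ∑ i ∈ Finset.range n, iA i = a at *
  generalize ∑ i ∈ Finset.range n, iS i = b at *
  generalize ∑ i ∈ Finset.range n, iD i = c at *
  generalize ∑ i ∈ Finset.range n, iO i = d at *
  generalize ∑ i ∈ Finset.range n, u i = x at *
  by_contra hcon
  push Not at hcon
  have ha : a ≤ 4 := by omega
  by_cases hb : b = 0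
  · by_cases ha0 : a = 0
    · omega
    · have := t4 hb ha0
      omega
  · by_cases h : n = 9
    · have := t5 h
      interval_cases a <;> omega
    · interval_cases a <;> omega

/-! ### Graphs with isolated 5-cycles -/

variable {V : Type} (G : SimpleGraph V)

/-- `v` lies on a cycle of length five -/
def On5 (v : V) : Prop := ∃ a : Fin 5 → V, Cyc G 5 a ∧ ∃ i, a i = v

/-- `e` is an edge of a cycle of length five -/
def E5 (e : Sym2 V) : Prop := ∃ a : Fin 5 → V, Cyc G 5 a ∧ ∃ i, e = s(a i, a (i + 1))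

/-- the standing assumptions -/
structure Iso5 : Prop where
  tri : G.CliqueFree 3
  deg : ∀ v, (G.neighborSet v).ncard ≤ 3
  disj : ∀ a b : Fin 5 → V, Cyc G 5 a → Cyc G 5 b → ∀ i j, a i = b j → Set.range a = Set.range b
  no7 : ∀ (a : Fin 5 → V) (b : Fin 7 → V), Cyc G 5 a → Cyc G 7 b → ∀ i j, a i ≠ b j
  no9 : ∀ b : Fin 9 → V, Cyc G 9 b → (Finset.univ.filter fun i => ¬ On5 G (b i)).card ≠ 1

variable {G}

theorem E5.on5 {u v : V} (h : E5 G s(u, v)) : On5 G u ∧ On5 G v := by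
  obtain ⟨a, ha, i, hi⟩ := h
  rw [Sym2.eq_iff] at hi
  rcases hi with ⟨h1, h2⟩ | ⟨h1, h2⟩
  · exact ⟨⟨a, ha, i, h1.symm⟩, ⟨a, ha, i + 1, h2.symm⟩⟩
  · exact ⟨⟨a, ha, i + 1, h1.symm⟩, ⟨a, ha, i, h2.symm⟩⟩

theorem no_tri (h : G.CliqueFree 3) {x y z : V} (h1 : G.Adj x y) (h2 : G.Adj y z)
    (h3 : G.Adj x z) : False := by
  apply h {x, y, z}
  rw [is3Clique_triple_iff]
  exact ⟨h1, h3, h2⟩

/-- a cycle of length five in a triangle-free graph has no chord -/
theorem chordless (h : G.CliqueFree 3) {a : Fin 5 → V} (ha : Cyc G 5 a) {i j : Fin 5}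
    (hij : G.Adj (a i) (a j)) : j = i + 1 ∨ i = j + 1 := by
  by_contra hcon
  push Not at hcon
  have hne : i ≠ j := fun h => by subst h; exact hij.ne rfl
  have h2 : j = i + 1 + 1 ∨ i = j + 1 + 1 := by
    revert hcon hne
    clear hij ha
    revert i j
    decide
  rcases h2 with h2 | h2
  · rw [h2] at hij
    exact no_tri h (ha.2 i) (ha.2 (i + 1)) hij
  · rw [h2] at hij
    exact no_tri h (ha.2 j) (ha.2 (j + 1)) hij.symm

/-- at a vertex of a cycle of length five at most one edge is not on a cycle of length five -/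
theorem one_spoke [Finite V] (H : Iso5 G) {v x y : V} (hv : On5 G v) (hx : G.Adj v x)
    (hy : G.Adj v y) (hxy : x ≠ y) (h1 : ¬ E5 G s(v, x)) (h2 : ¬ E5 G s(v, y)) : False := by
  obtain ⟨a, ha, i, rfl⟩ := hv
  have hp : G.Adj (a i) (a (i - 1)) := by
    have := ha.2 (i - 1)
    rw [sub_add_cancel] at this
    exact this.symm
  have hq : G.Adj (a i) (a (i + 1)) := ha.2 i
  have e1 : E5 G s(a i, a (i + 1)) := ⟨a, ha, i, rfl⟩
  have e2 : E5 G s(a i, a (i - 1)) := ⟨a, ha, i - 1, by rw [sub_add_cancel]; exact Sym2.eq_swap⟩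
  have hne : a (i + 1) ≠ a (i - 1) := by
    intro h
    have h3 := ha.1 h
    revert h3
    clear e1 e2 hp hq h1 h2 hx hy h
    revert i
    decide
  have hx1 : x ≠ a (i + 1) := fun h => h1 (h ▸ e1)
  have hx2 : x ≠ a (i - 1) := fun h => h1 (h ▸ e2)
  have hy1 : y ≠ a (i + 1) := fun h => h2 (h ▸ e1)
  have hy2 : y ≠ a (i - 1) := fun h => h2 (h ▸ e2)
  have hsub : ({x, y, a (i + 1), a (i - 1)} : Set V) ⊆ G.neighborSet (a i) := by
    intro z hz
    simp only [Set.mem_insert_iff, Set.mem_singleton_iff] at hz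
    rw [mem_neighborSet]
    rcases hz with rfl | rfl | rfl | rfl
    · exact hx
    · exact hy
    · exact hq
    · exact hp
  have hcard := Set.ncard_le_ncard hsub (Set.toFinite _)
  have h4 : ({x, y, a (i + 1), a (i - 1)} : Set V).ncard = 4 := by
    rw [Set.ncard_insert_of_notMem (by simp [hxy, hx1, hx2]),
      Set.ncard_insert_of_notMem (by simp [hy1, hy2]),
      Set.ncard_pair hne]
  have := H.deg (a i)
  omega

/-- the weight of an edge -/
def wt (G : SimpleGraph V) (j : ℕ) (e : Sym2 V) : ℕ :=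
  if E5 G e then 21 * j else if ∀ x ∈ e, On5 G x then 1
    else if ∃ x ∈ e, On5 G x then 7 * j else 15 * j

theorem wt_odd (j : ℕ) (hj : Odd j) (e : Sym2 V) : Odd (wt G j e) := by
  unfold wt
  split_ifs
  · exact (by decide : Odd 21).mul hj
  · exact odd_one
  · exact (by decide : Odd 7).mul hj
  · exact (by decide : Odd 15).mul hj

theorem wt_mk (j : ℕ) (u v : V) : wt G j s(u, v) =
    if E5 G s(u, v) then 21 * j else if On5 G u ∧ On5 G v then 1
    else if On5 G u ∨ On5 G v then 7 * j else 15 * j := by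
  unfold wt
  simp [Sym2.mem_iff]

/-- every odd cycle has weight at least `105 j` -/
theorem wt_cycle [Finite V] (H : Iso5 G) (j n : ℕ) (f : ℕ → V) (hn : Odd n) (hn3 : 3 ≤ n)
    (hf : Closed G n f) (hinj : ∀ i < n, ∀ j < n, f i = f j → i = j) :
    105 * j ≤ ∑ i ∈ Finset.range n, wt G j s(f i, f (i + 1)) := by
  -- length three
  by_cases h3 : n = 3
  · exfalso
    subst h3
    have h1 := hf.2 0 (by norm_num)
    have h2 := hf.2 1 (by norm_num)
    have h4 := hf.2 2 (by norm_num)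
    have h5 : f (2 + 1) = f 0 := hf.1.symm
    rw [h5] at h4
    exact no_tri H.tri h1 h2 h4.symm
  by_cases h5 : n = 5
  · subst h5
    have hc : Cyc G 5 (fun i => f i.1) := cyc_of_closed hf hinj
    have h1 : ∀ i ∈ Finset.range 5, wt G j s(f i, f (i + 1)) = 21 * j := by
      intro i hi
      rw [Finset.mem_range] at hi
      unfold wt
      rw [if_pos]
      refine ⟨_, hc, ⟨i, hi⟩, ?_⟩
      by_cases hi4 : i = 4
      · subst hi4
        have : f (4 + 1) = f 0 := hf.1.symm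
        rw [this]
        rfl
      · have h2 : ((⟨i, hi⟩ + 1 : Fin 5)).1 = i + 1 := by
          have : i < 4 := by omega
          interval_cases i <;> rfl
        show s(f i, f (i + 1)) = s(f i, f (⟨i, hi⟩ + 1 : Fin 5).1)
        rw [h2]
    rw [Finset.sum_congr rfl h1]
    simp
    omega
  by_cases h7 : n = 7
  · subst h7
    have hc : Cyc G 7 (fun i => f i.1) := cyc_of_closed hf hinj
    have h0 : ∀ i, i ≤ 7 → ¬ On5 G (f i) := by
      rintro i hi ⟨a, ha, l, hl⟩
      by_cases hi7 : i = 7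
      · subst hi7
        rw [← hf.1] at hl
        exact H.no7 a _ ha hc l 0 hl
      · exact H.no7 a _ ha hc l ⟨i, by omega⟩ hl
    have h1 : ∀ i ∈ Finset.range 7, wt G j s(f i, f (i + 1)) = 15 * j := by
      intro i hi
      rw [Finset.mem_range] at hi
      rw [wt_mk, if_neg (fun h => h0 i hi.le h.on5.1), if_neg (fun h => h0 i hi.le h.1),
        if_neg (fun h => h.elim (h0 i hi.le) (h0 (i + 1) hi))]
    rw [Finset.sum_congr rfl h1]
    simp
    omega
  have h9 : 9 ≤ n := by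
    obtain ⟨k, hk⟩ := hn
    omega
  -- the general case: extend the cycle periodically
  set g : ℕ → V := fun i => f (i % n) with hg
  have hg1 : ∀ i < n, g i = f i := fun i hi => by simp only [hg, Nat.mod_eq_of_lt hi]
  have hgn : g n = g 0 := by simp [hg]
  have hg2 : ∀ i < n, g (i + 1) = f (i + 1) := by
    intro i hi
    by_cases h : i + 1 < n
    · exact hg1 _ h
    · have h1 : i + 1 = n := by omega
      rw [h1, hgn, hg1 0 (by omega), hf.1]
  have hadj : ∀ i, G.Adj (g i) (g (i + 1)) := by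
    intro i
    have hi := Nat.mod_lt i (show 0 < n by omega)
    have h1 := hf.2 (i % n) hi
    have h2 : g (i + 1) = f (i % n + 1) := by
      rw [← hg2 _ hi]
      simp only [hg]
      rw [Nat.mod_add_mod]
    rw [h2]
    exact h1
  have hne : ∀ i, g i ≠ g (i + 2) := by
    intro i h
    simp only [hg] at h
    have h1 := hinj _ (Nat.mod_lt i (show 0 < n by omega)) _
      (Nat.mod_lt (i + 2) (show 0 < n by omega)) h
    have h2 : i ≡ i + 2 [MOD n] := h1
    have h3 := (Nat.modEq_iff_dvd' (by omega)).mp h2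
    rw [Nat.add_sub_cancel_left] at h3
    have := Nat.le_of_dvd (by norm_num) h3
    omega
  have key := count_cycle n h9 (fun i => E5 G s(g i, g (i + 1))) (fun i => On5 G (g i))
    (fun i h => E5.on5 h)
    (fun i hi => by
      by_contra hcon
      push Not at hcon
      refine one_spoke H hi (hadj i).symm (hadj (i + 1)) (hne i) ?_ hcon.2
      rw [Sym2.eq_swap]
      exact hcon.1)
    (by
      have h1 : g (n + 1) = g (0 + 1) := by simp [hg]
      rw [hgn, h1])
    (by rw [hgn])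
    (by
      intro h
      subst h
      have hc : Cyc G 9 (fun i => f i.1) := cyc_of_closed hf hinj
      have h1 := H.no9 _ hc
      rw [Finset.card_filter] at h1
      rw [Finset.sum_range]
      intro h2
      apply h1
      refine Eq.trans ?_ h2
      refine Finset.sum_congr rfl fun i _ => ?_
      rw [hg1 i.1 i.2]
      by_cases h3 : On5 G (f i.1) <;> simp [h3])
  refine le_trans (Nat.mul_le_mul_right j key) ?_
  rw [Finset.sum_mul]
  apply Finset.sum_le_sum
  intro i hi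
  rw [Finset.mem_range] at hi
  rw [wt_mk, hg1 i hi, hg2 i hi]
  split_ifs <;> omega

/-! ### Local repair at a cycle of length five -/

theorem local5 (φ : V → ℝ) (a : Fin 5 → V) (ha : Function.Injective a)
    (h : ∀ i, ∃ k : ℤ, |φ (a i) - φ (a (i + 1)) - 1 / 2 - k| ≤ 1 / 5) :
    ∃ ψ : V → ℝ, (∀ v, |ψ v| ≤ 3 / 40) ∧ ∀ i, ∃ k : ℤ,
      |(φ (a i) + ψ (a i)) - (φ (a (i + 1)) + ψ (a (i + 1))) - 1 / 2 - k| ≤ 3 / 20 := by
  choose k hk using h
  have h0 := hk 0
  have h1 := hk 1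
  have h2 := hk 2
  have h3 := hk 3
  have h4 := hk 4
  have e0 : (0 : Fin 5) + 1 = 1 := rfl
  have e1 : (1 : Fin 5) + 1 = 2 := rfl
  have e2 : (2 : Fin 5) + 1 = 3 := rfl
  have e3 : (3 : Fin 5) + 1 = 4 := rfl
  have e4 : (4 : Fin 5) + 1 = 0 := rfl
  rw [e0] at h0
  rw [e1] at h1
  rw [e2] at h2
  rw [e3] at h3
  rw [e4] at h4
  set r0 := φ (a 0) - φ (a 1) - 1 / 2 - k 0 with hr0
  set r1 := φ (a 1) - φ (a 2) - 1 / 2 - k 1 with hr1
  set r2 := φ (a 2) - φ (a 3) - 1 / 2 - k 2 with hr2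
  set r3 := φ (a 3) - φ (a 4) - 1 / 2 - k 3 with hr3
  set r4 := φ (a 4) - φ (a 0) - 1 / 2 - k 4 with hr4
  have hsum : r0 + r1 + r2 + r3 + r4 = -5 / 2 - ((k 0 + k 1 + k 2 + k 3 + k 4 : ℤ) : ℝ) := by
    rw [hr0, hr1, hr2, hr3, hr4]
    push_cast
    ring
  rw [abs_le] at h0 h1 h2 h3 h4
  obtain ⟨h0a, h0b⟩ := h0
  obtain ⟨h1a, h1b⟩ := h1
  obtain ⟨h2a, h2b⟩ := h2
  obtain ⟨h3a, h3b⟩ := h3
  obtain ⟨h4a, h4b⟩ := h4
  have hs : r0 + r1 + r2 + r3 + r4 = 1 / 2 ∨ r0 + r1 + r2 + r3 + r4 = -1 / 2 := by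
    have hu : ((k 0 + k 1 + k 2 + k 3 + k 4 : ℤ) : ℝ) ≤ -3 / 2 := by
      rw [← sub_nonneg]
      have : -3 / 2 - ((k 0 + k 1 + k 2 + k 3 + k 4 : ℤ) : ℝ) = r0 + r1 + r2 + r3 + r4 + 1 := by
        rw [hsum]; ring
      rw [this]; linarith
    have hl : (-7 / 2 : ℝ) ≤ ((k 0 + k 1 + k 2 + k 3 + k 4 : ℤ) : ℝ) := by
      rw [← sub_nonneg]
      have : ((k 0 + k 1 + k 2 + k 3 + k 4 : ℤ) : ℝ) - -7 / 2 = 1 - (r0 + r1 + r2 + r3 + r4) := by
        rw [hsum]; ring
      rw [this]; linarith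
    have hu' : k 0 + k 1 + k 2 + k 3 + k 4 ≤ -2 := by
      by_contra hcon
      have h5 : (-1 : ℤ) ≤ k 0 + k 1 + k 2 + k 3 + k 4 := by omega
      have h6 : ((-1 : ℤ) : ℝ) ≤ ((k 0 + k 1 + k 2 + k 3 + k 4 : ℤ) : ℝ) := by exact_mod_cast h5
      push_cast at h6 hu
      linarith
    have hl' : -3 ≤ k 0 + k 1 + k 2 + k 3 + k 4 := by
      by_contra hcon
      have h5 : k 0 + k 1 + k 2 + k 3 + k 4 ≤ (-4 : ℤ) := by omega
      have h6 : ((k 0 + k 1 + k 2 + k 3 + k 4 : ℤ) : ℝ) ≤ ((-4 : ℤ) : ℝ) := by exact_mod_cast h5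
      push_cast at h6 hl
      linarith
    have h7 : k 0 + k 1 + k 2 + k 3 + k 4 = -2 ∨ k 0 + k 1 + k 2 + k 3 + k 4 = -3 := by omega
    rcases h7 with h7 | h7
    · right; rw [hsum, h7]; norm_num
    · left; rw [hsum, h7]; norm_num
  clear_value r0 r1 r2 r3 r4
  obtain ⟨p0, p1, p2, p3, p4, ⟨b0, b1, b2, b3, b4⟩, c0, c1, c2, c3, c4⟩ :=
    local5_aux (3 / 40) (3 / 20) r0 r1 r2 r3 r4 (by norm_num) (by norm_num)
    (abs_le.mpr ⟨by linarith, by linarith⟩) (abs_le.mpr ⟨by linarith, by linarith⟩)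
    (abs_le.mpr ⟨by linarith, by linarith⟩) (abs_le.mpr ⟨by linarith, by linarith⟩)
    (abs_le.mpr ⟨by linarith, by linarith⟩) (abs_le.mpr ⟨by linarith, by linarith⟩)
    (abs_le.mpr ⟨by linarith, by linarith⟩) (abs_le.mpr ⟨by linarith, by linarith⟩)
    (abs_le.mpr ⟨by linarith, by linarith⟩) (abs_le.mpr ⟨by linarith, by linarith⟩)
    (abs_le.mpr ⟨by linarith, by linarith⟩) (abs_le.mpr ⟨by linarith, by linarith⟩)
    (abs_le.mpr ⟨by linarith, by linarith⟩) (abs_le.mpr ⟨by linarith, by linarith⟩)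
    (abs_le.mpr ⟨by linarith, by linarith⟩)
    (by rcases hs with hs | hs <;> exact abs_le.mpr ⟨by linarith, by linarith⟩)
    (by rcases hs with hs | hs <;> exact abs_le.mpr ⟨by linarith, by linarith⟩)
    (by rcases hs with hs | hs <;> exact abs_le.mpr ⟨by linarith, by linarith⟩)
    (by rcases hs with hs | hs <;> exact abs_le.mpr ⟨by linarith, by linarith⟩)
    (by rcases hs with hs | hs <;> exact abs_le.mpr ⟨by linarith, by linarith⟩)
    (by rcases hs with hs | hs <;> exact abs_le.mpr ⟨by linarith, by linarith⟩)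
  set p : Fin 5 → ℝ := ![p0, p1, p2, p3, p4] with hp
  refine ⟨Function.extend a p 0, ?_, ?_⟩
  · intro v
    by_cases hv : ∃ i, a i = v
    · obtain ⟨i, rfl⟩ := hv
      rw [ha.extend_apply]
      fin_cases i
      · exact b0
      · exact b1
      · exact b2
      · exact b3
      · exact b4
    · rw [Function.extend_apply' _ _ _ hv]
      simp only [Pi.zero_apply, abs_zero]
      norm_num
  · intro i
    rw [ha.extend_apply, ha.extend_apply]
    refine ⟨k i, ?_⟩
    fin_cases i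
    · have : (φ (a 0) + p 0) - (φ (a 1) + p 1) - 1 / 2 - k 0 = r0 + p0 - p1 := by
        rw [hr0]; simp [hp]; ring
      exact this ▸ c0
    · have : (φ (a 1) + p 1) - (φ (a 2) + p 2) - 1 / 2 - k 1 = r1 + p1 - p2 := by
        rw [hr1]; simp [hp]; ring
      exact this ▸ c1
    · have : (φ (a 2) + p 2) - (φ (a 3) + p 3) - 1 / 2 - k 2 = r2 + p2 - p3 := by
        rw [hr2]; simp [hp]; ring
      exact this ▸ c2
    · have : (φ (a 3) + p 3) - (φ (a 4) + p 4) - 1 / 2 - k 3 = r3 + p3 - p4 := by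
        rw [hr3]; simp [hp]; ring
      exact this ▸ c3
    · have : (φ (a 4) + p 4) - (φ (a 0) + p 0) - 1 / 2 - k 4 = r4 + p4 - p0 := by
        rw [hr4]; simp [hp]; ring
      exact this ▸ c4

/-! ### Assembly -/

theorem approx [Fintype V] (hpl : IsPlanar G) (H : Iso5 G) (j : ℕ) (hj : Odd j) :
    ∃ φ : V → ℝ, ∀ u v, G.Adj u v → ∃ k : ℤ, |φ u - φ v - 1 / 2 - k| ≤ 3 / 20 + 1 / (j : ℝ) := by
  have hj0 : 0 < j := hj.pos
  have hj1 : (0 : ℝ) < j := by exact_mod_cast hj0
  obtain ⟨N, φ, hN, hφ⟩ := weighted G hpl (wt G j) (fun e _ => wt_odd j hj e) (105 * j)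
    ((by decide : Odd 105).mul hj) (by omega)
    (fun n f hn hn3 hf hinj => wt_cycle H j n f hn hn3 hf hinj)
  have hN1 : (0 : ℝ) < N := by exact_mod_cast hN
  set κ : ℝ := (N : ℝ) / (((105 * j : ℕ) : ℝ) * N + 1) with hκ
  have hκ0 : 0 ≤ κ := by positivity
  have hκ1 : 105 * j * κ ≤ 1 := by
    have h1 : κ * (((105 * j : ℕ) : ℝ) * N + 1) = N := by
      rw [hκ]; field_simp
    push_cast at h1
    have h2 : (105 * j * κ - 1) * N ≤ 0 := by nlinarith
    nlinarith
  have hjκ : j * κ ≤ 1 / 105 := by linarith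
  have hκj : κ ≤ 1 / j := by
    rw [le_div_iff₀ hj1]
    have : κ * j = j * κ := by ring
    rw [this]; linarith
  -- the local corrections
  have hQ : ∀ S : Set V, ∃ ψ : V → ℝ, (∀ v, |ψ v| ≤ 3 / 40) ∧
      ((∃ a : Fin 5 → V, Cyc G 5 a ∧ Set.range a = S) → ∀ x ∈ S, ∀ y ∈ S, G.Adj x y →
        ∃ k : ℤ, |(φ x + ψ x) - (φ y + ψ y) - 1 / 2 - k| ≤ 3 / 20) := by
    intro S
    by_cases hS : ∃ a : Fin 5 → V, Cyc G 5 a ∧ Set.range a = S
    · obtain ⟨a, ha, rfl⟩ := hS
      obtain ⟨ψ, h1, h2⟩ := local5 φ a ha.1 (fun i => by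
        obtain ⟨k, hk⟩ := hφ _ _ (ha.2 i)
        refine ⟨k, hk.trans ?_⟩
        rw [wt_mk, if_pos ⟨a, ha, i, rfl⟩]
        push_cast
        nlinarith)
      refine ⟨ψ, h1, fun _ x hx y hy hxy => ?_⟩
      obtain ⟨i, rfl⟩ := hx
      obtain ⟨l, rfl⟩ := hy
      rcases chordless H.tri ha hxy with h3 | h3
      · rw [h3]; exact h2 i
      · rw [h3]
        obtain ⟨k, hk⟩ := h2 l
        refine ⟨-k - 1, ?_⟩
        have h4 : φ (a (l + 1)) + ψ (a (l + 1)) - (φ (a l) + ψ (a l)) - 1 / 2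
            - ((-k - 1 : ℤ) : ℝ) =
            -(φ (a l) + ψ (a l) - (φ (a (l + 1)) + ψ (a (l + 1))) - 1 / 2 - k) := by
          push_cast; ring
        rw [h4, abs_neg]
        exact hk
    · exact ⟨fun _ => 0, fun v => by simp only [abs_zero]; norm_num, fun h => absurd h hS⟩
  choose F hF1 hF2 using hQ
  set R : V → Set V := fun v =>
    {w | ∃ a : Fin 5 → V, Cyc G 5 a ∧ v ∈ Set.range a ∧ w ∈ Set.range a} with hR
  have hRr : ∀ (a : Fin 5 → V), Cyc G 5 a → ∀ i, R (a i) = Set.range a := by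
    intro a ha i
    ext w
    constructor
    · rintro ⟨b, hb, ⟨l, hl⟩, hw⟩
      rw [H.disj a b ha hb i l hl.symm]
      exact hw
    · intro hw
      exact ⟨a, ha, ⟨i, rfl⟩, hw⟩
  set θ : V → ℝ := fun v => if On5 G v then F (R v) v else 0 with hθ
  have hθ1 : ∀ v, |θ v| ≤ 3 / 40 := by
    intro v
    simp only [hθ]
    split_ifs
    · exact hF1 _ _
    · rw [abs_zero]; norm_num
  have hθ0 : ∀ v, ¬ On5 G v → θ v = 0 := fun v hv => by simp only [hθ, if_neg hv]
  have hj2 : (0 : ℝ) ≤ 1 / j := by positivity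
  refine ⟨fun v => φ v + θ v, fun u v huv => ?_⟩
  by_cases hE : E5 G s(u, v)
  · obtain ⟨hu, hv⟩ := hE.on5
    obtain ⟨a, ha, i, hi⟩ := hE
    have hmem : u ∈ Set.range a ∧ v ∈ Set.range a := by
      rw [Sym2.eq_iff] at hi
      rcases hi with ⟨h1, h2⟩ | ⟨h1, h2⟩
      · exact ⟨⟨i, h1.symm⟩, ⟨i + 1, h2.symm⟩⟩
      · exact ⟨⟨i + 1, h1.symm⟩, ⟨i, h2.symm⟩⟩
    have hRu : R u = Set.range a := by
      obtain ⟨l, rfl⟩ := hmem.1
      exact hRr a ha l
    have hRv : R v = Set.range a := by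
      obtain ⟨l, rfl⟩ := hmem.2
      exact hRr a ha l
    obtain ⟨k, hk⟩ := hF2 (Set.range a) ⟨a, ha, rfl⟩ u hmem.1 v hmem.2 huv
    refine ⟨k, ?_⟩
    simp only [hθ, if_pos hu, if_pos hv, hRu, hRv]
    linarith
  · obtain ⟨k, hk⟩ := hφ u v huv
    rw [wt_mk, if_neg hE] at hk
    refine ⟨k, ?_⟩
    have htri : |φ u + θ u - (φ v + θ v) - 1 / 2 - k| ≤ |φ u - φ v - 1 / 2 - k| + |θ u - θ v| := by
      have : φ u + θ u - (φ v + θ v) - 1 / 2 - k
          = (φ u - φ v - 1 / 2 - k) + (θ u - θ v) := by ring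
      rw [this]
      exact abs_add_le _ _
    refine htri.trans ?_
    by_cases h1 : On5 G u ∧ On5 G v
    · rw [if_pos h1] at hk
      have h2 : |θ u - θ v| ≤ 3 / 20 := by
        have ha := abs_le.mp (hθ1 u)
        have hb := abs_le.mp (hθ1 v)
        rw [abs_le]
        constructor <;> linarith
      push_cast at hk
      linarith
    · rw [if_neg h1] at hk
      by_cases h2 : On5 G u ∨ On5 G v
      · rw [if_pos h2] at hk
        have h3 : |θ u - θ v| ≤ 3 / 40 := by
          rcases h2 with h2 | h2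
          · rw [hθ0 v (fun h => h1 ⟨h2, h⟩), sub_zero]; exact hθ1 u
          · rw [hθ0 u (fun h => h1 ⟨h, h2⟩), zero_sub, abs_neg]; exact hθ1 v
        push_cast at hk
        nlinarith
      · rw [if_neg h2] at hk
        push Not at h2
        rw [hθ0 u h2.1, hθ0 v h2.2, sub_self, abs_zero]
        push_cast at hk
        nlinarith

/-- Planar graphs of maximum degree three with isolated 5-cycles have circular chromatic number at
most `20/7`. -/
theorem iso5_main [Fintype V] (hpl : IsPlanar G) (H : Iso5 G) :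
    ∃ c : V → ZMod 20, ∀ u v, G.Adj u v → 7 ≤ (c u - c v).val ∧ (c u - c v).val ≤ 13 := by
  obtain ⟨φ, hφ⟩ := limit20 (fun j hj => approx hpl H j hj)
  exact to20 φ hφ

end

end Pool.Agent.Helper520
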