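import Pool.Agent.Helper520_wt.General
import Pool.Agent.Helper520_wt.Far3

set_option autoImplicit false
set_option linter.unusedSectionVars false

/-!
The numbers of edges of the various kinds on a cycle, when the 5-cycles are disjoint.
-/

namespace Pool.Agent.Helper520

open SimpleGraph Pool.Agent.H239R2.Planar
open Pool.Agent.R50.OddCycle (Closed)

noncomputable section

open Classical

variable {V : Type} {G : SimpleGraph V}

theorem count_gen (n : ℕ) (A P : ℕ → Prop)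
    (hA : ∀ i, A i → P i ∧ P (i + 1)) (hP : ∀ i, P (i + 1) → A i ∨ A (i + 1))
    (perA : A n ↔ A 0) (perP : P n ↔ P 0) :
    ∃ a b c d u v : ℕ, a + b + c + d = n ∧ b + 2 * c = 2 * v ∧ 2 * u = b + 2 * d ∧ v ≤ a ∧
      u = ∑ i ∈ Finset.range n, (if P i then 0 else 1) ∧
      v = ∑ i ∈ Finset.range n, (if P i ∧ ¬ A i then 1 else 0) ∧
      c = ∑ i ∈ Finset.range n, (if ¬ A i ∧ P i ∧ P (i + 1) then 1 else 0) ∧
      ∀ wA wD wS wO : ℕ, ∑ i ∈ Finset.range n, (if A i then wA else if P i ∧ P (i + 1) then wD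
        else if P i ∨ P (i + 1) then wS else wO) = wA * a + wD * c + wS * b + wO * d := by
  set iA : ℕ → ℕ := fun i => if A i then 1 else 0 with hiA
  set iS : ℕ → ℕ := fun i => if ¬ (P i ↔ P (i + 1)) then 1 else 0 with hiS
  set iD : ℕ → ℕ := fun i => if ¬ A i ∧ P i ∧ P (i + 1) then 1 else 0 with hiD
  set iO : ℕ → ℕ := fun i => if ¬ P i ∧ ¬ P (i + 1) then 1 else 0 with hiO
  set q : ℕ → ℕ := fun i => if P i ∧ ¬ A i then 1 else 0 with hq
  set q' : ℕ → ℕ := fun i => if P (i + 1) ∧ ¬ A i then 1 else 0 with hq'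
  set u : ℕ → ℕ := fun i => if P i then 0 else 1 with hu
  set p : ℕ → ℕ := fun i => if P i then 1 else 0 with hp
  have e1 : ∀ i, iA i + iS i + iD i + iO i = 1 := by
    intro i
    have := hA i
    simp only [hiA, hiS, hiD, hiO]
    by_cases a : A i <;> by_cases b : P i <;> by_cases c : P (i + 1) <;> simp_all
  have e2 : ∀ i, q i + q' i = iS i + 2 * iD i := by
    intro i
    have := hA i
    simp only [hiS, hiD, hq, hq']
    by_cases a : A i <;> by_cases b : P i <;> by_cases c : P (i + 1) <;> simp_all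
  have e3 : ∀ i, q' i + q (i + 1) ≤ iA i + iA (i + 1) := by
    intro i
    have h1 := hA i
    have h2 := hA (i + 1)
    have h3 := hP i
    simp only [hiA, hq, hq']
    by_cases a : A i <;> by_cases b : A (i + 1) <;> by_cases c : P (i + 1) <;> simp_all
  have e4 : ∀ i, u i + u (i + 1) = iS i + 2 * iO i := by
    intro i
    simp only [hiS, hiO, hu]
    by_cases b : P i <;> by_cases c : P (i + 1) <;> simp_all
  have e5 : ∀ wA wD wS wO : ℕ, ∀ i, (if A i then wA else if P i ∧ P (i + 1) then wD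
      else if P i ∨ P (i + 1) then wS else wO)
      = wA * iA i + wD * iD i + wS * iS i + wO * iO i := by
    intro wA wD wS wO i
    have := hA i
    simp only [hiA, hiS, hiD, hiO]
    by_cases a : A i <;> by_cases b : P i <;> by_cases c : P (i + 1) <;> simp_all
  have e6 : ∀ i, q i + iA i = p i := by
    intro i
    have := hA i
    simp only [hiA, hq, hp]
    by_cases a : A i <;> by_cases b : P i <;> simp_all
  have e7 : ∀ i, q' i + iA i = p (i + 1) := by
    intro i
    have := hA i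
    simp only [hiA, hq', hp]
    by_cases a : A i <;> by_cases b : P (i + 1) <;> simp_all
  have sA : ∑ i ∈ Finset.range n, iA (i + 1) = ∑ i ∈ Finset.range n, iA i :=
    sum_shift n iA (by simp only [hiA, perA])
  have sq : ∑ i ∈ Finset.range n, q (i + 1) = ∑ i ∈ Finset.range n, q i :=
    sum_shift n q (by simp only [hq, perA, perP])
  have su : ∑ i ∈ Finset.range n, u (i + 1) = ∑ i ∈ Finset.range n, u i :=
    sum_shift n u (by simp only [hu, perP])
  have sp : ∑ i ∈ Finset.range n, p (i + 1) = ∑ i ∈ Finset.range n, p i :=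
    sum_shift n p (by simp only [hp, perP])
  have t1 : ∑ i ∈ Finset.range n, iA i + ∑ i ∈ Finset.range n, iS i + ∑ i ∈ Finset.range n, iD i
      + ∑ i ∈ Finset.range n, iO i = n := by
    rw [← Finset.sum_add_distrib, ← Finset.sum_add_distrib, ← Finset.sum_add_distrib,
      Finset.sum_congr rfl fun i _ => e1 i]
    simp
  have t6 : ∑ i ∈ Finset.range n, q i = ∑ i ∈ Finset.range n, q' i := by
    have h1 : ∑ i ∈ Finset.range n, (q i + iA i) = ∑ i ∈ Finset.range n, p i :=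
      Finset.sum_congr rfl fun i _ => e6 i
    have h2 : ∑ i ∈ Finset.range n, (q' i + iA i) = ∑ i ∈ Finset.range n, p (i + 1) :=
      Finset.sum_congr rfl fun i _ => e7 i
    rw [Finset.sum_add_distrib] at h1 h2
    rw [sp] at h2
    exact Nat.add_right_cancel (h1.trans h2.symm)
  have t2 : ∑ i ∈ Finset.range n, iS i + 2 * ∑ i ∈ Finset.range n, iD i
      = 2 * ∑ i ∈ Finset.range n, q i := by
    have h2 := Finset.sum_congr rfl fun i (_ : i ∈ Finset.range n) => e2 i
    rw [Finset.sum_add_distrib, Finset.sum_add_distrib, ← Finset.mul_sum] at h2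
    omega
  have t5 : ∑ i ∈ Finset.range n, q i ≤ ∑ i ∈ Finset.range n, iA i := by
    have h1 := Finset.sum_le_sum fun i (_ : i ∈ Finset.range n) => e3 i
    rw [Finset.sum_add_distrib, Finset.sum_add_distrib, sA, sq] at h1
    omega
  have t3 : 2 * ∑ i ∈ Finset.range n, u i = ∑ i ∈ Finset.range n, iS i
      + 2 * ∑ i ∈ Finset.range n, iO i := by
    have h2 := Finset.sum_congr rfl fun i (_ : i ∈ Finset.range n) => e4 i
    rw [Finset.sum_add_distrib, Finset.sum_add_distrib, ← Finset.mul_sum, su] at h2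
    omega
  refine ⟨_, _, _, _, _, _, t1, t2, t3, t5, rfl, rfl, rfl, fun wA wD wS wO => ?_⟩
  rw [Finset.sum_congr rfl fun i _ => e5 wA wD wS wO i, Finset.sum_add_distrib,
    Finset.sum_add_distrib, Finset.sum_add_distrib, ← Finset.mul_sum, ← Finset.mul_sum,
    ← Finset.mul_sum, ← Finset.mul_sum]

/-- the standing assumptions: triangle-free, maximum degree three, disjoint 5-cycles -/
structure Dis5 (G : SimpleGraph V) : Prop where
  tri : G.CliqueFree 3
  deg : ∀ v, (G.neighborSet v).ncard ≤ 3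
  disj : ∀ a b : Fin 5 → V, Cyc G 5 a → Cyc G 5 b → ∀ i j, a i = b j → Set.range a = Set.range b

theorem Dis5.eqS (H : Dis5 G) {S S' : Set V} (hS : IsQ G S) (hS' : IsQ G S') {v : V}
    (hv : v ∈ S) (hv' : v ∈ S') : S = S' := by
  obtain ⟨a, ha, rfl⟩ := hS
  obtain ⟨b, hb, rfl⟩ := hS'
  obtain ⟨i, hi⟩ := hv
  obtain ⟨j, hj⟩ := hv'
  exact H.disj a b ha hb i j (hi.trans hj.symm)

theorem e5_of_mem' (htri : G.CliqueFree 3) {S : Set V} (hS : IsQ G S) {u v : V} (hu : u ∈ S)
    (hv : v ∈ S) (huv : G.Adj u v) : E5 G s(u, v) := by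
  obtain ⟨a, ha, rfl⟩ := hS
  obtain ⟨i, rfl⟩ := hu
  obtain ⟨j, rfl⟩ := hv
  rcases chordless htri ha huv with h | h
  · exact ⟨a, ha, i, by rw [h]⟩
  · exact ⟨a, ha, j, by rw [h]; exact Sym2.eq_swap⟩

/-- a vertex outside a 5-cycle is not adjacent to two of its vertices -/
theorem Dis5.no_gap (H : Dis5 G) {S : Set V} (hS : IsQ G S) {x y z : V} (hx : x ∈ S) (hy : y ∈ S)
    (hxy : x ≠ y) (hz : z ∉ S) (h1 : G.Adj x z) (h2 : G.Adj z y) : False := by
  obtain ⟨a, ha, rfl⟩ := hS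
  -- the case of vertices at distance two
  have key : ∀ i : Fin 5, G.Adj (a i) z → G.Adj z (a (i + 2)) → False := by
    intro i g1 g2
    have hzi : ∀ l, z ≠ a l := fun l h => hz ⟨l, h.symm⟩
    -- the other path from `a (i+2)` to `a i` has the vertices `a (i+2), a (i+3), a (i+4), a i`
    set b : Fin 5 → V := ![z, a (i + 2), a (i + 3), a (i + 4), a i] with hb
    have hbc : Cyc G 5 b := by
      constructor
      · have hne : ∀ l m : Fin 5, l ≠ m → a l ≠ a m := fun l m h h' => h (ha.1 h')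
        have d1 : ∀ i : Fin 5, i + 2 ≠ i + 3 := by decide
        have d2 : ∀ i : Fin 5, i + 2 ≠ i + 4 := by decide
        have d3 : ∀ i : Fin 5, i + 2 ≠ i := by decide
        have d4 : ∀ i : Fin 5, i + 3 ≠ i + 4 := by decide
        have d5 : ∀ i : Fin 5, i + 3 ≠ i := by decide
        have d6 : ∀ i : Fin 5, i + 4 ≠ i := by decide
        have n1 := hne _ _ (d1 i)
        have n2 := hne _ _ (d2 i)
        have n3 := hne _ _ (d3 i)
        have n4 := hne _ _ (d4 i)
        have n5 := hne _ _ (d5 i)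
        have n6 := hne _ _ (d6 i)
        clear d1 d2 d3 d4 d5 d6 hne
        have z1 := hzi (i + 2)
        have z2 := hzi (i + 3)
        have z3 := hzi (i + 4)
        have z4 := hzi i
        intro l m hlm
        fin_cases l <;> fin_cases m <;> simp_all
      · have s1 : ∀ i : Fin 5, i + 2 + 1 = i + 3 := by decide
        have s2 : ∀ i : Fin 5, i + 3 + 1 = i + 4 := by decide
        have s3 : ∀ i : Fin 5, i + 4 + 1 = i := by decide
        have a1 := ha.2 (i + 2)
        have a2 := ha.2 (i + 3)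
        have a3 := ha.2 (i + 4)
        rw [s1 i] at a1
        rw [s2 i] at a2
        rw [s3 i] at a3
        intro l
        fin_cases l
        · exact g2
        · exact a1
        · exact a2
        · exact a3
        · exact g1
    have hr := H.disj a b ha hbc i 4 rfl
    exact hz (by rw [hr]; exact ⟨0, rfl⟩)
  obtain ⟨i, rfl⟩ := hx
  obtain ⟨j, rfl⟩ := hy
  have hij : i ≠ j := fun h => hxy (by rw [h])
  have hcases : j = i + 1 ∨ i = j + 1 ∨ j = i + 2 ∨ i = j + 2 := by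
    clear key h1 h2 hxy
    revert i j
    decide
  rcases hcases with h | h | h | h
  · rw [h] at h2
    exact no_tri H.tri h1 h2 (ha.2 i)
  · rw [h] at h1
    exact no_tri H.tri h2.symm h1.symm (ha.2 j)
  · rw [h] at h2
    exact key i h1 h2
  · rw [h] at h1
    exact key j h2.symm h1.symm


/-- the weight of an edge -/
def wtg (G : SimpleGraph V) (wA wD wS wO : ℕ) (e : Sym2 V) : ℕ :=
  if E5 G e then wA else if ∀ x ∈ e, On5 G x then wD
    else if ∃ x ∈ e, On5 G x then wS else wO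

theorem wtg_odd {wA wD wS wO : ℕ} (hA : Odd wA) (hD : Odd wD) (hS : Odd wS) (hO : Odd wO)
    (e : Sym2 V) : Odd (wtg G wA wD wS wO e) := by
  unfold wtg
  split_ifs
  · exact hA
  · exact hD
  · exact hS
  · exact hO

theorem wtg_mk (wA wD wS wO : ℕ) (u v : V) : wtg G wA wD wS wO s(u, v) =
    if E5 G s(u, v) then wA else if On5 G u ∧ On5 G v then wD
    else if On5 G u ∨ On5 G v then wS else wO := by
  unfold wtg
  simp [Sym2.mem_iff]

/-- data of a periodic cycle at an exit from a 5-cycle -/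
theorem Dis5.exit [Finite V] (H : Dis5 G) {n : ℕ} (hn : 3 ≤ n) {g : ℕ → V}
    (hper : ∀ i, g (i + n) = g i) (hadj : ∀ i, G.Adj (g i) (g (i + 1)))
    (hinj : ∀ i j, g i = g j → i % n = j % n) {i : ℕ} (hP : On5 G (g i))
    (hA : ¬ E5 G s(g i, g (i + 1))) :
    ∃ S : Set V, IsQ G S ∧ g i ∈ S ∧ g (i + (n - 1)) ∈ S ∧ g (i + 1) ∉ S ∧ g (i + 2) ∉ S := by
  obtain ⟨S, hS, hi⟩ := on5_iff.mp hP
  have hne : ∀ i, g i ≠ g (i + 2) := by
    intro i h
    have h2 : i ≡ i + 2 [MOD n] := hinj _ _ h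
    have h3 := (Nat.modEq_iff_dvd' (by omega)).mp h2
    rw [Nat.add_sub_cancel_left] at h3
    have := Nat.le_of_dvd (by norm_num) h3
    omega
  have h1 : g (i + 1) ∉ S := fun h => hA (e5_of_mem' H.tri hS hi h (hadj i))
  have e1 : g (i + (n - 1) + 1) = g i := by
    rw [← hper i]; congr 1; omega
  have e2 : g (i + (n - 1) + 2) = g (i + 1) := by
    rw [← hper (i + 1)]; congr 1; omega
  have h2 : G.Adj (g i) (g (i + (n - 1))) := by
    have := hadj (i + (n - 1))
    rw [e1] at this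
    exact this.symm
  have h3 : E5 G s(g i, g (i + (n - 1))) := by
    by_contra hcon
    have h4 := hne (i + (n - 1))
    rw [e2] at h4
    exact one_spoke' H.deg hP h2 (hadj i) h4 hcon hA
  refine ⟨S, hS, hi, ?_, h1, ?_⟩
  · obtain ⟨S', hS', hx, hy⟩ := mem_of_e5 h3
    rw [H.eqS hS hS' hi hx]
    exact hy
  · intro h5
    exact H.no_gap hS hi h5 (hne i) h1 (hadj i) (hadj (i + 1))

/-- A 7-cycle with three exits meets three different 5-cycles. -/
theorem Dis5.three [Finite V] (H : Dis5 G) {g : ℕ → V}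
    (hper : ∀ i, g (i + 7) = g i) (hadj : ∀ i, G.Adj (g i) (g (i + 1)))
    (hinj : ∀ i j, g i = g j → i % 7 = j % 7)
    (h3 : 3 ≤ ∑ i ∈ Finset.range 7, (if On5 G (g i) ∧ ¬ E5 G s(g i, g (i + 1)) then 1 else 0)) :
    ∃ S₁ S₂ S₃ : Set V, IsQ G S₁ ∧ IsQ G S₂ ∧ IsQ G S₃ ∧ S₁ ≠ S₂ ∧ S₁ ≠ S₃ ∧ S₂ ≠ S₃ ∧
      (∃ i < 7, g i ∈ S₁) ∧ (∃ i < 7, g i ∈ S₂) ∧ (∃ i < 7, g i ∈ S₃) := by
  rw [← Finset.card_filter] at h3
  obtain ⟨x, hx, y, hy, z, hz, hxy, hxz, hyz⟩ := Finset.two_lt_card.mp h3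
  have hmod : ∀ k, g (k % 7) = g k := fun k => (show Function.Periodic g 7 from hper).map_mod_nat k
  have hkey : ∀ i < 7, ∀ j < 7, i ≠ j → ∀ S S' : Set V, g i ∈ S → g (i + (7 - 1)) ∈ S →
      g (i + 1) ∉ S → g (i + 2) ∉ S → g j ∈ S' → g (j + (7 - 1)) ∈ S' → g (j + 1) ∉ S' →
      g (j + 2) ∉ S' → S ≠ S' := by
    intro i hi j hj hij S S' a1 a2 a3 a4 b1 b2 b3 b4 hSS
    subst hSS
    have hd : ∀ k l, g k ∈ S → g l ∉ S → k % 7 ≠ l % 7 := by
      intro k l hk hl h
      rw [← hmod k, h, hmod l] at hk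
      exact hl hk
    have c1 := hd _ _ a1 b3
    have c2 := hd _ _ a1 b4
    have c3 := hd _ _ a2 b4
    have c4 := hd _ _ b1 a3
    have c5 := hd _ _ b1 a4
    have c6 := hd _ _ b2 a4
    omega
  rw [Finset.mem_filter, Finset.mem_range] at hx hy hz
  obtain ⟨S₁, q1, a1, a2, a3, a4⟩ := H.exit (by norm_num) hper hadj hinj hx.2.1 hx.2.2
  obtain ⟨S₂, q2, b1, b2, b3, b4⟩ := H.exit (by norm_num) hper hadj hinj hy.2.1 hy.2.2
  obtain ⟨S₃, q3, c1, c2, c3, c4⟩ := H.exit (by norm_num) hper hadj hinj hz.2.1 hz.2.2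
  exact ⟨S₁, S₂, S₃, q1, q2, q3,
    hkey x hx.1 y hy.1 hxy S₁ S₂ a1 a2 a3 a4 b1 b2 b3 b4,
    hkey x hx.1 z hz.1 hxz S₁ S₃ a1 a2 a3 a4 c1 c2 c3 c4,
    hkey y hy.1 z hz.1 hyz S₂ S₃ b1 b2 b3 b4 c1 c2 c3 c4,
    ⟨x, hx.1, a1⟩, ⟨y, hy.1, b1⟩, ⟨z, hz.1, c1⟩⟩

/-- the numbers of edges of the various kinds on a cycle -/
theorem Dis5.numbers [Finite V] (H : Dis5 G) {n : ℕ} {f : ℕ → V} (hn : 7 ≤ n)
    (hf : Closed G n f) (hinj : ∀ i < n, ∀ j < n, f i = f j → i = j) :
    ∃ a b c d u v : ℕ, a + b + c + d = n ∧ b + 2 * c = 2 * v ∧ 2 * u = b + 2 * d ∧ v ≤ a ∧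
      (∀ wA wD wS wO : ℕ, ∑ i ∈ Finset.range n, wtg G wA wD wS wO s(f i, f (i + 1))
        = wA * a + wD * c + wS * b + wO * d) ∧
      (u ≠ 0 → ∃ i < n, ¬ On5 G (f i)) ∧
      (n = 7 → 3 ≤ v → ∃ S₁ S₂ S₃ : Set V, IsQ G S₁ ∧ IsQ G S₂ ∧ IsQ G S₃ ∧ S₁ ≠ S₂ ∧ S₁ ≠ S₃ ∧
        S₂ ≠ S₃ ∧ (∃ i < 7, f i ∈ S₁) ∧ (∃ i < 7, f i ∈ S₂) ∧ (∃ i < 7, f i ∈ S₃)) ∧
      ((∀ S S' : Set V, IsQ G S → IsQ G S' → S ≠ S' → ∀ s ∈ S, ∀ s' ∈ S', ∀ p : G.Walk s s',
        3 ≤ p.length) → c = 0 ∧ 2 * v ≤ u) := by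
  obtain ⟨g, hper, hg1, hg2, hadj, hinj'⟩ := exists_periodic (by omega) hf hinj
  have hne : ∀ i, g i ≠ g (i + 2) := by
    intro i h
    have h2 : i ≡ i + 2 [MOD n] := hinj' _ _ h
    have h3 := (Nat.modEq_iff_dvd' (by omega)).mp h2
    rw [Nat.add_sub_cancel_left] at h3
    have := Nat.le_of_dvd (by norm_num) h3
    omega
  have hgn : g n = g 0 := by
    have := hper 0
    rwa [Nat.zero_add] at this
  have hgn1 : g (n + 1) = g (0 + 1) := by
    have := hper 1
    rwa [Nat.add_comm 1 n] at this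
  have hgn2 : g (n + 2) = g (0 + 2) := by
    have := hper 2
    rwa [Nat.add_comm 2 n] at this
  obtain ⟨a, b, c, d, u, v, h1, h2, h3, h4, hu, hv, hc, hw⟩ := count_gen n
    (fun i => E5 G s(g i, g (i + 1))) (fun i => On5 G (g i))
    (fun i h => E5.on5 h)
    (fun i hi => by
      by_contra hcon
      push Not at hcon
      refine one_spoke' H.deg hi (hadj i).symm (hadj (i + 1)) (hne i) ?_ hcon.2
      rw [Sym2.eq_swap]
      exact hcon.1)
    (by rw [hgn, hgn1])
    (by rw [hgn])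
  refine ⟨a, b, c, d, u, v, h1, h2, h3, h4, ?_, ?_, ?_, ?_⟩
  · intro wA wD wS wO
    rw [← hw]
    refine Finset.sum_congr rfl fun i hi => ?_
    rw [Finset.mem_range] at hi
    rw [wtg_mk, hg1 i hi, hg2 i hi]
  · intro hu0
    rw [hu] at hu0
    obtain ⟨i, hi, hi2⟩ := Finset.exists_ne_zero_of_sum_ne_zero hu0
    rw [Finset.mem_range] at hi
    refine ⟨i, hi, ?_⟩
    rw [← hg1 i hi]
    intro h
    rw [if_pos h] at hi2
    exact hi2 rfl
  · intro h7 hv3
    subst h7
    rw [hv] at hv3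
    obtain ⟨S₁, S₂, S₃, q1, q2, q3, n12, n13, n23, ⟨i, hi, m1⟩, ⟨j, hj, m2⟩, ⟨k, hk, m3⟩⟩ :=
      H.three hper hadj hinj' hv3
    rw [hg1 i hi] at m1
    rw [hg1 j hj] at m2
    rw [hg1 k hk] at m3
    exact ⟨S₁, S₂, S₃, q1, q2, q3, n12, n13, n23, ⟨i, hi, m1⟩, ⟨j, hj, m2⟩, ⟨k, hk, m3⟩⟩
  · intro hd
    constructor
    · rw [hc]
      refine Finset.sum_eq_zero fun i _ => ?_
      rw [if_neg]
      rintro ⟨g1, g2, g3⟩
      obtain ⟨S, hS, hx⟩ := on5_iff.mp g2
      obtain ⟨S', hS', hy⟩ := on5_iff.mp g3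
      by_cases hSS : S = S'
      · subst hSS
        exact g1 (e5_of_mem' H.tri hS hx hy (hadj i))
      · have := hd S S' hS hS' hSS _ hx _ hy (Walk.cons (hadj i) Walk.nil)
        simp at this
    · -- every exit is followed by two vertices on no 5-cycle
      set q : ℕ → ℕ := fun i => if On5 G (g i) ∧ ¬ E5 G s(g i, g (i + 1)) then 1 else 0 with hq
      set w : ℕ → ℕ := fun i => if On5 G (g i) then 0 else 1 with hw'
      have hoff : ∀ i, On5 G (g i) → ¬ E5 G s(g i, g (i + 1)) →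
          ¬ On5 G (g (i + 1)) ∧ ¬ On5 G (g (i + 2)) := by
        intro i g2 g1
        obtain ⟨S, hS, m1, -, m3, m4⟩ := H.exit (by omega) hper hadj hinj' g2 g1
        constructor
        · intro g3
          obtain ⟨S', hS', hy⟩ := on5_iff.mp g3
          have hSS : S ≠ S' := fun h => m3 (h ▸ hy)
          have := hd S S' hS hS' hSS _ m1 _ hy (Walk.cons (hadj i) Walk.nil)
          simp at this
        · intro g3
          obtain ⟨S', hS', hy⟩ := on5_iff.mp g3
          have hSS : S ≠ S' := fun h => m4 (h ▸ hy)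
          have := hd S S' hS hS' hSS _ m1 _ hy
            (Walk.cons (hadj i) (Walk.cons (hadj (i + 1)) Walk.nil))
          simp at this
      have e1 : ∀ i, q i + q (i + 1) ≤ w (i + 2) := by
        intro i
        have f1 := hoff i
        have f2 := hoff (i + 1)
        simp only [hq, hw']
        by_cases x1 : On5 G (g i) ∧ ¬ E5 G s(g i, g (i + 1))
        · have := f1 x1.1 x1.2
          rw [if_pos x1, if_neg (fun h => this.1 h.1), if_neg this.2]
        · rw [if_neg x1]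
          by_cases x2 : On5 G (g (i + 1)) ∧ ¬ E5 G s(g (i + 1), g (i + 1 + 1))
          · have := f2 x2.1 x2.2
            rw [if_pos x2, if_neg this.1]
          · rw [if_neg x2]
            exact Nat.zero_le _
      have s1 : ∑ i ∈ Finset.range n, q (i + 1) = ∑ i ∈ Finset.range n, q i :=
        sum_shift n q (by simp only [hq, hgn, hgn1])
      have s2 : ∑ i ∈ Finset.range n, w (i + 1) = ∑ i ∈ Finset.range n, w i :=
        sum_shift n w (by simp only [hw', hgn])
      have s3 : ∑ i ∈ Finset.range n, w (i + 2) = ∑ i ∈ Finset.range n, w (i + 1) :=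
        sum_shift n (fun i => w (i + 1)) (by simp only [hw', hgn1])
      have s4 := Finset.sum_le_sum fun i (_ : i ∈ Finset.range n) => e1 i
      rw [Finset.sum_add_distrib, s1, s3, s2] at s4
      rw [hu, hv]
      linarith

end

end Pool.Agent.Helper520
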