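import Mathlib

set_option autoImplicit false

/-!
Potentials from nonnegative cycles: if every cycle of a graph has nonnegative cost in both
directions, then there is a potential.
-/

namespace Pool.Agent.Helper520

open SimpleGraph

variable {V : Type} {G : SimpleGraph V}

/-- the cost of a walk -/
def wcost (a : V → V → ℝ) : ∀ {u v : V}, G.Walk u v → ℝ
  | _, _, Walk.nil => 0
  | u, _, Walk.cons (v := w) _ p => a u w + wcost a p

@[simp] theorem wcost_nil (a : V → V → ℝ) (u : V) : wcost a (Walk.nil : G.Walk u u) = 0 := rfl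

@[simp] theorem wcost_cons (a : V → V → ℝ) {u w v : V} (h : G.Adj u w) (p : G.Walk w v) :
    wcost a (Walk.cons h p) = a u w + wcost a p := rfl

theorem wcost_append (a : V → V → ℝ) {u v w : V} (p : G.Walk u v) (q : G.Walk v w) :
    wcost a (p.append q) = wcost a p + wcost a q := by
  induction p with
  | nil => simp
  | cons h p ih => rw [Walk.cons_append, wcost_cons, wcost_cons, ih]; ring

theorem wcost_eq_sum (a : V → V → ℝ) {u v : V} (p : G.Walk u v) :
    wcost a p = ∑ i ∈ Finset.range p.length, a (p.getVert i) (p.getVert (i + 1)) := by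
  induction p with
  | nil => simp
  | cons h p ih =>
    rw [wcost_cons, Walk.length_cons, Finset.sum_range_succ', ih]
    simp only [Walk.getVert_cons_succ, Walk.getVert_zero]
    ring

theorem wcost_closed_nonneg (a : V → V → ℝ) (hback : ∀ u v, G.Adj u v → 0 ≤ a u v + a v u)
    (hcyc : ∀ u (p : G.Walk u u), p.IsCycle → 0 ≤ wcost a p)
    {u w : V} (h : G.Adj u w) (q : G.Walk w u) (hq : q.IsPath) :
    0 ≤ wcost a (Walk.cons h q) := by
  by_cases he : s(u, w) ∈ q.edges
  · cases q with
    | nil => exact absurd rfl h.ne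
    | @cons _ x _ h' q' =>
      rw [Walk.cons_isPath_iff] at hq
      rw [Walk.edges_cons, List.mem_cons] at he
      rcases he with he | he
      · have hx : x = u := by
          rw [Sym2.eq_iff] at he
          rcases he with ⟨h1, _⟩ | ⟨h1, _⟩
          · exact absurd h1 h.ne
          · exact h1.symm
        subst hx
        have hn : q' = Walk.nil := by
          have := hq.1
          rw [Walk.isPath_iff_nil] at this
          exact Walk.eq_nil_iff_nil.mpr this
        subst hn
        simp only [wcost_cons, wcost_nil, add_zero]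
        exact hback _ _ h
      · exact absurd (Walk.snd_mem_support_of_mem_edges _ he) hq.2
  · exact hcyc _ _ ((Walk.cons_isCycle_iff q h).mpr ⟨hq, he⟩)

theorem wcost_bypass [DecidableEq V] (a : V → V → ℝ)
    (hback : ∀ u v, G.Adj u v → 0 ≤ a u v + a v u)
    (hcyc : ∀ u (p : G.Walk u u), p.IsCycle → 0 ≤ wcost a p)
    {u v : V} (p : G.Walk u v) : wcost a p.bypass ≤ wcost a p := by
  induction p with
  | nil => exact le_rfl
  | @cons u w v h p ih =>
    rw [wcost_cons]
    simp only [Walk.bypass]
    split_ifs with hs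
    · have h1 := wcost_closed_nonneg a hback hcyc h (p.bypass.takeUntil u hs)
        ((Walk.bypass_isPath p).takeUntil hs)
      rw [wcost_cons] at h1
      have h2 := wcost_append a (p.bypass.takeUntil u hs) (p.bypass.dropUntil u hs)
      rw [Walk.take_spec] at h2
      linarith
    · rw [wcost_cons]; linarith

theorem exists_pot [Finite V] (a : V → V → ℝ)
    (hback : ∀ u v, G.Adj u v → 0 ≤ a u v + a v u)
    (hcyc : ∀ u (p : G.Walk u u), p.IsCycle → 0 ≤ wcost a p) :
    ∃ ψ : V → ℝ, ∀ u v, G.Adj u v → ψ v ≤ ψ u + a u v := by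
  classical
  have := Fintype.ofFinite V
  -- a lower bound for all walks
  obtain ⟨A, hA0, hA⟩ : ∃ A : ℝ, 0 ≤ A ∧ ∀ u v, -A ≤ a u v := by
    refine ⟨∑ u, ∑ v, |a u v|, by positivity, fun u v => ?_⟩
    have h1 : |a u v| ≤ ∑ v, |a u v| :=
      Finset.single_le_sum (f := fun v => |a u v|) (fun _ _ => abs_nonneg _) (Finset.mem_univ v)
    have h2 : ∑ v, |a u v| ≤ ∑ u, ∑ v, |a u v| :=
      Finset.single_le_sum (f := fun u => ∑ v, |a u v|)
        (fun _ _ => Finset.sum_nonneg fun _ _ => abs_nonneg _) (Finset.mem_univ u)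
    have h3 := neg_abs_le (a u v)
    linarith
  have hlow : ∀ {u v : V} (p : G.Walk u v), -(p.length * A) ≤ wcost a p := by
    intro u v p
    induction p with
    | nil => simp
    | @cons u w v h p ih =>
      rw [wcost_cons, Walk.length_cons]
      have := hA u w
      push_cast
      linarith
  have hall : ∀ {u v : V} (p : G.Walk u v), -(Fintype.card V * A) ≤ wcost a p := by
    intro u v p
    refine le_trans ?_ (wcost_bypass a hback hcyc p)
    refine le_trans ?_ (hlow p.bypass)
    have h1 : p.bypass.length < Fintype.card V := (Walk.bypass_isPath p).length_lt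
    have h2 : (p.bypass.length : ℝ) ≤ Fintype.card V := by exact_mod_cast h1.le
    nlinarith
  set S : V → Set ℝ := fun v => {c | ∃ (u : V) (p : G.Walk u v), c = wcost a p} with hS
  have hbdd : ∀ v, BddBelow (S v) := fun v => ⟨-(Fintype.card V * A), by
    rintro c ⟨u, p, rfl⟩
    exact hall p⟩
  have hne : ∀ v, (S v).Nonempty := fun v => ⟨0, v, Walk.nil, rfl⟩
  refine ⟨fun v => sInf (S v), fun u v huv => ?_⟩
  show sInf (S v) ≤ sInf (S u) + a u v
  rw [← sub_le_iff_le_add]
  apply le_csInf (hne u)
  rintro c ⟨x, p, rfl⟩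
  rw [sub_le_iff_le_add]
  refine csInf_le (hbdd v) ⟨x, p.append (Walk.cons huv Walk.nil), ?_⟩
  rw [wcost_append, wcost_cons, wcost_nil]
  ring

end Pool.Agent.Helper520
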